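import Pool.Agent.Helper41.BS.Defs


set_option autoImplicit false

open scoped ENNReal NNReal Topology
open MeasureTheory ProbabilityTheory Set Filter

namespace Pool.Agent.Helper41.BS

/-! ## TARGETS: prove these (statements must not be changed; helper lemmas are welcome) -/

section M

variable {Ω : Type*} [mΩ : MeasurableSpace Ω] (P : Measure Ω) [IsProbabilityMeasure P] (F : ℝ → MeasurableSpace Ω) (T : ℝ) (W : ℝ → Ω → ℝ)

theorem gauss_int (v : ℝ≥0) (k : ℕ) : Integrable (fun x : ℝ => |x| ^ k) (gaussianReal 0 v) := by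
  rcases Nat.eq_zero_or_pos k with rfl | hk
  · simp
  · have h := memLp_id_gaussianReal' (μ := 0) (v := v) (k : ℝ≥0∞) (by simp)
    have h2 := h.integrable_norm_pow hk.ne'
    simpa using h2

theorem gauss_int' (v : ℝ≥0) (k : ℕ) : Integrable (fun x : ℝ => x ^ k) (gaussianReal 0 v) := by
  refine (gauss_int v k).mono (by fun_prop) (Filter.Eventually.of_forall (fun x => ?_))
  simp

theorem gauss_m2 (v : ℝ≥0) : ∫ x, x ^ 2 ∂(gaussianReal 0 v) = v := by
  have h := variance_fun_id_gaussianReal (μ := 0) (v := v)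
  rw [variance_eq_integral measurable_id'.aemeasurable] at h
  simpa using h

theorem gauss_m4 (v : ℝ≥0) : ∫ x, x ^ 4 ∂(gaussianReal 0 v) = 3 * (v : ℝ) ^ 2 := by
  have h := iteratedDeriv_mgf_zero (X := fun x : ℝ => x) (μ := gaussianReal 0 v) (by simp) 4
  have h0 : (gaussianReal 0 v)[(fun x : ℝ => x) ^ 4] = ∫ x, x ^ 4 ∂(gaussianReal 0 v) := rfl
  rw [h0] at h
  rw [← h, mgf_fun_id_gaussianReal]
  have e0 : (fun t : ℝ => Real.exp (0 * t + v * t ^ 2 / 2)) = fun t : ℝ => Real.exp (v * t ^ 2 / 2) := by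
    funext t; rw [zero_mul, zero_add]
  rw [e0]
  have d0 : ∀ t : ℝ, HasDerivAt (fun t : ℝ => Real.exp (v * t ^ 2 / 2))
      (v * t * Real.exp (v * t ^ 2 / 2)) t := by
    intro t
    have h1 : HasDerivAt (fun t : ℝ => (v : ℝ) * t ^ 2 / 2) (v * t) t := by
      have := ((hasDerivAt_pow 2 t).const_mul (v : ℝ)).div_const 2
      convert! this using 1
      push_cast
      ring
    have h2 := h1.exp
    convert! h2 using 1
    ring
  have e1 : deriv (fun t : ℝ => Real.exp (v * t ^ 2 / 2)) =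
      fun t : ℝ => v * t * Real.exp (v * t ^ 2 / 2) := funext fun t => (d0 t).deriv
  have e2 : deriv (fun t : ℝ => v * t * Real.exp (v * t ^ 2 / 2)) =
      fun t : ℝ => ((v : ℝ) + v ^ 2 * t ^ 2) * Real.exp (v * t ^ 2 / 2) := by
    funext t
    have h1 : HasDerivAt (fun t : ℝ => (v : ℝ) * t) v t := by
      simpa using (hasDerivAt_id t).const_mul (v : ℝ)
    have h2 := (h1.mul (d0 t)).deriv
    refine Eq.trans h2 ?_
    ring
  have e3 : deriv (fun t : ℝ => ((v : ℝ) + v ^ 2 * t ^ 2) * Real.exp (v * t ^ 2 / 2)) =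
      fun t : ℝ => (3 * (v : ℝ) ^ 2 * t + v ^ 3 * t ^ 3) * Real.exp (v * t ^ 2 / 2) := by
    funext t
    have h1 : HasDerivAt (fun t : ℝ => (v : ℝ) + v ^ 2 * t ^ 2) (v ^ 2 * (2 * t)) t := by
      have := ((hasDerivAt_pow 2 t).const_mul ((v : ℝ) ^ 2)).const_add (v : ℝ)
      simpa using this
    have h2 := (h1.mul (d0 t)).deriv
    refine Eq.trans h2 ?_
    ring
  have e4 : deriv (fun t : ℝ => (3 * (v : ℝ) ^ 2 * t + v ^ 3 * t ^ 3) * Real.exp (v * t ^ 2 / 2)) 0 =
      3 * (v : ℝ) ^ 2 := by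
    have h1 : HasDerivAt (fun t : ℝ => 3 * (v : ℝ) ^ 2 * t + v ^ 3 * t ^ 3)
        (3 * (v : ℝ) ^ 2 + v ^ 3 * (3 * 0 ^ 2)) 0 := by
      have a1 : HasDerivAt (fun t : ℝ => 3 * (v : ℝ) ^ 2 * t) (3 * (v : ℝ) ^ 2) 0 := by
        simpa using (hasDerivAt_id (0 : ℝ)).const_mul (3 * (v : ℝ) ^ 2)
      have a2 : HasDerivAt (fun t : ℝ => (v : ℝ) ^ 3 * t ^ 3) (v ^ 3 * (3 * 0 ^ 2)) 0 := by
        have := (hasDerivAt_pow 3 (0 : ℝ)).const_mul ((v : ℝ) ^ 3)
        simpa using this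
      exact a1.add a2
    have h2 := (h1.mul (d0 0)).deriv
    refine Eq.trans h2 ?_
    simp
  rw [iteratedDeriv_succ, iteratedDeriv_succ, iteratedDeriv_succ, iteratedDeriv_one, e1, e2, e3, e4]

theorem gauss_mom (v : ℝ≥0) : ∫ x, |x| ∂(gaussianReal 0 v) ≤ √v ∧ ∫ x, x ^ 2 ∂(gaussianReal 0 v) = v ∧
    ∫ x, |x| ^ 3 ∂(gaussianReal 0 v) ≤ 2 * (v * √v) ∧
    ∫ x, (x ^ 2 - v) ^ 2 ∂(gaussianReal 0 v) = 2 * v ^ 2 := by
  have m2 := gauss_m2 v
  have m4 := gauss_m4 v
  have i1 : Integrable (fun x : ℝ => |x|) (gaussianReal 0 v) := by simpa using gauss_int v 1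
  have i2 := gauss_int' v 2
  have i4 := gauss_int' v 4
  refine ⟨?_, m2, ?_, ?_⟩
  · set m := ∫ x, |x| ∂(gaussianReal 0 v) with hm
    have h1 : 0 ≤ ∫ x, (|x| - m) ^ 2 ∂(gaussianReal 0 v) := integral_nonneg (fun x => sq_nonneg _)
    have h2 : ∫ x, (|x| - m) ^ 2 ∂(gaussianReal 0 v) = v - m ^ 2 := by
      have e : (fun x : ℝ => (|x| - m) ^ 2) = fun x : ℝ => x ^ 2 - 2 * m * |x| + m ^ 2 := by
        funext x
        have := sq_abs x
        nlinarith
      have iA : Integrable (fun x : ℝ => x ^ 2 - 2 * m * |x|) (gaussianReal 0 v) :=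
        i2.sub (i1.const_mul _)
      rw [e, integral_add iA (integrable_const _),
        integral_sub i2 (i1.const_mul _), integral_const_mul, m2, ← hm]
      simp
      ring
    rw [h2] at h1
    exact Real.le_sqrt_of_sq_le (by linarith)
  · rcases eq_or_ne v 0 with hv | hv
    · subst hv
      simp
    · have hv' : (0 : ℝ) < v := by
        have : 0 < v := pos_iff_ne_zero.2 hv
        exact_mod_cast this
      set s := √(v : ℝ) with hs
      have hs0 : 0 < s := Real.sqrt_pos.2 hv'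
      have hss : s * s = v := Real.mul_self_sqrt hv'.le
      have h1 : ∫ x, |x| ^ 3 ∂(gaussianReal 0 v) ≤
          ∫ x, (s * x ^ 2 + (4 * s)⁻¹ * x ^ 4) ∂(gaussianReal 0 v) := by
        refine integral_mono (gauss_int v 3) ((i2.const_mul _).add (i4.const_mul _)) (fun x => ?_)
        have e1 : x ^ 2 = |x| ^ 2 := (sq_abs x).symm
        have e2 : x ^ 4 = |x| ^ 4 := by
          rw [show (4 : ℕ) = 2 * 2 by norm_num, pow_mul, pow_mul, sq_abs]
        show |x| ^ 3 ≤ s * x ^ 2 + (4 * s)⁻¹ * x ^ 4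
        rw [e1, e2]
        have h4 : (4 * s)⁻¹ * |x| ^ 4 = |x| ^ 4 / (4 * s) := by rw [inv_mul_eq_div]
        rw [h4, ← sub_nonneg]
        have h5 : s * |x| ^ 2 + |x| ^ 4 / (4 * s) - |x| ^ 3 =
            (|x| * (|x| - 2 * s)) ^ 2 / (4 * s) := by
          field_simp
          ring
        rw [h5]
        positivity
      rw [integral_add (i2.const_mul _) (i4.const_mul _), integral_const_mul, integral_const_mul,
        m2, m4] at h1
      have h6 : (4 * s)⁻¹ * (3 * (v : ℝ) ^ 2) = 3 / 4 * (v * s) := by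
        rw [← hss]
        field_simp
      rw [h6] at h1
      have : 0 < (v : ℝ) * s := by positivity
      nlinarith
  · have e : (fun x : ℝ => (x ^ 2 - (v : ℝ)) ^ 2) = fun x : ℝ => x ^ 4 - 2 * v * x ^ 2 + v ^ 2 := by
      funext x; ring
    have iA : Integrable (fun x : ℝ => x ^ 4 - 2 * v * x ^ 2) (gaussianReal 0 v) :=
      i4.sub (i2.const_mul _)
    rw [e, integral_add iA (integrable_const _),
      integral_sub i4 (i2.const_mul _), integral_const_mul, m2, m4]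
    simp
    ring

theorem inc_meas (hW : FBM P F T W) (s t : ℝ) (hs : 0 ≤ s) (hst : s ≤ t) :
    Measurable (fun ω => W t ω - W s ω) :=
  ((hW.adap t (hs.trans hst)).mono (hW.le t) le_rfl).sub ((hW.adap s hs).mono (hW.le s) le_rfl)

theorem inc_int (hW : FBM P F T W) (s t : ℝ) (hs : 0 ≤ s) (hst : s ≤ t) (ht : t ≤ T) (k : ℕ) :
    Integrable (fun ω => |W t ω - W s ω| ^ k) P := by
  have h := gauss_int (t - s).toNNReal k
  rw [← hW.law s t hs hst ht] at h
  exact (integrable_map_measure (f := fun ω => W t ω - W s ω) (by fun_prop)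
    (inc_meas P F T W hW s t hs hst).aemeasurable).1 h

theorem inc_mom (hW : FBM P F T W) (s t : ℝ) (hs : 0 ≤ s) (hst : s ≤ t) (ht : t ≤ T) :
    ∫ ω, |W t ω - W s ω| ∂P ≤ √(t - s) ∧ ∫ ω, (W t ω - W s ω) ^ 2 ∂P = t - s ∧
    ∫ ω, |W t ω - W s ω| ^ 3 ∂P ≤ 2 * ((t - s) * √(t - s)) ∧
    ∫ ω, ((W t ω - W s ω) ^ 2 - (t - s)) ^ 2 ∂P = 2 * (t - s) ^ 2 := by
  have hm := inc_meas P F T W hW s t hs hst
  have h := gauss_mom (t - s).toNNReal
  rw [Real.coe_toNNReal _ (sub_nonneg.2 hst), ← hW.law s t hs hst ht,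
    integral_map hm.aemeasurable (by fun_prop), integral_map hm.aemeasurable (by fun_prop),
    integral_map hm.aemeasurable (by fun_prop), integral_map hm.aemeasurable (by fun_prop)] at h
  exact h

end M

end Pool.Agent.Helper41.BS
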