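import Pool.Agent.Helper41.BS.Defs


set_option autoImplicit false

open scoped ENNReal NNReal Topology
open MeasureTheory ProbabilityTheory Set Filter

namespace Pool.Agent.Helper41.BS

/-! ## TARGETS: prove these (statements must not be changed; helper lemmas are welcome) -/

section N

variable {Ω : Type*}

theorem phi_pos (x : ℝ) : 0 < phi x := by
  unfold phi
  positivity

theorem phi_le (x : ℝ) : phi x ≤ 1 := by
  unfold phi
  have h1 : (√(2 * Real.pi))⁻¹ ≤ 1 := by
    apply inv_le_one_of_one_le₀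
    rw [Real.one_le_sqrt]
    linarith [Real.pi_gt_three]
  have h2 : Real.exp (-(x ^ 2) / 2) ≤ 1 := by
    rw [Real.exp_le_one_iff]
    nlinarith [sq_nonneg x]
  calc (√(2 * Real.pi))⁻¹ * Real.exp (-(x ^ 2) / 2) ≤ 1 * 1 :=
        mul_le_mul h1 h2 (Real.exp_pos _).le zero_le_one
    _ = 1 := one_mul 1

theorem phi_le_exp (x : ℝ) : phi x ≤ Real.exp (-(x ^ 2) / 2) := by
  unfold phi
  have h1 : (√(2 * Real.pi))⁻¹ ≤ 1 := by
    apply inv_le_one_of_one_le₀
    rw [Real.one_le_sqrt]
    linarith [Real.pi_gt_three]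
  calc (√(2 * Real.pi))⁻¹ * Real.exp (-(x ^ 2) / 2) ≤ 1 * Real.exp (-(x ^ 2) / 2) := by gcongr
    _ = _ := one_mul _

theorem phi_deriv (x : ℝ) : HasDerivAt phi (-x * phi x) x := by
  have h1 : HasDerivAt (fun x : ℝ => -(x ^ 2) / 2) (-(2 * x) / 2) x := by
    have := ((hasDerivAt_pow 2 x).neg).div_const 2
    refine HasDerivAt.congr_deriv this ?_
    simp
  have h2 := (h1.exp).const_mul ((√(2 * Real.pi))⁻¹)
  have h3 : HasDerivAt phi ((√(2 * Real.pi))⁻¹ * (Real.exp (-(x ^ 2) / 2) * (-(2 * x) / 2))) x := h2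
  refine h3.congr_deriv ?_
  unfold phi
  ring

theorem phi_pow_bd (k : ℕ) : ∃ C : ℝ, 0 ≤ C ∧ ∀ x : ℝ, |x| ^ k * phi x ≤ C := by
  refine ⟨(k.factorial : ℝ) * Real.exp (1 / 2), by positivity, fun x => ?_⟩
  have h1 : |x| ^ k ≤ (k.factorial : ℝ) * Real.exp |x| := by
    have := Real.pow_div_factorial_le_exp |x| (abs_nonneg x) k
    rw [div_le_iff₀ (by positivity)] at this
    linarith
  calc |x| ^ k * phi x ≤ ((k.factorial : ℝ) * Real.exp |x|) * Real.exp (-(x ^ 2) / 2) :=
        mul_le_mul h1 (phi_le_exp x) (phi_pos x).le (by positivity)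
    _ = (k.factorial : ℝ) * Real.exp (|x| + -(x ^ 2) / 2) := by rw [Real.exp_add, mul_assoc]
    _ ≤ (k.factorial : ℝ) * Real.exp (1 / 2) := by
        gcongr
        have h2 : x ^ 2 = |x| ^ 2 := (sq_abs x).symm
        rw [h2]
        nlinarith [sq_nonneg (|x| - 1)]

theorem phi_eq_pdf (x : ℝ) : gaussianPDFReal 0 1 x = phi x := by
  unfold gaussianPDFReal phi
  simp

theorem phi_cont : Continuous phi :=
  continuous_iff_continuousAt.2 fun x => (phi_deriv x).continuousAt

theorem phi_integrable : Integrable phi := by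
  have h := integrable_gaussianPDFReal 0 1
  have e : gaussianPDFReal 0 1 = phi := funext phi_eq_pdf
  rwa [e] at h

theorem Phi_eq_integral (x : ℝ) : Phi x = ∫ t in Iic x, phi t := by
  unfold Phi
  rw [Measure.real, gaussianReal_apply_eq_integral 0 one_ne_zero, ENNReal.toReal_ofReal]
  · simp only [phi_eq_pdf]
  · exact integral_nonneg fun t => gaussianPDFReal_nonneg _ _ _

theorem Phi_deriv (x : ℝ) : HasDerivAt Phi (phi x) x := by
  have h1 : Phi = fun y => Phi 0 + ∫ t in (0:ℝ)..y, phi t := by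
    funext y
    rw [Phi_eq_integral y, Phi_eq_integral 0, ← intervalIntegral.integral_Iic_sub_Iic
      phi_integrable.integrableOn phi_integrable.integrableOn]
    ring
  rw [h1]
  have h2 : HasDerivAt (fun y => ∫ t in (0:ℝ)..y, phi t) (phi x) x :=
    intervalIntegral.integral_hasDerivAt_right (phi_cont.intervalIntegrable _ _)
      (phi_cont.stronglyMeasurableAtFilter _ _) phi_cont.continuousAt
  exact h2.const_add _

theorem Phi_strictMono : StrictMono Phi := by
  apply strictMono_of_deriv_pos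
  intro x
  rw [(Phi_deriv x).deriv]
  exact phi_pos x

theorem Phi_pos (x : ℝ) : 0 < Phi x := by
  have h1 : Phi (x - 1) < Phi x := Phi_strictMono (by linarith)
  have h2 : 0 ≤ Phi (x - 1) := measureReal_nonneg
  linarith

theorem Phi_lt_one (x : ℝ) : Phi x < 1 := by
  have h1 : Phi x < Phi (x + 1) := Phi_strictMono (by linarith)
  have h2 : Phi (x + 1) ≤ 1 := measureReal_le_one
  linarith

theorem Phi_mem (x : ℝ) : Phi x ∈ Icc (0:ℝ) 1 :=
  ⟨(Phi_pos x).le, (Phi_lt_one x).le⟩

theorem Phi_cont : Continuous Phi :=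
  continuous_iff_continuousAt.2 fun x => (Phi_deriv x).continuousAt

theorem Phi_top : Tendsto Phi atTop (𝓝 1) := by
  have h := tendsto_cdf_atTop (gaussianReal 0 1)
  refine h.congr fun x => ?_
  rw [cdf_eq_real]; rfl

theorem Phi_bot : Tendsto Phi atBot (𝓝 0) := by
  have h := tendsto_cdf_atBot (gaussianReal 0 1)
  refine h.congr fun x => ?_
  rw [cdf_eq_real]; rfl

theorem Phi_exists (π : ℝ) (h0 : 0 < π) (h1 : π < 1) : ∃ x : ℝ, Phi x = π := by
  obtain ⟨a, ha⟩ := (Phi_bot.eventually (gt_mem_nhds h0)).exists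
  obtain ⟨b, hb⟩ := (Phi_top.eventually (lt_mem_nhds h1)).exists
  exact mem_range_of_exists_le_of_exists_ge Phi_cont ⟨a, ha.le⟩ ⟨b, hb.le⟩

theorem Phi_law (v : ℝ≥0) (hv : v ≠ 0) (c : ℝ) :
    (gaussianReal 0 v).real (Ioi c) = Phi (-c / √v) := by
  have hv0 : (0 : ℝ) < v := by
    have := v.2.lt_of_ne (fun h => hv (NNReal.eq h.symm))
    exact this
  have hs : 0 < √(v : ℝ) := Real.sqrt_pos.2 hv0
  have h1 := gaussianReal_map_const_mul (μ := 0) (v := 1) (-√(v : ℝ))
  have h2 : (gaussianReal 0 1).map (fun x => -√(v : ℝ) * x) = gaussianReal 0 v := by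
    rw [h1]
    congr 1
    · simp
    · apply NNReal.eq
      simp [Real.sq_sqrt hv0.le]
  rw [← h2, map_measureReal_apply (by fun_prop) measurableSet_Ioi]
  have h3 : (fun x => -√(v : ℝ) * x) ⁻¹' Ioi c = Iio (-c / √(v : ℝ)) := by
    ext x
    simp only [mem_preimage, mem_Ioi, mem_Iio]
    rw [lt_div_iff₀ hs]
    constructor <;> intro h <;> nlinarith
  rw [h3]
  unfold Phi
  have := nullSingletonClass_gaussianReal (μ := 0) (v := 1) one_ne_zero
  exact measureReal_congr Iio_ae_eq_Iic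

end N

end Pool.Agent.Helper41.BS
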