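import Pool.Agent.Helper41.BS.Defs
import Pool.Agent.Helper41.BS.Nrm

set_option autoImplicit false

open scoped ENNReal NNReal Topology
open MeasureTheory ProbabilityTheory Set Filter

namespace Pool.Agent.Helper41.BS


/-! ## TARGETS: prove these (statements must not be changed; helper lemmas are welcome) -/

section T

variable {Ω : Type*}

theorem fD_deriv (g : ℝ) (F F1 : ℝ → ℝ) (hF : ODE g F F1) (u : ℝ) :
    HasDerivAt (fun u => F (Phi u)) (fD F1 u) u ∧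
    HasDerivAt (fD F1) (-u * fD F1 u - 2 * g * (fD F1 u) ^ 2) u := by
  constructor
  · exact (hF.h0 (Phi u) (Phi_mem u)).comp u (Phi_deriv u)
  · have h := ((hF.h1 (Phi u) (Phi_mem u)).comp u (Phi_deriv u)).mul (phi_deriv u)
    have e : fD F1 = (F1 ∘ Phi) * phi := rfl
    have e2 : -u * fD F1 u - 2 * g * (fD F1 u) ^ 2 =
        -2 * g * F1 (Phi u) ^ 2 * phi u * phi u + (F1 ∘ Phi) u * (-u * phi u) := by
      simp only [fD, Function.comp]
      ring
    rw [e2, e]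
    exact h

theorem fD_bd (g : ℝ) (F F1 : ℝ → ℝ) (hF : ODE g F F1) (k : ℕ) :
    ∃ C : ℝ, 0 ≤ C ∧ ∀ u : ℝ, |u| ^ k * |fD F1 u| ≤ C := by
  have hc : ContinuousOn F1 (Icc 0 1) := fun x hx => (hF.h1 x hx).continuousAt.continuousWithinAt
  obtain ⟨C1, hC1⟩ := isCompact_Icc.exists_bound_of_continuousOn hc
  obtain ⟨C2, hC2, hC2'⟩ := phi_pow_bd k
  have hC1' : 0 ≤ C1 := (norm_nonneg _).trans (hC1 0 ⟨le_rfl, zero_le_one⟩)
  refine ⟨C2 * C1, mul_nonneg hC2 hC1', fun u => ?_⟩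
  have h1 : |F1 (Phi u)| ≤ C1 := hC1 _ (Phi_mem u)
  rw [fD, abs_mul, abs_of_pos (phi_pos u)]
  calc |u| ^ k * (|F1 (Phi u)| * phi u) = (|u| ^ k * phi u) * |F1 (Phi u)| := by ring
    _ ≤ C2 * C1 := mul_le_mul (hC2' u) h1 (abs_nonneg _) hC2

theorem F_bd (g : ℝ) (F F1 : ℝ → ℝ) (hF : ODE g F F1) :
    ∃ C : ℝ, 0 ≤ C ∧ (∀ x ∈ Icc (0:ℝ) 1, |F x| ≤ C ∧ |F1 x| ≤ C) ∧
      ∀ x ∈ Icc (0:ℝ) 1, ∀ y ∈ Icc (0:ℝ) 1, |F x - F y| ≤ C * |x - y| := by
  have hc1 : ContinuousOn F1 (Icc 0 1) := fun x hx => (hF.h1 x hx).continuousAt.continuousWithinAt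
  have hc0 : ContinuousOn F (Icc 0 1) := fun x hx => (hF.h0 x hx).continuousAt.continuousWithinAt
  obtain ⟨C1, hC1⟩ := isCompact_Icc.exists_bound_of_continuousOn hc1
  obtain ⟨C0, hC0⟩ := isCompact_Icc.exists_bound_of_continuousOn hc0
  have hC1' : 0 ≤ C1 := (norm_nonneg _).trans (hC1 0 ⟨le_rfl, zero_le_one⟩)
  refine ⟨max C0 C1, hC1'.trans (le_max_right _ _), ?_, ?_⟩
  · intro x hx
    exact ⟨(hC0 x hx).trans (le_max_left _ _), (hC1 x hx).trans (le_max_right _ _)⟩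
  · intro x hx y hy
    have h := (convex_Icc (0:ℝ) 1).norm_image_sub_le_of_norm_hasDerivWithin_le
      (fun z hz => (hF.h0 z hz).hasDerivWithinAt)
      (fun z hz => (hC1 z hz).trans (le_max_right C0 C1)) hy hx
    simpa [Real.norm_eq_abs] using h

theorem taylor_two (f f' : ℝ → ℝ) (a b L : ℝ) (hL : 0 ≤ L)
    (hf : ∀ x ∈ Icc a b, HasDerivAt f (f' x) x)
    (hf' : ∀ x ∈ Icc a b, ∀ y ∈ Icc a b, |f' x - f' y| ≤ L * |x - y|)
    (x y : ℝ) (hx : x ∈ Icc a b) (hy : y ∈ Icc a b) :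
    |f y - f x - f' x * (y - x)| ≤ L * (y - x) ^ 2 := by
  have hsub : uIcc x y ⊆ Icc a b := by
    intro z hz
    rw [mem_uIcc] at hz
    rcases hz with h | h
    · exact ⟨hx.1.trans h.1, h.2.trans hy.2⟩
    · exact ⟨hy.1.trans h.1, h.2.trans hx.2⟩
  have hd : ∀ z ∈ uIcc x y, HasDerivWithinAt (fun z => f z - f' x * z) (f' z - f' x)
      (uIcc x y) z := by
    intro z hz
    have h1 := (hf z (hsub hz)).sub ((hasDerivAt_id z).const_mul (f' x))
    rw [mul_one] at h1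
    exact h1.hasDerivWithinAt
  have hb : ∀ z ∈ uIcc x y, ‖f' z - f' x‖ ≤ L * |y - x| := by
    intro z hz
    rw [Real.norm_eq_abs]
    refine (hf' z (hsub hz) x hx).trans ?_
    exact mul_le_mul_of_nonneg_left (abs_sub_left_of_mem_uIcc hz) hL
  have h := (convex_uIcc x y).norm_image_sub_le_of_norm_hasDerivWithin_le hd hb
    left_mem_uIcc right_mem_uIcc
  rw [Real.norm_eq_abs, Real.norm_eq_abs] at h
  have e1 : f y - f x - f' x * (y - x) = f y - f' x * y - (f x - f' x * x) := by ring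
  rw [e1]
  refine h.trans (le_of_eq ?_)
  rw [mul_assoc, ← sq, sq_abs]

theorem taylor_three (f f' f'' : ℝ → ℝ) (L : ℝ) (hL : 0 ≤ L)
    (hf : ∀ x, HasDerivAt f (f' x) x) (hf' : ∀ x, HasDerivAt f' (f'' x) x)
    (hf'' : ∀ x y, |f'' x - f'' y| ≤ L * |x - y|) (x y : ℝ) :
    |f y - f x - f' x * (y - x) - f'' x / 2 * (y - x) ^ 2| ≤ L * |y - x| ^ 3 := by
  have hd : ∀ z ∈ uIcc x y, HasDerivWithinAt (fun z => f z - f' x * z - f'' x / 2 * (z - x) ^ 2)
      (f' z - f' x - f'' x * (z - x)) (uIcc x y) z := by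
    intro z hz
    have h1 := ((hf z).sub ((hasDerivAt_id z).const_mul (f' x))).sub
      ((((hasDerivAt_id z).sub_const x).pow 2).const_mul (f'' x / 2))
    refine HasDerivAt.hasDerivWithinAt ?_
    have e2 : f' z - f' x - f'' x * (z - x) =
        f' z - f' x * 1 - f'' x / 2 * (((2 : ℕ) : ℝ) * (id z - x) ^ (2 - 1) * 1) := by
      simp only [id, Nat.cast_ofNat]
      norm_num
      ring
    rw [e2]
    exact h1
  have hb : ∀ z ∈ uIcc x y, ‖f' z - f' x - f'' x * (z - x)‖ ≤ L * |y - x| ^ 2 := by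
    intro z hz
    rw [Real.norm_eq_abs]
    have h2 := taylor_two f' f'' (min x z) (max x z) L hL (fun w _ => hf' w)
      (fun w _ v _ => hf'' w v) x z ⟨min_le_left _ _, le_max_left _ _⟩
      ⟨min_le_right _ _, le_max_right _ _⟩
    refine h2.trans ?_
    apply mul_le_mul_of_nonneg_left _ hL
    rw [← sq_abs]
    exact pow_le_pow_left₀ (abs_nonneg _) (abs_sub_left_of_mem_uIcc hz) 2
  have h := (convex_uIcc x y).norm_image_sub_le_of_norm_hasDerivWithin_le hd hb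
    left_mem_uIcc right_mem_uIcc
  rw [Real.norm_eq_abs, Real.norm_eq_abs] at h
  have e1 : f y - f x - f' x * (y - x) - f'' x / 2 * (y - x) ^ 2 =
      f y - f' x * y - f'' x / 2 * (y - x) ^ 2 - (f x - f' x * x - f'' x / 2 * (x - x) ^ 2) := by
    ring
  rw [e1]
  refine h.trans (le_of_eq ?_)
  ring

theorem ft_f2 (g : ℝ) (F1 : ℝ → ℝ) (b c t w : ℝ) (ht : t < b) :
    ft F1 b c t w + f2 g F1 b c t w / 2 = -g * (fd F1 b c t w) ^ 2 := by
  have h1 : 0 < b - t := by linarith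
  rw [ft, f2, fd, div_pow, Real.sq_sqrt h1.le]
  field_simp
  ring

end T

end Pool.Agent.Helper41.BS
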