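import Pool.Agent.Helper41.BS.Defs
import Pool.Agent.Helper41.BS.TayA

set_option autoImplicit false

open scoped ENNReal NNReal Topology
open MeasureTheory ProbabilityTheory Set Filter

namespace Pool.Agent.Helper41.BS


/-! ## TARGETS: prove these (statements must not be changed; helper lemmas are welcome) -/

section T

variable {Ω : Type*}

theorem j9701_bd (g : ℝ) (F F1 : ℝ → ℝ) (hF : ODE g F F1) :
    ∃ C0 C1 C2 : ℝ, 0 ≤ C0 ∧ 0 ≤ C1 ∧ 0 ≤ C2 ∧ (∀ u, |fD F1 u| ≤ C0) ∧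
      (∀ u, |u * fD F1 u| ≤ C1) ∧ ∀ u, |u ^ 2 * fD F1 u| ≤ C2 := by
  obtain ⟨C0, h0, h0'⟩ := fD_bd g F F1 hF 0
  obtain ⟨C1, h1, h1'⟩ := fD_bd g F F1 hF 1
  obtain ⟨C2, h2, h2'⟩ := fD_bd g F F1 hF 2
  refine ⟨C0, C1, C2, h0, h1, h2, fun u => ?_, fun u => ?_, fun u => ?_⟩
  · have := h0' u
    rwa [pow_zero, one_mul] at this
  · have := h1' u
    rwa [pow_one, ← abs_mul] at this
  · have := h2' u
    rwa [← abs_pow, ← abs_mul] at this

theorem fd_bd (g : ℝ) (F F1 : ℝ → ℝ) (hF : ODE g F F1) (a b' b c : ℝ) (hb : b' < b) :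
    ∃ C : ℝ, 0 ≤ C ∧ ∀ t ∈ Icc a b', ∀ w : ℝ, |fd F1 b c t w| ≤ C ∧ |f2 g F1 b c t w| ≤ C := by
  obtain ⟨C0, C1, C2, h0, h1, h2, k0, k1, k2⟩ := j9701_bd g F F1 hF
  have ht0 : 0 < b - b' := by linarith
  have hs0 : 0 < √(b - b') := Real.sqrt_pos.2 ht0
  have hA : 0 ≤ C0 / √(b - b') := div_nonneg h0 hs0.le
  have hB : 0 ≤ (C1 + 2 * |g| * C0 ^ 2) / (b - b') :=
    div_nonneg (by positivity) ht0.le
  refine ⟨C0 / √(b - b') + (C1 + 2 * |g| * C0 ^ 2) / (b - b'), add_nonneg hA hB, ?_⟩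
  intro t ht w
  have htt : b - b' ≤ b - t := by linarith [ht.2]
  have hss : √(b - b') ≤ √(b - t) := Real.sqrt_le_sqrt htt
  have ht1 : 0 < b - t := lt_of_lt_of_le ht0 htt
  have hs1 : 0 < √(b - t) := Real.sqrt_pos.2 ht1
  constructor
  · have e1 : |fd F1 b c t w| ≤ C0 / √(b - b') := by
      rw [fd, abs_div, abs_of_pos hs1]
      exact div_le_div₀ h0 (k0 _) hs0 hss
    linarith
  · have e1 : |f2 g F1 b c t w| ≤ (C1 + 2 * |g| * C0 ^ 2) / (b - b') := by
      rw [f2, abs_div, abs_of_pos ht1]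
      refine div_le_div₀ (by positivity) ?_ ht0 htt
      have e2 := k1 (uu b c t w)
      have e3 := k0 (uu b c t w)
      have e4 : |2 * g * (fD F1 (uu b c t w)) ^ 2| ≤ 2 * |g| * C0 ^ 2 := by
        rw [abs_mul, abs_mul, abs_pow, abs_two]
        exact mul_le_mul_of_nonneg_left (pow_le_pow_left₀ (abs_nonneg _) e3 2) (by positivity)
      have e5 := abs_sub (-(uu b c t w) * fD F1 (uu b c t w)) (2 * g * (fD F1 (uu b c t w)) ^ 2)
      have e6 : |-(uu b c t w) * fD F1 (uu b c t w)| = |uu b c t w * fD F1 (uu b c t w)| := by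
        rw [neg_mul, abs_neg]
      linarith
    linarith

theorem j9701_dw (g : ℝ) (F F1 : ℝ → ℝ) (hF : ODE g F F1) (b c t w : ℝ) (ht : t < b) :
    HasDerivAt (fun w => fd F1 b c t w) (f2 g F1 b c t w) w := by
  have ht1 : 0 < b - t := by linarith
  have hs1 : 0 < √(b - t) := Real.sqrt_pos.2 ht1
  have h1 : HasDerivAt (fun w => uu b c t w) (1 / √(b - t)) w := by
    exact ((hasDerivAt_id w).sub_const c).div_const _
  have h2 := (HasDerivAt.comp w (fD_deriv g F F1 hF (uu b c t w)).2 h1).div_const (√(b - t))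
  refine HasDerivAt.congr_deriv (f := fun w => fd F1 b c t w) h2 ?_
  rw [f2, mul_one_div, div_div, Real.mul_self_sqrt ht1.le]

theorem j9701_dt (g : ℝ) (F F1 : ℝ → ℝ) (hF : ODE g F F1) (b c t w : ℝ) (ht : t < b) :
    HasDerivAt (fun t => fd F1 b c t w) ((uu b c t w * (-(uu b c t w) * fD F1 (uu b c t w) -
      2 * g * (fD F1 (uu b c t w)) ^ 2) + fD F1 (uu b c t w)) / (2 * (b - t) * √(b - t))) t := by
  have ht1 : 0 < b - t := by linarith
  have hs1 : 0 < √(b - t) := Real.sqrt_pos.2 ht1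
  have hsq : √(b - t) ^ 2 = b - t := Real.sq_sqrt ht1.le
  have h0 : HasDerivAt (fun t => √(b - t)) (-(1 / (2 * √(b - t)))) t := by
    have e1 : HasDerivAt (fun t => b - t) (-1) t := by
      simpa using (hasDerivAt_id t).const_sub b
    have e2 := e1.sqrt ht1.ne'
    refine HasDerivAt.congr_deriv e2 ?_
    ring
  have h1 : HasDerivAt (fun t => uu b c t w) (uu b c t w / (2 * (b - t))) t := by
    have e1 := (hasDerivAt_const t (w - c)).div h0 hs1.ne'
    refine HasDerivAt.congr_deriv (f := fun t => uu b c t w) e1 ?_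
    rw [uu, hsq, ← hsq]
    field_simp
    ring
  have h2 := (HasDerivAt.comp t (fD_deriv g F F1 hF (uu b c t w)).2 h1).div h0 hs1.ne'
  refine HasDerivAt.congr_deriv (f := fun t => fd F1 b c t w) h2 ?_
  simp only [Function.comp_apply]
  generalize fD F1 (uu b c t w) = D
  generalize uu b c t w = u
  have hbt : b - t = √(b - t) ^ 2 := hsq.symm
  rw [hsq]
  have h3 : 0 < (b - t) * √(b - t) := mul_pos ht1 hs1
  rw [div_eq_div_iff ht1.ne' (by positivity)]
  rw [hbt]
  have hs2 : √(√(b - t) ^ 2) = √(b - t) := Real.sqrt_sq hs1.le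
  rw [hs2]
  field_simp
  ring

theorem fd_lip (g : ℝ) (F F1 : ℝ → ℝ) (hF : ODE g F F1) (a b' b c : ℝ) (hb : b' < b) :
    ∃ C : ℝ, 0 ≤ C ∧ ∀ t ∈ Icc a b', ∀ t' ∈ Icc a b', ∀ w w' : ℝ,
      |fd F1 b c t' w' - fd F1 b c t w| ≤ C * (|t' - t| + |w' - w|) := by
  obtain ⟨A, hA, hA'⟩ := fd_bd g F F1 hF a b' b c hb
  obtain ⟨C0, C1, C2, h0, h1, h2, k0, k1, k2⟩ := j9701_bd g F F1 hF
  have ht0 : 0 < b - b' := by linarith
  have hs0 : 0 < √(b - b') := Real.sqrt_pos.2 ht0
  set B : ℝ := (C2 + 2 * |g| * (C1 * C0) + C0) / (2 * (b - b') * √(b - b')) with hB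
  have hB0 : 0 ≤ B := div_nonneg (by positivity) (by positivity)
  have hw : ∀ t ∈ Icc a b', ∀ w w' : ℝ, |fd F1 b c t w' - fd F1 b c t w| ≤ A * |w' - w| := by
    intro t ht w w'
    exact Convex.norm_image_sub_le_of_norm_hasDerivWithin_le (f := fun w => fd F1 b c t w)
      (f' := fun w => f2 g F1 b c t w) (s := univ)
      (fun x _ => (j9701_dw g F F1 hF b c t x (by linarith [ht.2])).hasDerivWithinAt)
      (fun x _ => (hA' t ht x).2) convex_univ (mem_univ w) (mem_univ w')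
  have ht : ∀ t ∈ Icc a b', ∀ t' ∈ Icc a b', ∀ w : ℝ,
      |fd F1 b c t' w - fd F1 b c t w| ≤ B * |t' - t| := by
    intro t ht t' ht' w
    refine Convex.norm_image_sub_le_of_norm_hasDerivWithin_le (f := fun t => fd F1 b c t w)
      (s := Icc a b')
      (fun x hx => (j9701_dt g F F1 hF b c x w (by linarith [hx.2])).hasDerivWithinAt)
      (fun x hx => ?_) (convex_Icc a b') ht ht'
    have hxx : b - b' ≤ b - x := by linarith [hx.2]
    have hss : √(b - b') ≤ √(b - x) := Real.sqrt_le_sqrt hxx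
    have hx1 : 0 < b - x := lt_of_lt_of_le ht0 hxx
    have hs1 : 0 < √(b - x) := Real.sqrt_pos.2 hx1
    rw [Real.norm_eq_abs, abs_div, abs_of_pos (by positivity : 0 < 2 * (b - x) * √(b - x)), hB]
    refine div_le_div₀ (by positivity) ?_ (by positivity) ?_
    · have e0 := k0 (uu b c x w)
      have e1 := k1 (uu b c x w)
      have e2 := k2 (uu b c x w)
      generalize fD F1 (uu b c x w) = D at e0 e1 e2
      generalize uu b c x w = u at e0 e1 e2
      have e3 : u * (-u * D - 2 * g * D ^ 2) + D = -(u ^ 2 * D) - 2 * g * ((u * D) * D) + D := by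
        ring
      rw [e3]
      have e4 : |2 * g * ((u * D) * D)| ≤ 2 * |g| * (C1 * C0) := by
        rw [abs_mul, abs_mul, abs_two, abs_mul (u * D)]
        exact mul_le_mul_of_nonneg_left (mul_le_mul e1 e0 (abs_nonneg _) h1) (by positivity)
      have e5 := abs_add_le (-(u ^ 2 * D) - 2 * g * ((u * D) * D)) D
      have e6 := abs_sub (-(u ^ 2 * D)) (2 * g * ((u * D) * D))
      rw [abs_neg] at e6
      linarith
    · exact mul_le_mul (by linarith) hss hs0.le (by linarith)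
  refine ⟨A + B, add_nonneg hA hB0, ?_⟩
  intro t htm t' htm' w w'
  have e1 := hw t' htm' w w'
  have e2 := ht t htm t' htm' w
  have e3 : fd F1 b c t' w' - fd F1 b c t w =
      (fd F1 b c t' w' - fd F1 b c t' w) + (fd F1 b c t' w - fd F1 b c t w) := by ring
  rw [e3]
  refine (abs_add_le _ _).trans ?_
  have e4 := mul_nonneg hB0 (abs_nonneg (w' - w))
  have e5 := mul_nonneg hA (abs_nonneg (t' - t))
  nlinarith

theorem j9701_um (b c : ℝ) : Measurable (fun p : ℝ × ℝ => uu b c p.1 p.2) := by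
  unfold uu
  exact (measurable_snd.sub_const c).div ((measurable_const.sub measurable_fst).sqrt)

theorem fd_meas (g : ℝ) (F F1 : ℝ → ℝ) (hF : ODE g F F1) (b c : ℝ) :
    Measurable (fun p : ℝ × ℝ => fd F1 b c p.1 p.2) := by
  have h1 : Continuous (fD F1) :=
    continuous_iff_continuousAt.2 fun u => (fD_deriv g F F1 hF u).2.continuousAt
  unfold fd
  exact (h1.measurable.comp (j9701_um b c)).div ((measurable_const.sub measurable_fst).sqrt)

theorem fF_meas (g : ℝ) (F F1 : ℝ → ℝ) (hF : ODE g F F1) (b c : ℝ) :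
    Measurable (fun p : ℝ × ℝ => fF F b c p.1 p.2) := by
  have h1 : Continuous (fun u => F (Phi u)) :=
    continuous_iff_continuousAt.2 fun u => (fD_deriv g F F1 hF u).1.continuousAt
  exact h1.measurable.comp (j9701_um b c)

end T

end Pool.Agent.Helper41.BS
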