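import Pool.Agent.Helper41.BS.Defs
import Pool.Agent.Helper41.BS.TayB
import Pool.Agent.Helper41.BS.Mom

set_option autoImplicit false

open scoped ENNReal NNReal Topology
open MeasureTheory ProbabilityTheory Set Filter

namespace Pool.Agent.Helper41.BS


section Aux9737

theorem phi_sq_le_aux (x : ℝ) : phi x ^ 2 ≤ Real.exp (-(x ^ 2)) := by
  unfold phi
  rw [mul_pow, ← Real.exp_nat_mul]
  have h1 : ((√(2 * Real.pi))⁻¹) ^ 2 ≤ 1 := by
    rw [inv_pow, Real.sq_sqrt (by positivity)]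
    apply inv_le_one_of_one_le₀
    have := Real.pi_gt_three
    linarith
  have h2 : ((2:ℕ):ℝ) * (-(x ^ 2) / 2) = -(x ^ 2) := by
    push_cast
    ring
  rw [h2]
  calc ((√(2 * Real.pi))⁻¹) ^ 2 * Real.exp (-(x ^ 2)) ≤ 1 * Real.exp (-(x ^ 2)) :=
        mul_le_mul_of_nonneg_right h1 (Real.exp_pos _).le
    _ = _ := one_mul _

theorem fd_sq_le_aux (G1 : ℝ → ℝ) (C : ℝ) (hC : ∀ x ∈ Icc (0:ℝ) 1, |G1 x| ≤ C)
    (b c t w : ℝ) (ht : t < b) :
    (fd G1 b c t w) ^ 2 ≤ C ^ 2 / (b - t) * Real.exp (-(1 / (b - t)) * (w - c) ^ 2) := by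
  have hτ : 0 < b - t := by linarith
  have h1 : (G1 (Phi (uu b c t w))) ^ 2 ≤ C ^ 2 := by
    have := hC _ (Phi_mem (uu b c t w))
    have h0 := abs_le.1 this
    exact sq_le_sq' h0.1 h0.2
  have h2 := phi_sq_le_aux (uu b c t w)
  have h3 : -((uu b c t w) ^ 2) = -(1 / (b - t)) * (w - c) ^ 2 := by
    unfold uu
    rw [div_pow, Real.sq_sqrt hτ.le]
    ring
  rw [h3] at h2
  unfold fd fD
  rw [div_pow, Real.sq_sqrt hτ.le, mul_pow]
  have h4 : (G1 (Phi (uu b c t w))) ^ 2 * phi (uu b c t w) ^ 2 ≤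
      C ^ 2 * Real.exp (-(1 / (b - t)) * (w - c) ^ 2) :=
    mul_le_mul h1 h2 (sq_nonneg _) (sq_nonneg _)
  calc (G1 (Phi (uu b c t w))) ^ 2 * phi (uu b c t w) ^ 2 / (b - t)
      ≤ C ^ 2 * Real.exp (-(1 / (b - t)) * (w - c) ^ 2) / (b - t) :=
        div_le_div_of_nonneg_right h4 hτ.le
    _ = _ := by ring

theorem gauss_shift_aux (τ c : ℝ) (hτ : 0 < τ) (A : ℝ) (hA : 0 ≤ A) :
    ∫⁻ x : ℝ, ENNReal.ofReal (A * Real.exp (-(1 / τ) * (x - c) ^ 2)) =
      ENNReal.ofReal (A * √(Real.pi * τ)) := by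
  have hi : Integrable (fun x : ℝ => A * Real.exp (-(1 / τ) * (x - c) ^ 2)) :=
    ((integrable_exp_neg_mul_sq (by positivity : 0 < 1 / τ)).comp_sub_right c).const_mul A
  rw [← ofReal_integral_eq_lintegral_ofReal hi (Eventually.of_forall fun x => by positivity)]
  congr 1
  rw [integral_const_mul]
  have := integral_sub_right_eq_self (μ := (volume : Measure ℝ))
    (fun x : ℝ => Real.exp (-(1 / τ) * x ^ 2)) c
  rw [this, integral_gaussian]
  congr 2
  field_simp

theorem sqrt_int_aux (K b' b : ℝ) (hK : 0 ≤ K) (hb : b' ≤ b) :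
    ∫⁻ r in Icc b' b, ENNReal.ofReal (K / √(b - r)) = ENNReal.ofReal (2 * K * √(b - b')) := by
  have hint : IntervalIntegrable (fun x : ℝ => x ^ (-(1/2) : ℝ)) volume 0 (b - b') :=
    intervalIntegral.intervalIntegrable_rpow' (by norm_num)
  have hint2 : IntervalIntegrable (fun r : ℝ => (b - r) ^ (-(1/2) : ℝ)) volume b' b := by
    have := (hint.comp_sub_left b).symm
    simpa using this
  have hion : IntegrableOn (fun r : ℝ => K * (b - r) ^ (-(1/2) : ℝ)) (Icc b' b) := by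
    rw [integrableOn_Icc_iff_integrableOn_Ioc]
    have := (intervalIntegrable_iff_integrableOn_Ioc_of_le hb).1 hint2
    exact this.const_mul K
  have h1 : ∫⁻ r in Icc b' b, ENNReal.ofReal (K / √(b - r)) =
      ∫⁻ r in Icc b' b, ENNReal.ofReal (K * (b - r) ^ (-(1/2) : ℝ)) := by
    apply setLIntegral_congr_fun measurableSet_Icc
    intro r hr
    have hr0 : 0 ≤ b - r := by linarith [hr.2]
    simp only
    rw [Real.rpow_neg hr0, Real.sqrt_eq_rpow, div_eq_mul_inv]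
  have hnn : 0 ≤ᵐ[volume.restrict (Icc b' b)] fun r : ℝ => K * (b - r) ^ (-(1/2) : ℝ) := by
    filter_upwards [ae_restrict_mem measurableSet_Icc] with r hr
    have hr0 : 0 ≤ b - r := by linarith [hr.2]
    exact mul_nonneg hK (Real.rpow_nonneg hr0 _)
  rw [h1, ← ofReal_integral_eq_lintegral_ofReal hion hnn, integral_Icc_eq_integral_Ioc,
    ← intervalIntegral.integral_of_le hb, intervalIntegral.integral_const_mul,
    intervalIntegral.integral_comp_sub_left (fun x : ℝ => x ^ (-(1/2) : ℝ)) b,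
    integral_rpow (Or.inl (by norm_num)), sub_self, Real.sqrt_eq_rpow,
    Real.zero_rpow (by norm_num)]
  congr 1
  have e : (-(1/2) + 1 : ℝ) = 1 / 2 := by norm_num
  rw [e]
  ring

theorem zz_gen_aux {Ω : Type*} [MeasurableSpace Ω] (W : ℝ → Ω → ℝ) (G1 : ℝ → ℝ) (a b c t : ℝ)
    (hfd : Measurable (fun p : ℝ × ℝ => fd G1 b c p.1 p.2))
    (hc : ∀ ω, Continuous (fun s => W s ω)) (hWm : ∀ s, 0 ≤ s → s ≤ t → Measurable (W s))
    (hWa : Measurable (W a)) :
    Measurable (fun p : Icc (0:ℝ) t × Ω => ZZ W G1 a b c p.1 p.2) := by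
  have hu : Measurable (Function.uncurry (fun (s : Icc (0:ℝ) t) (ω : Ω) => W s ω)) := by
    apply measurable_uncurry_of_continuous_of_measurable
    · intro ω
      exact (hc ω).comp continuous_subtype_val
    · intro s
      exact hWm s s.2.1 s.2.2
  have h1 : Measurable (fun p : Icc (0:ℝ) t × Ω => ((p.1:ℝ))) :=
    measurable_subtype_coe.comp measurable_fst
  have h2 : Measurable (fun p : Icc (0:ℝ) t × Ω => W a p.2) := hWa.comp measurable_snd
  have hu' : Measurable (fun p : Icc (0:ℝ) t × Ω => W p.1 p.2) := hu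
  have hd : Measurable (fun p : Icc (0:ℝ) t × Ω => W p.1 p.2 - W a p.2) := hu'.sub h2
  have h4 : Measurable (fun p : Icc (0:ℝ) t × Ω => ((p.1:ℝ), W p.1 p.2 - W a p.2)) :=
    h1.prodMk hd
  have h3 : Measurable ((fun q : ℝ × ℝ => fd G1 b c q.1 q.2) ∘
      (fun p : Icc (0:ℝ) t × Ω => ((p.1:ℝ), W p.1 p.2 - W a p.2))) := hfd.comp h4
  have hs1 : MeasurableSet {p : Icc (0:ℝ) t × Ω | a < (p.1:ℝ)} :=
    measurableSet_lt measurable_const h1
  have hs2 : MeasurableSet {p : Icc (0:ℝ) t × Ω | (p.1:ℝ) < b} :=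
    measurableSet_lt h1 measurable_const
  have e : (fun p : Icc (0:ℝ) t × Ω => ZZ W G1 a b c p.1 p.2) =
      ({p : Icc (0:ℝ) t × Ω | a < (p.1:ℝ)} ∩ {p : Icc (0:ℝ) t × Ω | (p.1:ℝ) < b}).indicator
        ((fun q : ℝ × ℝ => fd G1 b c q.1 q.2) ∘
      (fun p : Icc (0:ℝ) t × Ω => ((p.1:ℝ), W p.1 p.2 - W a p.2))) := by
    funext p
    unfold ZZ
    by_cases hp : a < (p.1:ℝ) ∧ (p.1:ℝ) < b
    · rw [if_pos hp, indicator_of_mem (show p ∈ _ ∩ _ from hp), Function.comp_apply]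
    · rw [if_neg hp, indicator_of_notMem (show p ∉ _ ∩ _ from hp)]
  rw [e]
  exact h3.indicator (hs1.inter hs2)

end Aux9737

/-! ## TARGETS: prove these (statements must not be changed; helper lemmas are welcome) -/

section M

variable {Ω : Type*} [mΩ : MeasurableSpace Ω] (P : Measure Ω) [IsProbabilityMeasure P] (F : ℝ → MeasurableSpace Ω) (T : ℝ) (W : ℝ → Ω → ℝ)

theorem fd_l2 (hW : FBM P F T W) (g : ℝ) (G G1 : ℝ → ℝ) (hG : ODE g G G1) (a b c : ℝ)
    (ha : 0 ≤ a) (hab : a < b) (hbT : b ≤ T) :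
    ∃ K : ℝ, 0 ≤ K ∧ ∀ t ∈ Ico ((a + b) / 2) b,
      ∫⁻ ω, ENNReal.ofReal ((fd G1 b c t (W t ω - W a ω)) ^ 2) ∂P ≤ ENNReal.ofReal (K / √(b - t)) := by
  obtain ⟨C, hC0, hC, -⟩ := F_bd g G G1 hG
  refine ⟨C ^ 2 / √(b - a), by positivity, fun t ht => ?_⟩
  have ht1 := ht.1
  have htb := ht.2
  have hat : a < t := by linarith
  have hτ : 0 < b - t := by linarith
  have hba : 0 < b - a := by linarith
  have hvr : (((t - a).toNNReal : ℝ≥0) : ℝ) = t - a := Real.coe_toNNReal _ (by linarith)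
  have hlaw := hW.law a t ha hat.le (by linarith)
  generalize (t - a).toNNReal = v at hvr hlaw
  have hv0 : v ≠ 0 := by
    intro h
    rw [h] at hvr
    simp only [NNReal.coe_zero] at hvr
    linarith
  have hfm : Measurable (fun x : ℝ => ENNReal.ofReal ((fd G1 b c t x) ^ 2)) := by
    have h01 : Measurable (fun x : ℝ => ((t:ℝ), x)) := measurable_const.prodMk measurable_id'
    have h00 : Measurable ((fun q : ℝ × ℝ => fd G1 b c q.1 q.2) ∘
      (fun x : ℝ => ((t:ℝ), x))) := (fd_meas g G G1 hG b c).comp h01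
    have h0 : Measurable (fun x : ℝ => fd G1 b c t x) := h00
    exact (h0.pow_const 2).ennreal_ofReal
  have hWm : Measurable (fun ω => W t ω - W a ω) :=
    ((hW.adap t (by linarith)).mono (hW.le t) le_rfl).sub
      ((hW.adap a ha).mono (hW.le a) le_rfl)
  have h1 : ∫⁻ ω, ENNReal.ofReal ((fd G1 b c t (W t ω - W a ω)) ^ 2) ∂P =
      ∫⁻ x, ENNReal.ofReal ((fd G1 b c t x) ^ 2) ∂(gaussianReal 0 v) := by
    rw [← hlaw, lintegral_map hfm hWm]
  rw [h1, gaussianReal_of_var_ne_zero _ hv0,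
    lintegral_withDensity_eq_lintegral_mul _ (measurable_gaussianPDF _ _) hfm]
  have h2 : ∀ x, (gaussianPDF 0 v * fun x => ENNReal.ofReal ((fd G1 b c t x) ^ 2)) x ≤
      ENNReal.ofReal ((√(Real.pi * (b - a)))⁻¹ * (C ^ 2 / (b - t)) *
        Real.exp (-(1 / (b - t)) * (x - c) ^ 2)) := by
    intro x
    rw [Pi.mul_apply, gaussianPDF, ← ENNReal.ofReal_mul (gaussianPDFReal_nonneg _ _ _)]
    apply ENNReal.ofReal_le_ofReal
    rw [mul_assoc]
    apply mul_le_mul _ (fd_sq_le_aux G1 C (fun x hx => (hC x hx).2) b c t x htb) (sq_nonneg _)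
      (by positivity)
    rw [gaussianPDFReal]
    have hexp : Real.exp (-(x - 0) ^ 2 / (2 * v)) ≤ 1 := by
      rw [Real.exp_le_one_iff]
      have : 0 ≤ (x - 0) ^ 2 / (2 * (v:ℝ)) := by positivity
      have e : -(x - 0) ^ 2 / (2 * (v:ℝ)) = -((x - 0) ^ 2 / (2 * (v:ℝ))) := by ring
      rw [e]
      linarith
    calc (√(2 * Real.pi * v))⁻¹ * Real.exp (-(x - 0) ^ 2 / (2 * v))
        ≤ (√(2 * Real.pi * v))⁻¹ * 1 := mul_le_mul_of_nonneg_left hexp (by positivity)
      _ ≤ (√(Real.pi * (b - a)))⁻¹ := by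
        rw [mul_one]
        apply inv_anti₀ (by positivity)
        apply Real.sqrt_le_sqrt
        rw [hvr]
        nlinarith [Real.pi_pos, ht.1]
  refine (lintegral_mono h2).trans ?_
  rw [gauss_shift_aux (b - t) c hτ _ (by positivity)]
  apply le_of_eq
  congr 1
  rw [Real.sqrt_mul Real.pi_pos.le, Real.sqrt_mul Real.pi_pos.le]
  have e1 : C ^ 2 / (b - t) = C ^ 2 / (√(b - t)) ^ 2 := by rw [Real.sq_sqrt hτ.le]
  have e2 : √(b - t) ≠ 0 := (Real.sqrt_pos.2 hτ).ne'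
  have e3 : √(b - a) ≠ 0 := (Real.sqrt_pos.2 hba).ne'
  have e4 : √Real.pi ≠ 0 := (Real.sqrt_pos.2 Real.pi_pos).ne'
  rw [e1]
  field_simp

theorem ZZ_meas (hW : FBM P F T W) (g : ℝ) (G G1 : ℝ → ℝ) (hG : ODE g G G1) (a b c : ℝ)
    (ha : 0 ≤ a) (hab : a < b) (hbT : b ≤ T) (t : ℝ) :
    Measurable[(inferInstance : MeasurableSpace (Icc (0:ℝ) t)).prod (F t)]
      (fun p : Icc (0:ℝ) t × Ω => ZZ W G1 a b c p.1 p.2) := by
  by_cases hat : a ≤ t
  · exact @zz_gen_aux Ω (F t) W G1 a b c t (fd_meas g G G1 hG b c) hW.cont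
      (fun s hs hst => (hW.adap s hs).mono (hW.mono hst) le_rfl)
      ((hW.adap a ha).mono (hW.mono hat) le_rfl)
  · have : (fun p : Icc (0:ℝ) t × Ω => ZZ W G1 a b c p.1 p.2) = fun _ => 0 := by
      funext p
      unfold ZZ
      rw [if_neg]
      rintro ⟨h, _⟩
      have := p.1.2.2
      push Not at hat
      linarith
    rw [this]
    exact @measurable_const _ _ _ _ _

theorem ZZ_meas_prod (hW : FBM P F T W) (g : ℝ) (G G1 : ℝ → ℝ) (hG : ODE g G G1) (a b c : ℝ)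
    (ha : 0 ≤ a) (hab : a < b) (hbT : b ≤ T) :
    Measurable (fun p : ℝ × Ω => ZZ W G1 a b c p.1 p.2) := by
  have hu : Measurable (Function.uncurry (fun (s : ℝ) (ω : Ω) => W (max s 0) ω)) := by
    apply measurable_uncurry_of_continuous_of_measurable
    · intro ω
      exact (hW.cont ω).comp (by fun_prop)
    · intro s
      exact (hW.adap _ (le_max_right _ _)).mono (hW.le _) le_rfl
  have e : (fun p : ℝ × Ω => ZZ W G1 a b c p.1 p.2) =
      ({p : ℝ × Ω | a < p.1} ∩ {p : ℝ × Ω | p.1 < b}).indicator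
        ((fun q : ℝ × ℝ => fd G1 b c q.1 q.2) ∘
          (fun p : ℝ × Ω => (p.1, W (max p.1 0) p.2 - W a p.2))) := by
    funext p
    unfold ZZ
    by_cases hp : a < p.1 ∧ p.1 < b
    · rw [if_pos hp, indicator_of_mem (show p ∈ _ ∩ _ from hp), Function.comp_apply]
      simp only
      rw [max_eq_left (by linarith [hp.1])]
    · rw [if_neg hp, indicator_of_notMem (show p ∉ _ ∩ _ from hp)]
  rw [e]
  have hWa : Measurable (W a) := (hW.adap a ha).mono (hW.le a) le_rfl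
  have h2 : Measurable (fun p : ℝ × Ω => W a p.2) := hWa.comp measurable_snd
  have hu' : Measurable (fun p : ℝ × Ω => W (max p.1 0) p.2) := hu
  have hd : Measurable (fun p : ℝ × Ω => W (max p.1 0) p.2 - W a p.2) := hu'.sub h2
  have h4 : Measurable (fun p : ℝ × Ω => (p.1, W (max p.1 0) p.2 - W a p.2)) :=
    measurable_fst.prodMk hd
  have h3 : Measurable ((fun q : ℝ × ℝ => fd G1 b c q.1 q.2) ∘
          (fun p : ℝ × Ω => (p.1, W (max p.1 0) p.2 - W a p.2))) :=
    (fd_meas g G G1 hG b c).comp h4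
  have hs1 : MeasurableSet {p : ℝ × Ω | a < p.1} :=
    measurableSet_lt measurable_const measurable_fst
  have hs2 : MeasurableSet {p : ℝ × Ω | p.1 < b} :=
    measurableSet_lt measurable_fst measurable_const
  exact h3.indicator (hs1.inter hs2)

theorem ZZ_l2 (hW : FBM P F T W) (g : ℝ) (G G1 : ℝ → ℝ) (hG : ODE g G G1) (a b c : ℝ)
    (ha : 0 ≤ a) (hab : a < b) (hbT : b ≤ T) :
    ∫⁻ ω, (∫⁻ r, ENNReal.ofReal ((ZZ W G1 a b c r ω) ^ 2)) ∂P < ⊤ ∧
    ∀ ε > 0, ∃ b₁ ∈ Ioo a b, ∀ b' ∈ Ico b₁ b,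
      ∫⁻ ω, (∫⁻ r in Icc b' b, ENNReal.ofReal ((ZZ W G1 a b c r ω) ^ 2)) ∂P ≤ ENNReal.ofReal ε := by
  obtain ⟨K, hK, hKb⟩ := fd_l2 P F T W hW g G G1 hG a b c ha hab hbT
  obtain ⟨C, hC, hCb⟩ := fd_bd g G G1 hG a ((a + b) / 2) b c (by linarith)
  have hmeas : Measurable (fun p : Ω × ℝ => ENNReal.ofReal ((ZZ W G1 a b c p.2 p.1) ^ 2)) := by
    have h0 := ZZ_meas_prod P F T W hW g G G1 hG a b c ha hab hbT
    have h1 : Measurable (fun p : Ω × ℝ => ZZ W G1 a b c p.2 p.1) := h0.comp measurable_swap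
    exact (h1.pow_const 2).ennreal_ofReal
  -- bounds for the inner integrals
  have hz1 : ∀ r, (r ≤ a ∨ b ≤ r) → ∫⁻ ω, ENNReal.ofReal ((ZZ W G1 a b c r ω) ^ 2) ∂P = 0 := by
    intro r hr
    have : ∀ ω, ENNReal.ofReal ((ZZ W G1 a b c r ω) ^ 2) = 0 := by
      intro ω
      unfold ZZ
      rw [if_neg]
      · simp
      · rintro ⟨h1, h2⟩
        rcases hr with h | h <;> linarith
    simp [this]
  have hz2 : ∀ r ∈ Icc ((a + b) / 2) b, ∫⁻ ω, ENNReal.ofReal ((ZZ W G1 a b c r ω) ^ 2) ∂P ≤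
      ENNReal.ofReal (K / √(b - r)) := by
    intro r hr
    rcases lt_or_eq_of_le hr.2 with hlt | heq
    · refine le_trans (le_of_eq ?_) (hKb r ⟨hr.1, hlt⟩)
      apply lintegral_congr
      intro ω
      unfold ZZ
      rw [if_pos ⟨by linarith [hr.1], hlt⟩]
    · rw [hz1 r (Or.inr heq.ge)]
      exact zero_le
  have hz3 : ∀ r ∈ Icc a ((a + b) / 2), ∫⁻ ω, ENNReal.ofReal ((ZZ W G1 a b c r ω) ^ 2) ∂P ≤
      ENNReal.ofReal (C ^ 2) := by
    intro r hr
    have h1 : ∀ ω, ENNReal.ofReal ((ZZ W G1 a b c r ω) ^ 2) ≤ ENNReal.ofReal (C ^ 2) := by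
      intro ω
      apply ENNReal.ofReal_le_ofReal
      unfold ZZ
      split_ifs with h
      · have h0 := abs_le.1 (hCb r hr (W r ω - W a ω)).1
        exact sq_le_sq' h0.1 h0.2
      · rw [zero_pow two_ne_zero]
        positivity
    calc ∫⁻ ω, ENNReal.ofReal ((ZZ W G1 a b c r ω) ^ 2) ∂P ≤ ∫⁻ _, ENNReal.ofReal (C ^ 2) ∂P :=
          lintegral_mono h1
      _ = ENNReal.ofReal (C ^ 2) := by simp
  constructor
  · rw [lintegral_lintegral_swap hmeas.aemeasurable]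
    have hb : ∀ r, ∫⁻ ω, ENNReal.ofReal ((ZZ W G1 a b c r ω) ^ 2) ∂P ≤
        (Icc a ((a + b) / 2)).indicator (fun _ => ENNReal.ofReal (C ^ 2)) r +
        (Icc ((a + b) / 2) b).indicator (fun r => ENNReal.ofReal (K / √(b - r))) r := by
      intro r
      by_cases h1 : r ∈ Icc a ((a + b) / 2)
      · rw [indicator_of_mem h1]
        exact (hz3 r h1).trans le_self_add
      · by_cases h2 : r ∈ Icc ((a + b) / 2) b
        · rw [indicator_of_mem h2]
          exact (hz2 r h2).trans le_add_self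
        · rw [hz1 r]
          · exact zero_le
          · rw [mem_Icc] at h1 h2
            by_contra hcon
            push Not at hcon
            rcases le_total r ((a + b) / 2) with h3 | h3
            · exact h1 ⟨hcon.1.le, h3⟩
            · exact h2 ⟨h3, hcon.2.le⟩
    refine lt_of_le_of_lt (lintegral_mono hb) ?_
    rw [lintegral_add_left (measurable_const.indicator measurableSet_Icc),
      lintegral_indicator_const measurableSet_Icc, lintegral_indicator measurableSet_Icc,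
      sqrt_int_aux K _ b hK (by linarith)]
    exact ENNReal.add_lt_top.2 ⟨ENNReal.mul_lt_top ENNReal.ofReal_lt_top measure_Icc_lt_top,
      ENNReal.ofReal_lt_top⟩
  · intro ε hε
    have hK1 : 0 < 2 * K + 1 := by linarith
    have hδ : 0 < (ε / (2 * K + 1)) ^ 2 := by positivity
    refine ⟨max ((a + b) / 2) (b - (ε / (2 * K + 1)) ^ 2),
      ⟨lt_max_of_lt_left (by linarith), max_lt (by linarith) (by linarith)⟩, fun b' hb' => ?_⟩
    have hb1 : (a + b) / 2 ≤ b' := (le_max_left _ _).trans hb'.1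
    have hb2 : b - (ε / (2 * K + 1)) ^ 2 ≤ b' := (le_max_right _ _).trans hb'.1
    rw [lintegral_lintegral_swap hmeas.aemeasurable]
    calc ∫⁻ r in Icc b' b, ∫⁻ ω, ENNReal.ofReal ((ZZ W G1 a b c r ω) ^ 2) ∂P
        ≤ ∫⁻ r in Icc b' b, ENNReal.ofReal (K / √(b - r)) := by
          apply setLIntegral_mono' measurableSet_Icc
          intro r hr
          exact hz2 r ⟨hb1.trans hr.1, hr.2⟩
      _ = ENNReal.ofReal (2 * K * √(b - b')) := sqrt_int_aux K b' b hK hb'.2.le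
      _ ≤ ENNReal.ofReal ε := by
          apply ENNReal.ofReal_le_ofReal
          have h1 : √(b - b') ≤ ε / (2 * K + 1) := by
            rw [← Real.sqrt_sq (by positivity : 0 ≤ ε / (2 * K + 1))]
            exact Real.sqrt_le_sqrt (by linarith)
          calc 2 * K * √(b - b') ≤ (2 * K + 1) * (ε / (2 * K + 1)) := by
                apply mul_le_mul (by linarith) h1 (Real.sqrt_nonneg _) hK1.le
            _ = ε := by field_simp

end M

end Pool.Agent.Helper41.BS
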