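import Pool.Agent.Helper41.BS.Defs
import Pool.Agent.Helper41.BS.TayB
import Pool.Agent.Helper41.BS.Mom

set_option autoImplicit false

open scoped ENNReal NNReal Topology
open MeasureTheory ProbabilityTheory Set Filter

namespace Pool.Agent.Helper41.BS


/-! ## TARGETS: prove these (statements must not be changed; helper lemmas are welcome) -/

section M

variable {Ω : Type*} [mΩ : MeasurableSpace Ω] (P : Measure Ω) [IsProbabilityMeasure P] (F : ℝ → MeasurableSpace Ω) (T : ℝ) (W : ℝ → Ω → ℝ)

theorem pp_meas (hW : FBM P F T W) (a b c : ℝ) (ha : 0 ≤ a) (hab : a < b) (hbT : b ≤ T) (t : ℝ) :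
    Measurable[F (max a t)] (pp W a b c t) ∧ (t ≤ a → ∀ ω, pp W a b c t ω = Phi (uu b c a 0)) := by
  have hWa : Measurable[F (max a t)] (W a) :=
    (hW.adap a ha).mono (hW.mono (le_max_left _ _)) le_rfl
  refine ⟨?_, ?_⟩
  · by_cases htb : t < b
    · have hfun : pp W a b c t = fun ω => Phi (uu b c (max t a) (W (max t a) ω - W a ω)) := by
        funext ω
        unfold pp
        rw [if_pos htb]
      rw [hfun]
      have hWs : Measurable[F (max a t)] (W (max t a)) := by
        rw [max_comm t a]
        exact hW.adap (max a t) (ha.trans (le_max_left _ _))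
      unfold uu
      exact Phi_cont.measurable.comp (((hWs.sub hWa).sub_const c).div_const _)
    · have hfun : pp W a b c t = fun ω => if c < W b ω - W a ω then 1 else 0 := by
        funext ω
        unfold pp
        rw [if_neg htb]
      rw [hfun]
      push Not at htb
      have hWb : Measurable[F (max a t)] (W b) :=
        (hW.adap b (ha.trans hab.le)).mono (hW.mono (htb.trans (le_max_right _ _))) le_rfl
      exact Measurable.ite (measurableSet_lt measurable_const (hWb.sub hWa)) measurable_const
        measurable_const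
  · intro hta ω
    unfold pp
    rw [if_pos (lt_of_le_of_lt hta hab), max_eq_right hta, sub_self]

theorem pp_mem (a b c t : ℝ) (ω : Ω) : pp W a b c t ω ∈ Icc (0:ℝ) 1 := by
  unfold pp
  split_ifs
  · exact Phi_mem _
  · simp
  · simp

theorem pp_cont (hW : FBM P F T W) (a b c : ℝ) (hab : a < b) (ω : Ω) (hω : W b ω - W a ω ≠ c) :
    Continuous (fun t => pp W a b c t ω) := by
  have hw : Continuous (fun t => W t ω) := hW.cont ω
  have hNc : Continuous (fun t => W (max t a) ω - W a ω - c) :=
    ((hw.comp (continuous_id.max continuous_const)).sub continuous_const).sub continuous_const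
  have hDc : Continuous (fun t => √(b - max t a)) :=
    (continuous_const.sub (continuous_id.max continuous_const)).sqrt
  have hlt : ∀ t, t < b → pp W a b c t ω =
      Phi ((W (max t a) ω - W a ω - c) / √(b - max t a)) := by
    intro t ht
    unfold pp uu
    rw [if_pos ht]
  have hge : ∀ t, b ≤ t → pp W a b c t ω = if c < W b ω - W a ω then 1 else 0 := by
    intro t ht
    unfold pp
    rw [if_neg (not_lt.2 ht)]
  rw [continuous_iff_continuousAt]
  intro t0
  rcases lt_trichotomy t0 b with h | h | h
  · have h1 : ContinuousAt (fun t => Phi ((W (max t a) ω - W a ω - c) / √(b - max t a))) t0 := by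
      apply Phi_cont.continuousAt.comp
      apply hNc.continuousAt.div hDc.continuousAt
      exact (Real.sqrt_pos.2 (sub_pos.2 (max_lt h hab))).ne'
    apply h1.congr
    filter_upwards [gt_mem_nhds h] with t ht
    exact (hlt t ht).symm
  · subst h
    have hL : pp W a t0 c t0 ω = if c < W t0 ω - W a ω then 1 else 0 := hge t0 le_rfl
    show Tendsto (fun t => pp W a t0 c t ω) (𝓝 t0) (𝓝 (pp W a t0 c t0 ω))
    rw [← nhdsLT_sup_nhdsGE, tendsto_sup]
    constructor
    · -- from the left
      have hN : Tendsto (fun t => W (max t a) ω - W a ω - c) (𝓝[<] t0)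
          (𝓝 (W t0 ω - W a ω - c)) := by
        have h1 := hNc.tendsto t0
        rw [max_eq_left hab.le] at h1
        exact h1.mono_left nhdsWithin_le_nhds
      have hD : Tendsto (fun t => √(t0 - max t a)) (𝓝[<] t0) (𝓝[>] 0) := by
        rw [tendsto_nhdsWithin_iff]
        constructor
        · have h1 := hDc.tendsto t0
          rw [max_eq_left hab.le, sub_self, Real.sqrt_zero] at h1
          exact h1.mono_left nhdsWithin_le_nhds
        · filter_upwards [self_mem_nhdsWithin] with t ht
          exact Real.sqrt_pos.2 (sub_pos.2 (max_lt ht hab))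
      have hDi : Tendsto (fun t => (√(t0 - max t a))⁻¹) (𝓝[<] t0) atTop :=
        tendsto_inv_nhdsGT_zero.comp hD
      have hlim : Tendsto (fun t => Phi ((W (max t a) ω - W a ω - c) / √(t0 - max t a)))
          (𝓝[<] t0) (𝓝 (if c < W t0 ω - W a ω then 1 else 0)) := by
        rcases lt_or_gt_of_ne hω with h2 | h2
        · rw [if_neg (not_lt.2 h2.le)]
          apply Phi_bot.comp
          have h3 := Filter.Tendsto.neg_mul_atTop (by linarith : W t0 ω - W a ω - c < 0) hN hDi
          simpa [div_eq_mul_inv] using h3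
        · rw [if_pos h2]
          apply Phi_top.comp
          have h3 := Filter.Tendsto.pos_mul_atTop (by linarith : 0 < W t0 ω - W a ω - c) hN hDi
          simpa [div_eq_mul_inv] using h3
      rw [hL]
      apply hlim.congr'
      filter_upwards [self_mem_nhdsWithin] with t ht
      exact (hlt t ht).symm
    · rw [hL]
      apply tendsto_const_nhds.congr'
      filter_upwards [self_mem_nhdsWithin] with t ht
      exact (hge t ht).symm
  · apply (continuousAt_const (y := (if c < W b ω - W a ω then (1:ℝ) else 0))).congr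
    filter_upwards [lt_mem_nhds h] with t ht
    exact (hge t ht.le).symm

theorem pp_ae (hW : FBM P F T W) (a b c : ℝ) (ha : 0 ≤ a) (hab : a < b) (hbT : b ≤ T) :
    ∀ᵐ ω ∂P, W b ω - W a ω ≠ c := by
  have hm : Measurable (fun ω => W b ω - W a ω) :=
    ((hW.adap b (ha.trans hab.le)).mono (hW.le b) le_rfl).sub
      ((hW.adap a ha).mono (hW.le a) le_rfl)
  have hlaw := hW.law a b ha hab.le hbT
  have hv : (b - a).toNNReal ≠ 0 := by
    rw [Ne, Real.toNNReal_eq_zero, not_le]
    linarith
  have hno := nullSingletonClass_gaussianReal (μ := 0) hv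
  have h1 : (P.map (fun ω => W b ω - W a ω)) {c} = 0 := by
    rw [hlaw]
    exact measure_singleton c
  rw [Measure.map_apply hm (measurableSet_singleton c)] at h1
  rw [ae_iff]
  convert h1 using 2
  ext ω
  simp

theorem pp_prob (hW : FBM P F T W) (a b c : ℝ) (ha : 0 ≤ a) (hab : a < b) (hbT : b ≤ T)
    (A : Set Ω) (hA : MeasurableSet[F a] A) :
    P.real (A ∩ {ω | c < W b ω - W a ω}) = P.real A * Phi (uu b c a 0) := by
  have hm : Measurable (fun ω => W b ω - W a ω) :=
    ((hW.adap b (ha.trans hab.le)).mono (hW.le b) le_rfl).sub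
      ((hW.adap a ha).mono (hW.le a) le_rfl)
  have hlaw := hW.law a b ha hab.le hbT
  have hv : (b - a).toNNReal ≠ 0 := by
    rw [Ne, Real.toNNReal_eq_zero, not_le]
    linarith
  have hind := (Indep_iff _ _ _).1 (hW.indep a b ha hab.le hbT) {ω | c < W b ω - W a ω} A
    ⟨Ioi c, measurableSet_Ioi, rfl⟩ hA
  have h1 : P.real {ω | c < W b ω - W a ω} = Phi (uu b c a 0) := by
    have h2 := Phi_law (b - a).toNNReal hv c
    rw [← hlaw] at h2
    rw [measureReal_def, Measure.map_apply hm measurableSet_Ioi] at h2
    rw [measureReal_def]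
    rw [Real.coe_toNNReal _ (by linarith)] at h2
    unfold uu
    rw [zero_sub]
    exact h2
  rw [measureReal_def, Set.inter_comm, hind, ENNReal.toReal_mul, ← measureReal_def,
    ← measureReal_def, h1]
  ring

theorem pp_l1 (hW : FBM P F T W) (g : ℝ) (G G1 : ℝ → ℝ) (hG : ODE g G G1) (a b c : ℝ)
    (ha : 0 ≤ a) (hab : a < b) (hbT : b ≤ T) (ε : ℝ) (hε : 0 < ε) :
    ∃ b₁ ∈ Ioo a b, ∀ b' ∈ Icc b₁ b, ∀ t ∈ Icc b' b,
      ∫⁻ ω, ENNReal.ofReal |G (pp W a b c t ω) - G (pp W a b c b' ω)| ∂P ≤ ENNReal.ofReal ε := by
  obtain ⟨C, hC0, -, hCL⟩ := F_bd g G G1 hG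
  have hppm : ∀ s, Measurable (pp W a b c s) := fun s =>
    (pp_meas P F T W hW a b c ha hab hbT s).1.mono (hW.le _) le_rfl
  have hlim : Tendsto (fun s => ∫⁻ ω, ENNReal.ofReal (C * |pp W a b c s ω - pp W a b c b ω|) ∂P)
      (𝓝 b) (𝓝 0) := by
    have h1 := tendsto_lintegral_filter_of_dominated_convergence (μ := P) (l := 𝓝 b)
      (F := fun s ω => ENNReal.ofReal (C * |pp W a b c s ω - pp W a b c b ω|))
      (f := fun _ => 0) (fun _ => ENNReal.ofReal C) ?_ ?_ ?_ ?_
    · simpa using h1
    · apply Eventually.of_forall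
      intro s
      have h2 := hppm s
      have h3 := hppm b
      fun_prop
    · apply Eventually.of_forall
      intro s
      apply ae_of_all
      intro ω
      apply ENNReal.ofReal_le_ofReal
      have h2 := pp_mem W a b c s ω
      have h3 := pp_mem W a b c b ω
      have h4 : |pp W a b c s ω - pp W a b c b ω| ≤ 1 := by
        rw [abs_le]
        constructor <;> linarith [h2.1, h2.2, h3.1, h3.2]
      calc C * |pp W a b c s ω - pp W a b c b ω| ≤ C * 1 := mul_le_mul_of_nonneg_left h4 hC0
        _ = C := mul_one C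
    · rw [lintegral_const]
      exact ENNReal.mul_ne_top ENNReal.ofReal_ne_top (measure_ne_top _ _)
    · filter_upwards [pp_ae P F T W hW a b c ha hab hbT] with ω hω
      have h2 := (pp_cont P F T W hW a b c hab ω hω).tendsto b
      have h3 : Tendsto (fun s => C * |pp W a b c s ω - pp W a b c b ω|) (𝓝 b)
          (𝓝 (C * |pp W a b c b ω - pp W a b c b ω|)) :=
        ((h2.sub tendsto_const_nhds).abs).const_mul C
      rw [sub_self, abs_zero, mul_zero] at h3
      have h4 := (ENNReal.continuous_ofReal.tendsto 0).comp h3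
      rw [ENNReal.ofReal_zero] at h4
      exact h4
  have hε2 : (0 : ℝ≥0∞) < ENNReal.ofReal (ε / 2) := ENNReal.ofReal_pos.2 (by linarith)
  have hev := hlim.eventually (ge_mem_nhds hε2)
  obtain ⟨δ, hδ, hball⟩ := Metric.eventually_nhds_iff.1 hev
  refine ⟨max ((a + b) / 2) (b - δ / 2), ⟨?_, ?_⟩, ?_⟩
  · apply lt_max_of_lt_left
    linarith
  · apply max_lt <;> linarith
  · have hkey : ∀ s, max ((a + b) / 2) (b - δ / 2) ≤ s → s ≤ b →
        ∫⁻ ω, ENNReal.ofReal (C * |pp W a b c s ω - pp W a b c b ω|) ∂P ≤
          ENNReal.ofReal (ε / 2) := by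
      intro s hs hsb
      apply hball
      rw [Real.dist_eq, abs_lt]
      have := (le_max_right ((a + b) / 2) (b - δ / 2)).trans hs
      constructor <;> linarith
    intro b' hb' t ht
    have k1 := hkey b' hb'.1 hb'.2
    have k2 := hkey t (hb'.1.trans ht.1) ht.2
    calc ∫⁻ ω, ENNReal.ofReal |G (pp W a b c t ω) - G (pp W a b c b' ω)| ∂P
        ≤ ∫⁻ ω, (ENNReal.ofReal (C * |pp W a b c t ω - pp W a b c b ω|) +
            ENNReal.ofReal (C * |pp W a b c b' ω - pp W a b c b ω|)) ∂P := by
          apply lintegral_mono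
          intro ω
          simp only
          rw [← ENNReal.ofReal_add (by positivity) (by positivity)]
          apply ENNReal.ofReal_le_ofReal
          refine (hCL _ (pp_mem W a b c t ω) _ (pp_mem W a b c b' ω)).trans ?_
          rw [← mul_add]
          apply mul_le_mul_of_nonneg_left _ hC0
          have h5 := abs_sub_le (pp W a b c t ω) (pp W a b c b ω) (pp W a b c b' ω)
          rw [abs_sub_comm (pp W a b c b ω) (pp W a b c b' ω)] at h5
          exact h5
      _ = ∫⁻ ω, ENNReal.ofReal (C * |pp W a b c t ω - pp W a b c b ω|) ∂P +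
            ∫⁻ ω, ENNReal.ofReal (C * |pp W a b c b' ω - pp W a b c b ω|) ∂P := by
          apply lintegral_add_left
          have h2 := hppm t
          have h3 := hppm b
          fun_prop
      _ ≤ ENNReal.ofReal (ε / 2) + ENNReal.ofReal (ε / 2) := add_le_add k2 k1
      _ = ENNReal.ofReal ε := by
          rw [← ENNReal.ofReal_add (by linarith) (by linarith)]
          congr 1
          ring

end M

end Pool.Agent.Helper41.BS
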