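import Pool.Agent.Helper41.BS.Defs
import Pool.Agent.Helper41.BS.Mom

set_option autoImplicit false

open scoped ENNReal NNReal Topology
open MeasureTheory ProbabilityTheory Set Filter

namespace Pool.Agent.Helper41.BS


/-! ## TARGETS: prove these (statements must not be changed; helper lemmas are welcome) -/

section M

variable {Ω : Type*} [mΩ : MeasurableSpace Ω] (P : Measure Ω) [IsProbabilityMeasure P] (F : ℝ → MeasurableSpace Ω) (T : ℝ) (W : ℝ → Ω → ℝ)

theorem mart_sum_aux (hW : FBM P F T W) (N : ℕ) (s : ℕ → ℝ) (hs : Monotone s) (h0 : 0 ≤ s 0)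
    (hT : s N ≤ T) (η : ℕ → Ω → ℝ) (C : ℝ) (hC : 0 ≤ C)
    (hη : ∀ k, k < N → s k < s (k + 1) → Measurable[F (s k)] (η k))
    (hb : ∀ k ω, |η k ω| ≤ C) :
    Measurable[F (s N)] (fun ω => ∑ k ∈ Finset.range N, η k ω *
      ((W (s (k + 1)) ω - W (s k) ω) ^ 2 - (s (k + 1) - s k))) ∧
    MemLp (fun ω => ∑ k ∈ Finset.range N, η k ω *
      ((W (s (k + 1)) ω - W (s k) ω) ^ 2 - (s (k + 1) - s k))) 2 P ∧
    ∫ ω, (∑ k ∈ Finset.range N, η k ω *
      ((W (s (k + 1)) ω - W (s k) ω) ^ 2 - (s (k + 1) - s k))) ^ 2 ∂P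
      ≤ 2 * C ^ 2 * ∑ k ∈ Finset.range N, (s (k + 1) - s k) ^ 2 := by
  induction N with
  | zero =>
    refine ⟨?_, ?_, ?_⟩
    · simp only [Finset.range_zero, Finset.sum_empty]
      exact @measurable_const _ _ _ (F (s 0)) _
    · simp
    · simp
  | succ N ih =>
    have hN1 : s N ≤ s (N + 1) := hs (Nat.le_succ N)
    have hNT : s N ≤ T := hN1.trans hT
    have hsN : 0 ≤ s N := h0.trans (hs (Nat.zero_le N))
    obtain ⟨i1, i2, i3⟩ := ih hNT (fun k hk => hη k (hk.trans (Nat.lt_succ_self N)))
    simp only [Finset.sum_range_succ]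
    set S : Ω → ℝ := fun ω => ∑ k ∈ Finset.range N, η k ω *
      ((W (s (k + 1)) ω - W (s k) ω) ^ 2 - (s (k + 1) - s k)) with hS
    rcases hN1.eq_or_lt with he | hlt
    · rw [← he]
      simp only [sub_self]
      have e1 : (fun ω => (∑ k ∈ Finset.range N, η k ω *
          ((W (s (k + 1)) ω - W (s k) ω) ^ 2 - (s (k + 1) - s k))) + η N ω * ((0:ℝ) ^ 2 - 0)) = S := by
        funext ω
        simp [hS]
      refine ⟨?_, ?_, ?_⟩
      · rw [e1]; exact i1
      · rw [e1]; exact i2
      · have e2 : ∀ ω, ((∑ k ∈ Finset.range N, η k ω *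
          ((W (s (k + 1)) ω - W (s k) ω) ^ 2 - (s (k + 1) - s k))) + η N ω * ((0:ℝ) ^ 2 - 0)) = S ω :=
          fun ω => congrFun e1 ω
        simp only [e2]
        simpa using i3
    · set c : ℝ := s (N + 1) - s N with hc
      set Y : Ω → ℝ := fun ω => (W (s (N + 1)) ω - W (s N) ω) ^ 2 - c with hY
      have mW1 : Measurable[F (s (N + 1))] (W (s (N + 1))) := hW.adap _ (hsN.trans hN1)
      have mW0 : Measurable[F (s N)] (W (s N)) := hW.adap _ hsN
      have mη : Measurable[F (s N)] (η N) := hη N (Nat.lt_succ_self N) hlt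
      have lm : F (s N) ≤ F (s (N + 1)) := hW.mono hN1
      have mY : Measurable[F (s (N + 1))] Y := by
        let _ := F (s (N + 1))
        have a : Measurable (W (s N)) := mW0.mono lm le_rfl
        exact ((mW1.sub a).pow_const 2).sub_const c
      have mYΩ : Measurable Y := mY.mono (hW.le _) le_rfl
      have mηΩ : Measurable (η N) := mη.mono (hW.le _) le_rfl
      have mSΩ : Measurable S := i1.mono (hW.le _) le_rfl
      have mΔ : Measurable (fun ω => W (s (N + 1)) ω - W (s N) ω) :=
        (mW1.mono (hW.le _) le_rfl).sub (mW0.mono (hW.le _) le_rfl)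
      have hYL : MemLp Y 2 P := by
        have a1 : MemLp (fun ω => (W (s (N + 1)) ω - W (s N) ω) ^ 2) 2 P := by
          rw [memLp_two_iff_integrable_sq (mΔ.pow_const 2).aestronglyMeasurable]
          refine (inc_int P F T W hW (s N) (s (N + 1)) hsN hN1 hT 4).congr (ae_of_all _ fun ω => ?_)
          simp only
          rw [← pow_mul, show (4:ℕ) = 2 * 2 from rfl, pow_mul, sq_abs, ← pow_mul]
        exact a1.sub (memLp_const c)
      have hY2 : Integrable (fun ω => Y ω ^ 2) P := hYL.integrable_sq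
      have hXL : MemLp (fun ω => η N ω * Y ω) 2 P := by
        have mX : Measurable (fun ω => η N ω * Y ω) := mηΩ.mul mYΩ
        rw [memLp_two_iff_integrable_sq mX.aestronglyMeasurable]
        refine Integrable.mono' (hY2.const_mul (C ^ 2)) ((mηΩ.mul mYΩ).pow_const 2).aestronglyMeasurable
          (ae_of_all _ fun ω => ?_)
        rw [Real.norm_eq_abs, abs_of_nonneg (sq_nonneg _), mul_pow]
        have : η N ω ^ 2 ≤ C ^ 2 := sq_le_sq' (by linarith [neg_abs_le (η N ω), hb N ω])
          ((le_abs_self _).trans (hb N ω))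
        exact mul_le_mul_of_nonneg_right this (sq_nonneg _)
      have hmom := (inc_mom P F T W hW (s N) (s (N + 1)) hsN hN1 hT)
      have hY0 : ∫ ω, Y ω ∂P = 0 := by
        have a2 : Integrable (fun ω => (W (s (N + 1)) ω - W (s N) ω) ^ 2) P := by
          refine (inc_int P F T W hW (s N) (s (N + 1)) hsN hN1 hT 2).congr (ae_of_all _ fun ω => ?_)
          simp only [sq_abs]
        rw [hY, integral_sub a2 (integrable_const c), hmom.2.1]
        simp [hc]
      have hYY : ∫ ω, Y ω ^ 2 ∂P = 2 * c ^ 2 := hmom.2.2.2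
      have hind : IndepFun Y (fun ω => S ω * η N ω) P := by
        have b1 := hW.indep (s N) (s (N + 1)) hsN hN1 hT
        have b2 : MeasurableSpace.comap Y inferInstance ≤
            MeasurableSpace.comap (fun ω => W (s (N + 1)) ω - W (s N) ω) inferInstance := by
          have : Y = (fun x : ℝ => x ^ 2 - c) ∘ (fun ω => W (s (N + 1)) ω - W (s N) ω) := rfl
          rw [this, ← MeasurableSpace.comap_comp]
          exact MeasurableSpace.comap_mono
            (((measurable_id.pow_const 2).sub_const c : Measurable (fun x : ℝ => x ^ 2 - c)).comap_le)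
        have b3 : MeasurableSpace.comap (fun ω => S ω * η N ω) inferInstance ≤ F (s N) := by
          have : Measurable[F (s N)] (fun ω => S ω * η N ω) := by
            let _ := F (s N)
            exact Measurable.mul i1 mη
          exact this.comap_le
        exact indep_of_indep_of_le_left (indep_of_indep_of_le_right b1 b3) b2
      have hcross : ∫ ω, S ω * (η N ω * Y ω) ∂P = 0 := by
        have := hind.integral_mul_eq_mul_integral mYΩ.aestronglyMeasurable
          (mSΩ.mul mηΩ).aestronglyMeasurable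
        rw [hY0, zero_mul] at this
        rw [← this]
        refine integral_congr_ae (ae_of_all _ fun ω => ?_)
        simp only [Pi.mul_apply]
        ring
      have hcrossI : Integrable (fun ω => S ω * (η N ω * Y ω)) P := i2.integrable_mul hXL
      refine ⟨?_, i2.add hXL, ?_⟩
      · let _ := F (s (N + 1))
        exact Measurable.add (i1.mono lm le_rfl) ((mη.mono lm le_rfl).mul mY)
      · have e3 : ∀ ω, (∑ k ∈ Finset.range N, η k ω *
          ((W (s (k + 1)) ω - W (s k) ω) ^ 2 - (s (k + 1) - s k)) +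
            η N ω * ((W (s (N + 1)) ω - W (s N) ω) ^ 2 - c)) ^ 2 =
            S ω ^ 2 + 2 * (S ω * (η N ω * Y ω)) + (η N ω * Y ω) ^ 2 := by
          intro ω
          simp only [hS, hY]
          ring
        simp only [e3]
        have hS2 : Integrable (fun ω => S ω ^ 2) P := i2.integrable_sq
        have hX2 : Integrable (fun ω => (η N ω * Y ω) ^ 2) P := hXL.integrable_sq
        have hS3 : Integrable (fun ω => S ω ^ 2 + 2 * (S ω * (η N ω * Y ω))) P :=
          hS2.add (hcrossI.const_mul 2)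
        rw [integral_add hS3 hX2,
          integral_add hS2 (hcrossI.const_mul 2), integral_const_mul, hcross]
        have hfin : ∫ ω, (η N ω * Y ω) ^ 2 ∂P ≤ C ^ 2 * (2 * c ^ 2) := by
          rw [← hYY, ← integral_const_mul]
          refine integral_mono hX2 (hY2.const_mul _) fun ω => ?_
          simp only
          rw [mul_pow]
          have : η N ω ^ 2 ≤ C ^ 2 := sq_le_sq' (by linarith [neg_abs_le (η N ω), hb N ω])
            ((le_abs_self _).trans (hb N ω))
          exact mul_le_mul_of_nonneg_right this (sq_nonneg _)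
        have i3' : ∫ ω, S ω ^ 2 ∂P ≤ 2 * C ^ 2 * ∑ k ∈ Finset.range N, (s (k + 1) - s k) ^ 2 := i3
        nlinarith [i3', hfin]

theorem mart_sum (hW : FBM P F T W) (N : ℕ) (s : ℕ → ℝ) (hs : Monotone s) (h0 : 0 ≤ s 0)
    (hT : s N ≤ T) (η : ℕ → Ω → ℝ) (C : ℝ) (hC : 0 ≤ C)
    (hη : ∀ k, k < N → s k < s (k + 1) → Measurable[F (s k)] (η k))
    (hb : ∀ k ω, |η k ω| ≤ C) :
    Integrable (fun ω => (∑ k ∈ Finset.range N, η k ω *
      ((W (s (k + 1)) ω - W (s k) ω) ^ 2 - (s (k + 1) - s k))) ^ 2) P ∧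
    ∫ ω, (∑ k ∈ Finset.range N, η k ω *
      ((W (s (k + 1)) ω - W (s k) ω) ^ 2 - (s (k + 1) - s k))) ^ 2 ∂P
      ≤ 2 * C ^ 2 * ∑ k ∈ Finset.range N, (s (k + 1) - s k) ^ 2 := by
  have h := mart_sum_aux P F T W hW N s hs h0 hT η C hC hη hb
  exact ⟨h.2.1.integrable_sq, h.2.2⟩

end M

end Pool.Agent.Helper41.BS
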