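import Pool.Agent.Helper41.BS.Defs
import Pool.Agent.Helper41.BS.TayB

set_option autoImplicit false

open scoped ENNReal NNReal Topology
open MeasureTheory ProbabilityTheory Set Filter

namespace Pool.Agent.Helper41.BS


/-! ## TARGETS: prove these (statements must not be changed; helper lemmas are welcome) -/

section T

variable {Ω : Type*}

theorem lip_of_deriv' (f f' : ℝ → ℝ) (C : ℝ) (s : Set ℝ) (hs : Convex ℝ s)
    (hf : ∀ x ∈ s, HasDerivAt f (f' x) x) (hb : ∀ x ∈ s, |f' x| ≤ C) :
    ∀ x ∈ s, ∀ y ∈ s, |f x - f y| ≤ C * |x - y| := by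
  intro x hx y hy
  exact hs.norm_image_sub_le_of_norm_hasDerivWithin_le
    (fun z hz => (hf z hz).hasDerivWithinAt) hb hy hx

theorem uu_deriv_w (b c t w : ℝ) : HasDerivAt (fun w => uu b c t w) (1 / √(b - t)) w := by
  unfold uu
  exact ((hasDerivAt_id w).sub_const c).div_const _

theorem uu_deriv_t (b c t w : ℝ) (ht : t < b) :
    HasDerivAt (fun s => uu b c s w) (uu b c t w / (2 * (b - t))) t := by
  unfold uu
  have h0 : 0 < b - t := by linarith
  have h1 : HasDerivAt (fun s : ℝ => b - s) (-1) t := (hasDerivAt_id t).const_sub b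
  have h2 := h1.sqrt h0.ne'
  have hs : 0 < √(b - t) := Real.sqrt_pos.2 h0
  have h3 := (hasDerivAt_const t (w - c)).div h2 hs.ne'
  refine h3.congr_deriv ?_
  have h4 : √(b - t) ^ 2 = b - t := Real.sq_sqrt h0.le
  rw [h4]
  field_simp
  rw [h4]
  ring

set_option maxHeartbeats 2000000 in
theorem fF_taylor (g : ℝ) (F F1 : ℝ → ℝ) (hF : ODE g F F1) (a b' b c : ℝ) (hb : b' < b) :
    ∃ C : ℝ, 0 ≤ C ∧ ∀ t ∈ Icc a b', ∀ t' ∈ Icc a b', ∀ w w' : ℝ,
      |fF F b c t' w' - fF F b c t w - ft F1 b c t w * (t' - t) - fd F1 b c t w * (w' - w)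
        - f2 g F1 b c t w / 2 * (w' - w) ^ 2|
      ≤ C * (|t' - t| ^ 2 + |t' - t| * |w' - w| + |w' - w| ^ 3) := by
  obtain ⟨C0, hC0, h0⟩ := fD_bd g F F1 hF 0
  obtain ⟨C1, hC1, h1⟩ := fD_bd g F F1 hF 1
  obtain ⟨C2, hC2, h2⟩ := fD_bd g F F1 hF 2
  obtain ⟨C3, hC3, h3⟩ := fD_bd g F F1 hF 3
  have hd := fD_deriv g F F1 hF
  set D : ℝ → ℝ := fD F1 with hD
  set D' : ℝ → ℝ := fun u => -u * D u - 2 * g * (D u) ^ 2 with hD'
  have k0 : ∀ u, |D u| ≤ C0 := fun u => by simpa using h0 u
  have k1 : ∀ u, |u * D u| ≤ C1 := fun u => by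
    rw [abs_mul]
    simpa using h1 u
  have k2 : ∀ u, |u ^ 2 * D u| ≤ C2 := fun u => by
    rw [abs_mul, abs_pow]
    exact h2 u
  have k3 : ∀ u, |u ^ 3 * D u| ≤ C3 := fun u => by
    rw [abs_mul, abs_pow]
    exact h3 u
  have kk : ∀ (x y A B : ℝ), |x| ≤ A → |y| ≤ B → 0 ≤ A → |g * (x * y)| ≤ |g| * (A * B) := by
    intro x y A B hx hy hA
    rw [abs_mul, abs_mul]
    exact mul_le_mul_of_nonneg_left (mul_le_mul hx hy (abs_nonneg y) hA) (abs_nonneg g)
  have kD' : ∀ u, |D' u| ≤ C1 + 2 * (|g| * (C0 * C0)) := by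
    intro u
    have e1 := k1 u
    have e2 := kk (D u) (D u) C0 C0 (k0 u) (k0 u) hC0
    rw [abs_le] at e1 e2 ⊢
    simp only [hD']
    constructor <;> nlinarith
  have kuD' : ∀ u, |u * D' u| ≤ C2 + 2 * (|g| * (C1 * C0)) := by
    intro u
    have e1 := k2 u
    have e2 := kk (u * D u) (D u) C1 C0 (k1 u) (k0 u) hC1
    rw [abs_le] at e1 e2 ⊢
    simp only [hD']
    constructor <;> nlinarith
  have kuuD' : ∀ u, |u ^ 2 * D' u| ≤ C3 + 2 * (|g| * (C2 * C0)) := by
    intro u
    have e1 := k3 u
    have e2 := kk (u ^ 2 * D u) (D u) C2 C0 (k2 u) (k0 u) hC2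
    rw [abs_le] at e1 e2 ⊢
    simp only [hD']
    constructor <;> nlinarith
  -- the function H
  set LH : ℝ := C0 + (C2 + 2 * (|g| * (C1 * C0))) + 4 * (|g| * (C0 * (C1 + 2 * (|g| * (C0 * C0)))))
    with hLH
  have hLH0 : 0 ≤ LH := by positivity
  have hH : ∀ x y, |D' x - D' y| ≤ LH * |x - y| := by
    intro x y
    refine lip_of_deriv' D' (fun u => -D u - u * D' u - 4 * (g * (D u * D' u))) LH univ convex_univ
      ?_ ?_ x (mem_univ x) y (mem_univ y)
    · intro u _
      have e1 := (hd u).2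
      have e2 := ((hasDerivAt_id u).neg.mul e1).sub ((e1.pow 2).const_mul (2 * g))
      refine e2.congr_deriv ?_
      simp only [hD', Pi.neg_apply, id]
      norm_num
      ring
    · intro u _
      have e1 := k0 u
      have e2 := kuD' u
      have e3 := kk (D u) (D' u) C0 _ (k0 u) (kD' u) hC0
      rw [abs_le] at e1 e2 e3 ⊢
      constructor <;> simp only [hLH] <;> linarith
  -- the function G = u D
  set LG : ℝ := C0 + (C2 + 2 * (|g| * (C1 * C0))) with hLG
  have hLG0 : 0 ≤ LG := by positivity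
  have hGd : ∀ u, HasDerivAt (fun u => u * D u) (D u + u * D' u) u := by
    intro u
    have e1 := (hd u).2
    have e2 := (hasDerivAt_id u).mul e1
    refine e2.congr_deriv ?_
    simp only [hD', id]
    ring
  have hG : ∀ x y, |x * D x - y * D y| ≤ LG * |x - y| := by
    intro x y
    refine lip_of_deriv' (fun u => u * D u) (fun u => D u + u * D' u) LG univ convex_univ
      (fun u _ => hGd u) ?_ x (mem_univ x) y (mem_univ y)
    intro u _
    have e1 := k0 u
    have e2 := kuD' u
    rw [abs_le] at e1 e2 ⊢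
    constructor <;> simp only [hLG] <;> linarith
  set σ : ℝ := b - b' with hσ
  have hσ0 : 0 < σ := by simp only [hσ]; linarith
  have hsσ : 0 < √σ := Real.sqrt_pos.2 hσ0
  have htau : ∀ t ∈ Icc a b', σ ≤ b - t := fun t ht => by
    have := ht.2
    simp only [hσ]
    linarith
  have hsq : ∀ t ∈ Icc a b', √σ ≤ √(b - t) := fun t ht => Real.sqrt_le_sqrt (htau t ht)
  have huw : ∀ t ∈ Icc a b', ∀ w w' : ℝ, |uu b c t w - uu b c t w'| ≤ |w - w'| / √σ := by
    intro t ht w w'
    have e1 : uu b c t w - uu b c t w' = (w - w') / √(b - t) := by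
      unfold uu
      ring
    rw [e1, abs_div, abs_of_pos (lt_of_lt_of_le hsσ (hsq t ht))]
    exact div_le_div_of_nonneg_left (abs_nonneg _) hsσ (hsq t ht)
  -- (3) space increments
  set L3 : ℝ := LH / (√σ * σ) with hL3
  have hL30 : 0 ≤ L3 := by positivity
  have s3 : ∀ t ∈ Icc a b', ∀ w w' : ℝ,
      |fF F b c t w' - fF F b c t w - fd F1 b c t w * (w' - w)
        - f2 g F1 b c t w / 2 * (w' - w) ^ 2| ≤ L3 * |w' - w| ^ 3 := by
    intro t ht w w'
    have hp : 0 < b - t := lt_of_lt_of_le hσ0 (htau t ht)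
    have hps : 0 < √(b - t) := Real.sqrt_pos.2 hp
    refine taylor_three (fun w => fF F b c t w) (fun w => fd F1 b c t w)
      (fun w => f2 g F1 b c t w) L3 hL30 ?_ ?_ ?_ w w'
    · intro x
      have e1 := (hd (uu b c t x)).1.comp x (uu_deriv_w b c t x)
      refine e1.congr_deriv ?_
      simp only [fd, ← hD]
      ring
    · intro x
      have e1 := ((hd (uu b c t x)).2.comp x (uu_deriv_w b c t x)).div_const (√(b - t))
      refine e1.congr_deriv ?_
      simp only [f2, ← hD]
      have h4 : √(b - t) * √(b - t) = b - t := Real.mul_self_sqrt hp.le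
      rw [mul_one_div, div_div, h4]
    · intro x y
      have e1 : f2 g F1 b c t x - f2 g F1 b c t y =
          (D' (uu b c t x) - D' (uu b c t y)) / (b - t) := by
        simp only [f2, hD', ← hD]
        ring
      rw [e1, abs_div, abs_of_pos hp]
      have e2 := hH (uu b c t x) (uu b c t y)
      have e3 := huw t ht x y
      calc |D' (uu b c t x) - D' (uu b c t y)| / (b - t)
          ≤ (LH * (|x - y| / √σ)) / σ := by
            apply div_le_div₀ (by positivity) (e2.trans (mul_le_mul_of_nonneg_left e3 hLH0)) hσ0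
              (htau t ht)
        _ = L3 * |x - y| := by
            simp only [hL3]
            field_simp
  -- (2) increments of ft in w
  set L2 : ℝ := LG / (√σ * (2 * σ)) with hL2
  have hL20 : 0 ≤ L2 := by positivity
  have s2 : ∀ t ∈ Icc a b', ∀ w w' : ℝ, |ft F1 b c t w' - ft F1 b c t w| ≤ L2 * |w' - w| := by
    intro t ht w w'
    have hp : 0 < b - t := lt_of_lt_of_le hσ0 (htau t ht)
    have e1 : ft F1 b c t w' - ft F1 b c t w =
        (uu b c t w' * D (uu b c t w') - uu b c t w * D (uu b c t w)) / (2 * (b - t)) := by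
      simp only [ft, ← hD]
      ring
    rw [e1, abs_div, abs_of_pos (show 0 < 2 * (b - t) by positivity)]
    have e2 := hG (uu b c t w') (uu b c t w)
    have e3 := huw t ht w' w
    calc |uu b c t w' * D (uu b c t w') - uu b c t w * D (uu b c t w)| / (2 * (b - t))
        ≤ (LG * (|w' - w| / √σ)) / (2 * σ) := by
          apply div_le_div₀ (by positivity) (e2.trans (mul_le_mul_of_nonneg_left e3 hLG0))
            (by positivity)
          have := htau t ht
          linarith
      _ = L2 * |w' - w| := by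
          simp only [hL2]
          field_simp
  -- (1) increments in time
  set L1 : ℝ := (C1 + (C3 + 2 * (|g| * (C2 * C0)))) / (4 * σ ^ 2) + C1 / (2 * σ ^ 2) with hL1
  have hL10 : 0 ≤ L1 := by positivity
  have s1 : ∀ t ∈ Icc a b', ∀ t' ∈ Icc a b', ∀ w : ℝ,
      |fF F b c t' w - fF F b c t w - ft F1 b c t w * (t' - t)| ≤ L1 * (t' - t) ^ 2 := by
    intro t ht t' ht' w
    refine taylor_two (fun s => fF F b c s w) (fun s => ft F1 b c s w) a b' L1 hL10 ?_ ?_ t t' ht ht'
    · intro s hs
      have hsb : s < b := lt_of_le_of_lt hs.2 hb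
      have e1 := (hd (uu b c s w)).1.comp s (uu_deriv_t b c s w hsb)
      refine e1.congr_deriv ?_
      simp only [ft, ← hD]
      ring
    · intro x hx y hy
      refine lip_of_deriv' (fun s => ft F1 b c s w)
        (fun s => (uu b c s w * D (uu b c s w) + uu b c s w ^ 2 * D' (uu b c s w)) /
          (4 * (b - s) ^ 2) + (uu b c s w * D (uu b c s w)) / (2 * (b - s) ^ 2)) L1 (Icc a b')
        (convex_Icc a b') ?_ ?_ x hx y hy
      · intro s hs
        have hsb : s < b := lt_of_le_of_lt hs.2 hb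
        have hp : 0 < b - s := by linarith
        have e1 := (hGd (uu b c s w)).comp s (uu_deriv_t b c s w hsb)
        have e2 : HasDerivAt (fun s : ℝ => 2 * (b - s)) (2 * (-1)) s :=
          ((hasDerivAt_id s).const_sub b).const_mul 2
        have e3 := e1.div e2 (show 2 * (b - s) ≠ 0 by positivity)
        refine e3.congr_deriv ?_
        simp only [Function.comp]
        field_simp
        ring
      · intro s hs
        have hp : 0 < b - s := lt_of_lt_of_le hσ0 (htau s hs)
        have hsq2 : σ ^ 2 ≤ (b - s) ^ 2 := pow_le_pow_left₀ hσ0.le (htau s hs) 2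
        have e1 := k1 (uu b c s w)
        have e2 := kuuD' (uu b c s w)
        refine (abs_add_le _ _).trans ?_
        simp only [hL1]
        apply add_le_add
        · rw [abs_div, abs_of_pos (show 0 < 4 * (b - s) ^ 2 by positivity)]
          apply div_le_div₀ (by positivity) ((abs_add_le _ _).trans (add_le_add e1 e2))
            (by positivity)
          linarith
        · rw [abs_div, abs_of_pos (show 0 < 2 * (b - s) ^ 2 by positivity)]
          apply div_le_div₀ (by positivity) e1 (by positivity)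
          linarith
  refine ⟨L1 + L2 + L3, by positivity, ?_⟩
  intro t ht t' ht' w w'
  have q1 := s1 t ht t' ht' w'
  have q2 := s2 t ht w w'
  have q3 := s3 t ht w w'
  have e : fF F b c t' w' - fF F b c t w - ft F1 b c t w * (t' - t) - fd F1 b c t w * (w' - w)
        - f2 g F1 b c t w / 2 * (w' - w) ^ 2 =
      (fF F b c t' w' - fF F b c t w' - ft F1 b c t w' * (t' - t)) +
      (ft F1 b c t w' - ft F1 b c t w) * (t' - t) +
      (fF F b c t w' - fF F b c t w - fd F1 b c t w * (w' - w)
        - f2 g F1 b c t w / 2 * (w' - w) ^ 2) := by ring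
  rw [e]
  have q4 : |(ft F1 b c t w' - ft F1 b c t w) * (t' - t)| ≤ L2 * |w' - w| * |t' - t| := by
    rw [abs_mul]
    exact mul_le_mul_of_nonneg_right q2 (abs_nonneg _)
  have q5 : L1 * (t' - t) ^ 2 = L1 * |t' - t| ^ 2 := by rw [sq_abs]
  rw [q5] at q1
  have n1 : 0 ≤ |t' - t| := abs_nonneg _
  have n2 : 0 ≤ |w' - w| := abs_nonneg _
  calc _ ≤ L1 * |t' - t| ^ 2 + L2 * |w' - w| * |t' - t| + L3 * |w' - w| ^ 3 :=
        (abs_add_le _ _).trans (add_le_add ((abs_add_le _ _).trans (add_le_add q1 q4)) q3)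
    _ ≤ (L1 + L2 + L3) * (|t' - t| ^ 2 + |t' - t| * |w' - w| + |w' - w| ^ 3) := by
        generalize |t' - t| = X at *
        generalize |w' - w| = Y at *
        have m1 : 0 ≤ X ^ 2 := by positivity
        have m2 : 0 ≤ X * Y := by positivity
        have m3 : 0 ≤ Y ^ 3 := by positivity
        have r1 : 0 ≤ (L2 + L3) * X ^ 2 := by positivity
        have r2 : 0 ≤ (L1 + L3) * (X * Y) := by positivity
        have r3 : 0 ≤ (L1 + L2) * Y ^ 3 := by positivity
        nlinarith

end T

end Pool.Agent.Helper41.BS
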