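import Pool.Agent.Helper41.BS.Defs
import Pool.Agent.Helper41.BS.TayC
import Pool.Agent.Helper41.BS.Mart

set_option autoImplicit false

open scoped ENNReal NNReal Topology
open MeasureTheory ProbabilityTheory Set Filter

namespace Pool.Agent.Helper41.BS


/-! ## TARGETS: prove these (statements must not be changed; helper lemmas are welcome) -/

section M

variable {Ω : Type*} [mΩ : MeasurableSpace Ω] (P : Measure Ω) [IsProbabilityMeasure P] (F : ℝ → MeasurableSpace Ω) (T : ℝ) (W : ℝ → Ω → ℝ)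

theorem ei_W_meas (hW : FBM P F T W) (t : ℝ) (ht : 0 ≤ t) : Measurable (W t) :=
  (hW.adap t ht).mono (hW.le t) le_rfl

theorem ei_f2_meas (g : ℝ) (G G1 : ℝ → ℝ) (hG : ODE g G G1) (b c t : ℝ) :
    Measurable (fun w : ℝ => f2 g G1 b c t w) := by
  have hc : Continuous (fD G1) :=
    continuous_iff_continuousAt.2 fun u => (fD_deriv g G G1 hG u).2.continuousAt
  have hu : Measurable (fun w : ℝ => uu b c t w) := by
    unfold uu
    exact (measurable_id.sub_const c).div_const _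
  have hD : Measurable (fun w : ℝ => fD G1 (uu b c t w)) := hc.measurable.comp hu
  unfold f2
  exact ((hu.neg.mul hD).sub ((hD.pow_const 2).const_mul _)).div_const _

theorem ei_fd_comp {Ω' : Type*} [MeasurableSpace Ω'] (g : ℝ) (G G1 : ℝ → ℝ) (hG : ODE g G G1)
    (b c t : ℝ) (Y : Ω' → ℝ) (hY : Measurable Y) : Measurable (fun ω => fd G1 b c t (Y ω)) := by
  have h1 : Measurable (fun ω => ((t, Y ω) : ℝ × ℝ)) := measurable_const.prodMk hY
  have h2 := (fd_meas g G G1 hG b c).comp h1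
  have h3 : ((fun p : ℝ × ℝ => fd G1 b c p.1 p.2) ∘ fun ω => ((t, Y ω) : ℝ × ℝ)) =
      fun ω => fd G1 b c t (Y ω) := by
    funext ω
    simp only [Function.comp]
  rw [h3] at h2
  exact h2

theorem ei_fF_comp {Ω' : Type*} [MeasurableSpace Ω'] (g : ℝ) (G G1 : ℝ → ℝ) (hG : ODE g G G1)
    (b c t : ℝ) (Y : Ω' → ℝ) (hY : Measurable Y) : Measurable (fun ω => fF G b c t (Y ω)) := by
  have h1 : Measurable (fun ω => ((t, Y ω) : ℝ × ℝ)) := measurable_const.prodMk hY
  have h2 := (fF_meas g G G1 hG b c).comp h1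
  have h3 : ((fun p : ℝ × ℝ => fF G b c p.1 p.2) ∘ fun ω => ((t, Y ω) : ℝ × ℝ)) =
      fun ω => fF G b c t (Y ω) := by
    funext ω
    simp only [Function.comp]
  rw [h3] at h2
  exact h2

theorem ei_grid_mono (a b' : ℝ) (N : ℕ) (hab : a ≤ b') : Monotone (grid a b' N) := by
  intro i j hij
  unfold grid
  have h1 : (i : ℝ) ≤ j := by exact_mod_cast hij
  have h2 : (b' - a) * i ≤ (b' - a) * j := mul_le_mul_of_nonneg_left h1 (by linarith)
  have h3 : (b' - a) * i / N ≤ (b' - a) * j / N := div_le_div_of_nonneg_right h2 (by positivity)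
  linarith

theorem ei_grid_step (a b' : ℝ) (N : ℕ) (k : ℕ) :
    grid a b' N (k + 1) - grid a b' N k = (b' - a) / N := by
  unfold grid
  push_cast
  ring

theorem euler_ito (hW : FBM P F T W) (g : ℝ) (G G1 : ℝ → ℝ) (hG : ODE g G G1) (a b' b c : ℝ)
    (ha : 0 ≤ a) (hab : a ≤ b') (hb : b' < b) (hbT : b ≤ T) :
    ∃ K : ℝ, 0 ≤ K ∧ ∀ N : ℕ, 0 < N → ∀ t ∈ Icc a b',
      Integrable (fun ω => fF G b c t (W t ω - W a ω) - fF G b c a 0
        - hint N (grid a b' N) (fun k ω => fd G1 b c (grid a b' N k) (W (grid a b' N k) ω - W a ω)) W t ω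
        + g * ∑ k ∈ Finset.range N, (fd G1 b c (grid a b' N k) (W (grid a b' N k) ω - W a ω)) ^ 2
          * (min (grid a b' N (k + 1)) t - min (grid a b' N k) t)) P ∧
      ∫ ω, |fF G b c t (W t ω - W a ω) - fF G b c a 0
        - hint N (grid a b' N) (fun k ω => fd G1 b c (grid a b' N k) (W (grid a b' N k) ω - W a ω)) W t ω
        + g * ∑ k ∈ Finset.range N, (fd G1 b c (grid a b' N k) (W (grid a b' N k) ω - W a ω)) ^ 2
          * (min (grid a b' N (k + 1)) t - min (grid a b' N k) t)| ∂P ≤ K / √N := by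
  obtain ⟨C1, hC1, htay⟩ := fF_taylor g G G1 hG a b' b c hb
  obtain ⟨C2, hC2, hbd⟩ := fd_bd g G G1 hG a b' b c hb
  obtain ⟨D, hD⟩ : ∃ D, D = b' - a := ⟨_, rfl⟩
  have hD0 : 0 ≤ D := by rw [hD]; linarith
  refine ⟨C1 * (D ^ 2 + 3 * (D * √D)) + (C2 ^ 2 / 2 * D ^ 2 + 1) / 2, by positivity, ?_⟩
  intro N hN t ht
  obtain ⟨hta, htb⟩ := ht
  have hN1 : (1 : ℝ) ≤ N := by exact_mod_cast hN
  have hN0 : (0 : ℝ) < N := by linarith
  obtain ⟨δ, hδ⟩ : ∃ δ, δ = D / N := ⟨_, rfl⟩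
  have hδ0 : 0 ≤ δ := by rw [hδ]; positivity
  obtain ⟨s, hs⟩ : ∃ s : ℕ → ℝ, s = grid a b' N := ⟨_, rfl⟩
  rw [← hs]
  have hsmono : Monotone s := by rw [hs]; exact ei_grid_mono a b' N hab
  have hsstep : ∀ k, s (k + 1) - s k = δ := by
    intro k
    rw [hs, ei_grid_step, hδ, hD]
  have hs0 : s 0 = a := by rw [hs]; unfold grid; simp
  have hsN : s N = b' := by
    rw [hs]
    unfold grid
    field_simp
    ring
  have hsa : ∀ k, a ≤ s k := fun k => by rw [← hs0]; exact hsmono (Nat.zero_le k)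
  obtain ⟨σ, hσ⟩ : ∃ σ : ℕ → ℝ, ∀ k, σ k = min (s k) t := ⟨_, fun k => rfl⟩
  have hσmono : Monotone σ := by
    intro i j hij
    rw [hσ, hσ]
    exact min_le_min_right t (hsmono hij)
  have hσ0 : σ 0 = a := by rw [hσ, hs0, min_eq_left hta]
  have hσN : σ N = t := by rw [hσ, hsN, min_eq_right htb]
  have hσa : ∀ k, a ≤ σ k := fun k => by rw [hσ]; exact le_min (hsa k) hta
  have hσt : ∀ k, σ k ≤ t := fun k => by rw [hσ]; exact min_le_right _ _
  have hσI : ∀ k, σ k ∈ Icc a b' := fun k => ⟨hσa k, (hσt k).trans htb⟩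
  have hσ00 : ∀ k, 0 ≤ σ k := fun k => ha.trans (hσa k)
  have hσT : ∀ k, σ k ≤ T := fun k => (hσt k).trans (by linarith)
  have hstep : ∀ k, 0 ≤ σ (k + 1) - σ k ∧ σ (k + 1) - σ k ≤ δ := by
    intro k
    constructor
    · have := hσmono (Nat.le_succ k)
      linarith
    · rw [← hsstep k, hσ, hσ]
      have h1 := hsmono (Nat.le_succ k)
      rcases le_total (s k) t with h | h
      · rw [min_eq_left h]
        have := min_le_left (s (k + 1)) t
        linarith
      · rw [min_eq_right h, min_eq_right (h.trans h1)]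
        linarith
  -- abbreviations
  obtain ⟨X, hX⟩ : ∃ X : ℕ → Ω → ℝ, ∀ k ω, X k ω = W (σ k) ω - W a ω := ⟨_, fun _ _ => rfl⟩
  obtain ⟨η, hη⟩ : ∃ η : ℕ → Ω → ℝ, ∀ k ω, η k ω = f2 g G1 b c (σ k) (X k ω) / 2 :=
    ⟨_, fun _ _ => rfl⟩
  obtain ⟨M, hM⟩ : ∃ M : Ω → ℝ, ∀ ω, M ω = ∑ k ∈ Finset.range N, η k ω *
      ((W (σ (k + 1)) ω - W (σ k) ω) ^ 2 - (σ (k + 1) - σ k)) := ⟨_, fun _ => rfl⟩
  have hηb : ∀ k ω, |η k ω| ≤ C2 / 2 := by
    intro k ω
    rw [hη, abs_div, abs_of_pos (by norm_num : (0 : ℝ) < 2)]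
    have := (hbd (σ k) (hσI k) (X k ω)).2
    linarith
  have hWF : ∀ k, Measurable[F (σ k)] (fun ω => W (σ k) ω - W a ω) := by
    intro k
    have h1 := hW.adap (σ k) (hσ00 k)
    have h2 : Measurable[F (σ k)] (W a) := (hW.adap a ha).mono (hW.mono (hσa k)) le_rfl
    exact h1.sub h2
  have hms := mart_sum P F T W hW N σ hσmono (hσ00 0) (hσT N) η (C2 / 2) (by positivity)
    (fun k _ _ => by
      have h1 : η k = fun ω => f2 g G1 b c (σ k) (W (σ k) ω - W a ω) / 2 := by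
        funext ω
        rw [hη, hX]
      rw [h1]
      exact ((ei_f2_meas g G G1 hG b c (σ k)).comp (hWF k)).div_const 2) hηb
  simp only [← hM] at hms
  obtain ⟨hMi, hMb⟩ := hms
  -- pointwise identity
  obtain ⟨Ex, hEx⟩ : ∃ Ex : Ω → ℝ, Ex = fun ω => fF G b c t (W t ω - W a ω) - fF G b c a 0
        - hint N s (fun k ω => fd G1 b c (s k) (W (s k) ω - W a ω)) W t ω
        + g * ∑ k ∈ Finset.range N, (fd G1 b c (s k) (W (s k) ω - W a ω)) ^ 2
          * (min (s (k + 1)) t - min (s k) t) := ⟨_, rfl⟩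
  obtain ⟨R, hR⟩ : ∃ R : ℕ → Ω → ℝ, ∀ k ω, R k ω = fF G b c (σ (k + 1)) (X (k + 1) ω) -
      fF G b c (σ k) (X k ω) - ft G1 b c (σ k) (X k ω) * (σ (k + 1) - σ k) -
      fd G1 b c (σ k) (X k ω) * (X (k + 1) ω - X k ω) -
      f2 g G1 b c (σ k) (X k ω) / 2 * (X (k + 1) ω - X k ω) ^ 2 := ⟨_, fun _ _ => rfl⟩
  have hXd : ∀ k ω, X (k + 1) ω - X k ω = W (σ (k + 1)) ω - W (σ k) ω := by
    intro k ω
    rw [hX, hX]
    ring
  have hId : ∀ ω, Ex ω = (∑ k ∈ Finset.range N, R k ω) + M ω := by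
    intro ω
    have htel : fF G b c t (W t ω - W a ω) - fF G b c a 0 =
        ∑ k ∈ Finset.range N, (fF G b c (σ (k + 1)) (X (k + 1) ω) - fF G b c (σ k) (X k ω)) := by
      rw [Finset.sum_range_sub (fun k => fF G b c (σ k) (X k ω)), hσ0, hσN, hX, hX, hσ0, hσN,
        sub_self]
    rw [hEx]
    simp only
    unfold hint
    rw [htel, hM, Finset.mul_sum, ← Finset.sum_sub_distrib, ← Finset.sum_add_distrib,
      ← Finset.sum_add_distrib]
    apply Finset.sum_congr rfl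
    intro k _
    beta_reduce
    rw [← hσ, ← hσ, ← hXd]
    rcases le_or_gt (s k) t with h | h
    · have e1 : σ k = s k := by rw [hσ, min_eq_left h]
      have e2 : W (s k) ω - W a ω = X k ω := by rw [hX, e1]
      have e3 := ft_f2 g G1 b c (σ k) (X k ω) ((hσI k).2.trans_lt hb)
      rw [e2, ← e1, hR, hη]
      linear_combination (σ (k + 1) - σ k) * e3
    · have e1 : σ k = t := by rw [hσ, min_eq_right h.le]
      have e2 : σ (k + 1) = t := by
        rw [hσ, min_eq_right (h.le.trans (hsmono (Nat.le_succ k)))]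
      have e3 : X (k + 1) ω = X k ω := by rw [hX, hX, e1, e2]
      rw [hR, e1, e2, e3]
      ring
  -- the dominating function
  have hsqN : 0 < √(N : ℝ) := Real.sqrt_pos.2 hN0
  have hdomi : Integrable (fun ω => (∑ k ∈ Finset.range N, C1 * ((σ (k + 1) - σ k) ^ 2 +
      (σ (k + 1) - σ k) * |W (σ (k + 1)) ω - W (σ k) ω| ^ 1 +
      |W (σ (k + 1)) ω - W (σ k) ω| ^ 3)) + (√N * M ω ^ 2 + 1 / √N) / 2) P := by
    apply Integrable.add
    · apply integrable_finsetSum
      intro k _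
      apply Integrable.const_mul
      apply Integrable.add
      · apply Integrable.add (integrable_const _)
        exact (inc_int P F T W hW _ _ (hσ00 k) (hσmono (Nat.le_succ k)) (hσT _) 1).const_mul _
      · exact inc_int P F T W hW _ _ (hσ00 k) (hσmono (Nat.le_succ k)) (hσT _) 3
    · exact ((hMi.const_mul _).add (integrable_const _)).div_const 2
  have hle : ∀ ω, |Ex ω| ≤ (∑ k ∈ Finset.range N, C1 * ((σ (k + 1) - σ k) ^ 2 +
      (σ (k + 1) - σ k) * |W (σ (k + 1)) ω - W (σ k) ω| ^ 1 +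
      |W (σ (k + 1)) ω - W (σ k) ω| ^ 3)) + (√N * M ω ^ 2 + 1 / √N) / 2 := by
    intro ω
    rw [hId]
    refine (abs_add_le _ _).trans (add_le_add ?_ ?_)
    · refine (Finset.abs_sum_le_sum_abs _ _).trans (Finset.sum_le_sum fun k _ => ?_)
      have h1 := htay (σ k) (hσI k) (σ (k + 1)) (hσI (k + 1)) (X k ω) (X (k + 1) ω)
      rw [← hR, hXd, abs_of_nonneg (hstep k).1] at h1
      rw [pow_one]
      exact h1
    · have h1 : √(N : ℝ) * (1 / √N) = 1 := by field_simp
      have h2 := sq_nonneg (√(N : ℝ) * |M ω| - 1)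
      have h3 : |M ω| ^ 2 = M ω ^ 2 := sq_abs _
      have h4 : (√(N : ℝ) * |M ω| - 1) ^ 2 = √(N : ℝ) * (√(N : ℝ) * M ω ^ 2 + 1 / √N - 2 * |M ω|) := by
        rw [← h3]
        linear_combination -h1
      rw [h4] at h2
      have h5 := nonneg_of_mul_nonneg_right h2 hsqN
      linarith
  have hmeas : Measurable Ex := by
    rw [hEx]
    have hWm : ∀ r, 0 ≤ r → Measurable (W r) := fun r hr => ei_W_meas P F T W hW r hr
    have hWa := hWm a ha
    have hfd : ∀ k, Measurable (fun ω => fd G1 b c (s k) (W (s k) ω - W a ω)) := by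
      intro k
      exact ei_fd_comp g G G1 hG b c (s k) _ ((hWm (s k) (ha.trans (hsa k))).sub hWa)
    have hfF : Measurable (fun ω => fF G b c t (W t ω - W a ω)) :=
      ei_fF_comp g G G1 hG b c t _ ((hWm t (ha.trans hta)).sub hWa)
    have hh : Measurable (fun ω => hint N s (fun k ω => fd G1 b c (s k) (W (s k) ω - W a ω)) W t ω) := by
      unfold hint
      apply Finset.measurable_sum
      intro k _
      apply (hfd k).mul
      rw [← hσ, ← hσ]
      exact (hWm _ (hσ00 _)).sub (hWm _ (hσ00 _))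
    apply ((hfF.sub_const _).sub hh).add
    apply Measurable.const_mul
    apply Finset.measurable_sum
    intro k _
    exact ((hfd k).pow_const 2).mul_const _
  have hExi : Integrable Ex P := by
    refine hdomi.mono' hmeas.aestronglyMeasurable (Filter.Eventually.of_forall fun ω => ?_)
    rw [Real.norm_eq_abs]
    exact hle ω
  have hfinal : ∫ ω, |Ex ω| ∂P ≤
      (C1 * (D ^ 2 + 3 * (D * √D)) + (C2 ^ 2 / 2 * D ^ 2 + 1) / 2) / √N := by
    refine (integral_mono hExi.abs hdomi hle).trans ?_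
    have hik : ∀ k, Integrable (fun ω => C1 * ((σ (k + 1) - σ k) ^ 2 +
      (σ (k + 1) - σ k) * |W (σ (k + 1)) ω - W (σ k) ω| ^ 1 +
      |W (σ (k + 1)) ω - W (σ k) ω| ^ 3)) P := by
      intro k
      apply Integrable.const_mul
      apply Integrable.add
      · apply Integrable.add (integrable_const _)
        exact (inc_int P F T W hW _ _ (hσ00 k) (hσmono (Nat.le_succ k)) (hσT _) 1).const_mul _
      · exact inc_int P F T W hW _ _ (hσ00 k) (hσmono (Nat.le_succ k)) (hσT _) 3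
    have hiM : Integrable (fun ω => (√N * M ω ^ 2 + 1 / √N) / 2) P :=
      ((hMi.const_mul _).add (integrable_const _)).div_const 2
    rw [integral_add (integrable_finsetSum _ fun k _ => hik k) hiM,
      integral_finsetSum _ (fun k _ => hik k)]
    have hk : ∀ k, ∫ ω, C1 * ((σ (k + 1) - σ k) ^ 2 +
        (σ (k + 1) - σ k) * |W (σ (k + 1)) ω - W (σ k) ω| ^ 1 +
        |W (σ (k + 1)) ω - W (σ k) ω| ^ 3) ∂P ≤ C1 * (δ ^ 2 + 3 * (δ * √δ)) := by
      intro k
      rw [integral_const_mul]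
      apply mul_le_mul_of_nonneg_left _ hC1
      have hi1 : Integrable (fun ω => |W (σ (k + 1)) ω - W (σ k) ω| ^ 1) P :=
        inc_int P F T W hW _ _ (hσ00 k) (hσmono (Nat.le_succ k)) (hσT _) 1
      have hi3 : Integrable (fun ω => |W (σ (k + 1)) ω - W (σ k) ω| ^ 3) P :=
        inc_int P F T W hW _ _ (hσ00 k) (hσmono (Nat.le_succ k)) (hσT _) 3
      have hi2 : Integrable (fun ω => (σ (k + 1) - σ k) ^ 2 +
        (σ (k + 1) - σ k) * |W (σ (k + 1)) ω - W (σ k) ω| ^ 1) P :=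
        (integrable_const _).add (hi1.const_mul _)
      rw [integral_add hi2 hi3, integral_add (integrable_const _) (hi1.const_mul _),
        integral_const_mul, integral_const]
      simp only [probReal_univ, smul_eq_mul, one_mul, pow_one]
      obtain ⟨m1, -, m3, -⟩ := inc_mom P F T W hW _ _ (hσ00 k) (hσmono (Nat.le_succ k)) (hσT (k + 1))
      obtain ⟨st0, st1⟩ := hstep k
      have hsq : √(σ (k + 1) - σ k) ≤ √δ := Real.sqrt_le_sqrt st1
      have q1 : (σ (k + 1) - σ k) ^ 2 ≤ δ ^ 2 := pow_le_pow_left₀ st0 st1 2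
      have q2 : (σ (k + 1) - σ k) * √(σ (k + 1) - σ k) ≤ δ * √δ :=
        mul_le_mul st1 hsq (Real.sqrt_nonneg _) hδ0
      have q3 : (σ (k + 1) - σ k) * ∫ ω, |W (σ (k + 1)) ω - W (σ k) ω| ∂P ≤
          (σ (k + 1) - σ k) * √(σ (k + 1) - σ k) := mul_le_mul_of_nonneg_left m1 st0
      linarith
    have hsum := Finset.sum_le_sum (s := Finset.range N) (fun k _ => hk k)
    rw [Finset.sum_const, Finset.card_range, nsmul_eq_mul] at hsum
    have hM2 : ∫ ω, (√N * M ω ^ 2 + 1 / √N) / 2 ∂P ≤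
        (√N * (C2 ^ 2 / 2 * (N * δ ^ 2)) + 1 / √N) / 2 := by
      rw [integral_div, integral_add (hMi.const_mul _) (integrable_const _), integral_const_mul,
        integral_const]
      simp only [probReal_univ, smul_eq_mul, one_mul]
      have q1 : ∑ k ∈ Finset.range N, (σ (k + 1) - σ k) ^ 2 ≤ N * δ ^ 2 := by
        have h1 := Finset.sum_le_sum (s := Finset.range N)
          (fun k _ => pow_le_pow_left₀ (hstep k).1 (hstep k).2 2)
        rwa [Finset.sum_const, Finset.card_range, nsmul_eq_mul] at h1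
      have q2 : ∫ ω, M ω ^ 2 ∂P ≤ C2 ^ 2 / 2 * (N * δ ^ 2) := by
        refine hMb.trans ?_
        have h1 : 2 * (C2 / 2) ^ 2 * ∑ k ∈ Finset.range N, (σ (k + 1) - σ k) ^ 2 ≤
            2 * (C2 / 2) ^ 2 * (N * δ ^ 2) := mul_le_mul_of_nonneg_left q1 (by positivity)
        refine h1.trans (le_of_eq ?_)
        ring
      have q3 := mul_le_mul_of_nonneg_left q2 hsqN.le
      linarith
    refine (add_le_add hsum hM2).trans ?_
    have hNN : √(N : ℝ) * √(N : ℝ) = N := Real.mul_self_sqrt hN0.le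
    have hs1 : 1 ≤ √(N : ℝ) := by
      rw [Real.one_le_sqrt]
      exact hN1
    have e1 : (N : ℝ) * δ ^ 2 ≤ D ^ 2 / √N := by
      rw [hδ, le_div_iff₀ hsqN]
      have : (N : ℝ) * (D / N) ^ 2 * √N = D ^ 2 * (√N / N) := by field_simp
      rw [this]
      have h2 : √(N : ℝ) / N ≤ 1 := by
        rw [div_le_one hN0]
        calc √(N : ℝ) = √(N : ℝ) * 1 := (mul_one _).symm
          _ ≤ √(N : ℝ) * √(N : ℝ) := mul_le_mul_of_nonneg_left hs1 hsqN.le
          _ = N := hNN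
      calc D ^ 2 * (√N / N) ≤ D ^ 2 * 1 := mul_le_mul_of_nonneg_left h2 (sq_nonneg D)
        _ = D ^ 2 := mul_one _
    have e2 : (N : ℝ) * (δ * √δ) = D * √D / √N := by
      rw [hδ, Real.sqrt_div hD0]
      field_simp
    have e3 : √(N : ℝ) * (C2 ^ 2 / 2 * (N * δ ^ 2)) = C2 ^ 2 / 2 * D ^ 2 / √N := by
      rw [hδ]
      have : √(N : ℝ) * (C2 ^ 2 / 2 * (N * (D / N) ^ 2)) = C2 ^ 2 / 2 * D ^ 2 * (√N / N) := by
        field_simp
      rw [this]
      have h2 : √(N : ℝ) / N = 1 / √N := by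
        rw [div_eq_div_iff hN0.ne' hsqN.ne', one_mul, hNN]
      rw [h2]
      ring
    rw [e3]
    have e4 : (N : ℝ) * (C1 * (δ ^ 2 + 3 * (δ * √δ))) ≤ C1 * (D ^ 2 / √N + 3 * (D * √D / √N)) := by
      have : (N : ℝ) * (C1 * (δ ^ 2 + 3 * (δ * √δ))) =
          C1 * (N * δ ^ 2 + 3 * (N * (δ * √δ))) := by ring
      rw [this, e2]
      apply mul_le_mul_of_nonneg_left _ hC1
      linarith
    refine (add_le_add e4 le_rfl).trans (le_of_eq ?_)
    ring
  rw [hEx] at hExi hfinal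
  exact ⟨hExi, hfinal⟩

end M

end Pool.Agent.Helper41.BS
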