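import Pool.Agent.Helper41.BS.Defs
import Pool.Agent.Helper41.BS.TayB
import Pool.Agent.Helper41.BS.Mom

set_option autoImplicit false

open scoped ENNReal NNReal Topology
open MeasureTheory ProbabilityTheory Set Filter

namespace Pool.Agent.Helper41.BS


/-! ## TARGETS: prove these (statements must not be changed; helper lemmas are welcome) -/

section M

variable {Ω : Type*} [mΩ : MeasurableSpace Ω] (P : Measure Ω) [IsProbabilityMeasure P] (F : ℝ → MeasurableSpace Ω) (T : ℝ) (W : ℝ → Ω → ℝ)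

theorem grid_zero_9733 (a b : ℝ) (N : ℕ) : grid a b N 0 = a := by
  unfold grid; simp

theorem grid_last_9733 (a b : ℝ) (N : ℕ) (hN : 0 < N) : grid a b N N = b := by
  unfold grid
  have : (N : ℝ) ≠ 0 := by positivity
  field_simp
  ring

theorem grid_succ_9733 (a b : ℝ) (N k : ℕ) : grid a b N (k + 1) = grid a b N k + (b - a) / N := by
  unfold grid
  push_cast
  ring

theorem grid_mono_9733 (a b : ℝ) (hab : a ≤ b) (N : ℕ) : Monotone (grid a b N) := by
  apply monotone_nat_of_le_succ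
  intro k
  rw [grid_succ_9733]
  have : 0 ≤ (b - a) / N := div_nonneg (by linarith) (Nat.cast_nonneg _)
  linarith

theorem grid_mem_9733 (a b : ℝ) (hab : a ≤ b) (N : ℕ) (hN : 0 < N) (k : ℕ) (hk : k ≤ N) :
    grid a b N k ∈ Icc a b := by
  constructor
  · exact (grid_zero_9733 a b N).ge.trans (grid_mono_9733 a b hab N (Nat.zero_le _))
  · exact (grid_mono_9733 a b hab N hk).trans (grid_last_9733 a b N hN).le

theorem grid_find_9733 (s : ℕ → ℝ) (r : ℝ) (h0 : s 0 < r) (m : ℕ) (hm : r ≤ s m) :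
    ∃ k, k < m ∧ s k < r ∧ r ≤ s (k + 1) := by
  induction m with
  | zero => exact absurd hm (not_le.2 h0)
  | succ m ih =>
    by_cases h : r ≤ s m
    · obtain ⟨k, h1, h2, h3⟩ := ih h
      exact ⟨k, by omega, h2, h3⟩
    · exact ⟨m, by omega, not_le.1 h, hm⟩

theorem hval_eq_9733 {Ω : Type*} (N : ℕ) (s : ℕ → ℝ) (hs : Monotone s) (η : ℕ → Ω → ℝ) (r : ℝ) (ω : Ω)
    (k : ℕ) (hk : k < N) (h1 : s k < r) (h2 : r ≤ s (k + 1)) : hval N s η r ω = η k ω := by
  unfold hval
  rw [Finset.sum_eq_single k]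
  · rw [if_pos ⟨h1, h2⟩]
  · intro j _ hjk
    rw [if_neg]
    rintro ⟨h3, h4⟩
    rcases lt_or_gt_of_ne hjk with h | h
    · have := hs (show j + 1 ≤ k by omega)
      linarith
    · have := hs (show k + 1 ≤ j by omega)
      linarith
  · intro h
    exact absurd (Finset.mem_range.2 hk) h

theorem W_meas_9733 (hW : FBM P F T W) : Measurable (fun p : ℝ × Ω => W (max p.1 0) p.2) := by
  have h := measurable_uncurry_of_continuous_of_measurable (u := fun (r : ℝ) (ω : Ω) => W (max r 0) ω)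
    (fun ω => (hW.cont ω).comp (by fun_prop)) (fun r => (hW.adap _ (le_max_right _ _)).mono (hW.le _) le_rfl)
  exact h

theorem swap_9733 (hW : FBM P F T W) (Θ : ℝ → ℝ) (hΘ : Measurable Θ) (s u : ℝ) (hs : 0 ≤ s)
    (M : ℝ≥0∞) (hM : ∀ r ∈ Ioc s u, ∫⁻ ω, ENNReal.ofReal (Θ (W r ω - W s ω)) ∂P ≤ M) :
    Measurable (fun ω => ∫⁻ r in Ioc s u, ENNReal.ofReal (Θ (W r ω - W s ω))) ∧
    ∫⁻ ω, (∫⁻ r in Ioc s u, ENNReal.ofReal (Θ (W r ω - W s ω))) ∂P ≤ M * ENNReal.ofReal (u - s) := by
  have hsm : Measurable (W s) := (hW.adap _ hs).mono (hW.le _) le_rfl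
  have hm : Measurable (fun p : Ω × ℝ => ENNReal.ofReal (Θ (W (max p.2 0) p.1 - W s p.1))) := by
    apply ENNReal.measurable_ofReal.comp
    apply hΘ.comp
    exact ((W_meas_9733 P F T W hW).comp measurable_swap).sub (hsm.comp measurable_fst)
  have he : ∀ ω, ∫⁻ r in Ioc s u, ENNReal.ofReal (Θ (W r ω - W s ω)) =
      ∫⁻ r in Ioc s u, ENNReal.ofReal (Θ (W (max r 0) ω - W s ω)) := by
    intro ω
    apply setLIntegral_congr_fun measurableSet_Ioc
    intro r hr
    have : max r 0 = r := max_eq_left (by have := hr.1; linarith)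
    simp only [this]
  simp_rw [he]
  constructor
  · exact hm.lintegral_prod_right'
  · rw [lintegral_lintegral_swap (f := fun ω r => ENNReal.ofReal (Θ (W (max r 0) ω - W s ω))) hm.aemeasurable]
    calc ∫⁻ r in Ioc s u, (∫⁻ ω, ENNReal.ofReal (Θ (W (max r 0) ω - W s ω)) ∂P)
        ≤ ∫⁻ r in Ioc s u, M := by
          apply setLIntegral_mono measurable_const
          intro r hr
          have : max r 0 = r := max_eq_left (by have := hr.1; linarith)
          rw [this]
          exact hM r hr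
      _ = M * ENNReal.ofReal (u - s) := by
          rw [setLIntegral_const, Real.volume_Ioc]

theorem mom1_9733 (hW : FBM P F T W) (K δ : ℝ) (hK : 0 ≤ K) (s r : ℝ) (hs : 0 ≤ s) (hsr : s ≤ r) (hr : r ≤ T)
    (hδ : r - s ≤ δ) :
    ∫⁻ ω, ENNReal.ofReal (K * (δ + |W r ω - W s ω|)) ∂P ≤ ENNReal.ofReal (K * (δ + √δ)) := by
  have hδ0 : 0 ≤ δ := by linarith
  have hi : Integrable (fun ω => |W r ω - W s ω|) P := by
    have := inc_int P F T W hW s r hs hsr hr 1
    simpa using this
  have hi2 : Integrable (fun ω => K * (δ + |W r ω - W s ω|)) P := ((integrable_const δ).add hi).const_mul K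
  rw [← ofReal_integral_eq_lintegral_ofReal hi2 (Filter.Eventually.of_forall fun ω => by
    have := abs_nonneg (W r ω - W s ω)
    positivity)]
  apply ENNReal.ofReal_le_ofReal
  rw [integral_const_mul, integral_add (integrable_const δ) hi, integral_const]
  simp only [probReal_univ, smul_eq_mul, one_mul]
  apply mul_le_mul_of_nonneg_left _ hK
  have h1 := (inc_mom P F T W hW s r hs hsr hr).1
  have h2 : √(r - s) ≤ √δ := Real.sqrt_le_sqrt hδ
  linarith

theorem mom2_9733 (hW : FBM P F T W) (K δ : ℝ) (hK : 0 ≤ K) (s r : ℝ) (hs : 0 ≤ s) (hsr : s ≤ r) (hr : r ≤ T)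
    (hδ : r - s ≤ δ) :
    ∫⁻ ω, ENNReal.ofReal (K * (δ ^ 2 + (W r ω - W s ω) ^ 2)) ∂P ≤ ENNReal.ofReal (K * (δ ^ 2 + δ)) := by
  have hi : Integrable (fun ω => (W r ω - W s ω) ^ 2) P := by
    have := inc_int P F T W hW s r hs hsr hr 2
    simpa using this
  have hi2 : Integrable (fun ω => K * (δ ^ 2 + (W r ω - W s ω) ^ 2)) P :=
    ((integrable_const (δ ^ 2)).add hi).const_mul K
  rw [← ofReal_integral_eq_lintegral_ofReal hi2 (Filter.Eventually.of_forall fun ω => by positivity)]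
  apply ENNReal.ofReal_le_ofReal
  rw [integral_const_mul, integral_add (integrable_const (δ ^ 2)) hi, integral_const]
  simp only [probReal_univ, smul_eq_mul, one_mul]
  apply mul_le_mul_of_nonneg_left _ hK
  have h1 := (inc_mom P F T W hW s r hs hsr hr).2.1
  linarith

theorem sum_9733 (N : ℕ) (hN : 0 < N) (L x : ℝ) (hL : 0 ≤ L) (hx : 0 ≤ x) :
    ∑ _k ∈ Finset.range N, ENNReal.ofReal x * ENNReal.ofReal (L / N) = ENNReal.ofReal (L * x) := by
  rw [Finset.sum_const, Finset.card_range, nsmul_eq_mul, ← ENNReal.ofReal_mul hx]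
  have : (N : ℝ≥0∞) = ENNReal.ofReal (N : ℝ) := by simp
  rw [this, ← ENNReal.ofReal_mul (Nat.cast_nonneg _)]
  congr 1
  have : (N : ℝ) ≠ 0 := by positivity
  field_simp

theorem euler_drift (hW : FBM P F T W) (g : ℝ) (G G1 : ℝ → ℝ) (hG : ODE g G G1) (a b' b c : ℝ)
    (ha : 0 ≤ a) (hab : a ≤ b') (hb : b' < b) (hbT : b ≤ T) :
    ∃ K : ℝ, 0 ≤ K ∧ ∀ N : ℕ, 0 < N → ∀ t ∈ Icc a b',
      Integrable (fun ω => (∫ r in a..t, (fd G1 b c r (W r ω - W a ω)) ^ 2)
        - ∑ k ∈ Finset.range N, (fd G1 b c (grid a b' N k) (W (grid a b' N k) ω - W a ω)) ^ 2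
          * (min (grid a b' N (k + 1)) t - min (grid a b' N k) t)) P ∧
      ∫ ω, |(∫ r in a..t, (fd G1 b c r (W r ω - W a ω)) ^ 2)
        - ∑ k ∈ Finset.range N, (fd G1 b c (grid a b' N k) (W (grid a b' N k) ω - W a ω)) ^ 2
          * (min (grid a b' N (k + 1)) t - min (grid a b' N k) t)| ∂P ≤ K / √N := by
  obtain ⟨C, hC0, hC⟩ := fd_bd g G G1 hG a b' b c hb
  obtain ⟨L, hL0, hL⟩ := fd_lip g G G1 hG a b' b c hb
  have hfm := fd_meas g G G1 hG b c
  have ham : Measurable (W a) := (hW.adap _ ha).mono (hW.le _) le_rfl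
  refine ⟨(b' - a) * (2 * C * L * ((b' - a) + √(b' - a))), by
    have : 0 ≤ b' - a := by linarith
    positivity, ?_⟩
  intro N hN t ht
  set s := grid a b' N with hs
  have hsm : Monotone s := grid_mono_9733 a b' hab N
  have hs0 : s 0 = a := grid_zero_9733 a b' N
  have hsN : s N = b' := grid_last_9733 a b' N hN
  have hsk : ∀ k ≤ N, s k ∈ Icc a b' := fun k hk => grid_mem_9733 a b' hab N hN k hk
  set δ := (b' - a) / N with hδ
  have hδ0 : 0 ≤ δ := div_nonneg (by linarith) (Nat.cast_nonneg _)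
  have hss : ∀ k, s (k + 1) = s k + δ := grid_succ_9733 a b' N
  -- measurability of the integral
  have hmI : Measurable (fun ω => ∫ r in a..t, (fd G1 b c r (W r ω - W a ω)) ^ 2) := by
    have he : ∀ ω, ∫ r in a..t, (fd G1 b c r (W r ω - W a ω)) ^ 2 =
        ∫ r in Ioc a t, (fd G1 b c r (W (max r 0) ω - W a ω)) ^ 2 := by
      intro ω
      rw [intervalIntegral.integral_of_le ht.1]
      apply setIntegral_congr_fun measurableSet_Ioc
      intro r hr
      have : max r 0 = r := max_eq_left (by have := hr.1; linarith)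
      simp only [this]
    simp_rw [he]
    have hm01 : Measurable (fun p : Ω × ℝ => W (max p.2 0) p.1) :=
      (W_meas_9733 P F T W hW).comp measurable_swap
    have hm02 : Measurable (fun p : Ω × ℝ => W a p.1) := ham.comp measurable_fst
    have hm03 : Measurable (fun p : Ω × ℝ => W (max p.2 0) p.1 - W a p.1) := hm01.sub hm02
    have hm04 : Measurable (fun p : Ω × ℝ => p.2) := measurable_snd
    have hm1 : Measurable (fun p : Ω × ℝ => ((p.2, W (max p.2 0) p.1 - W a p.1) : ℝ × ℝ)) :=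
      hm04.prodMk hm03
    have hm2 := Measurable.comp hfm hm1
    simp only [Function.comp_def] at hm2
    have hm := hm2.pow_const 2
    exact (hm.stronglyMeasurable.integral_prod_right' (ν := volume.restrict (Ioc a t))).measurable
  have hbd : ∀ r ∈ Icc a b', ∀ w, (fd G1 b c r w) ^ 2 ≤ C ^ 2 := by
    intro r hr w
    have := (hC r hr w).1
    rw [← sq_abs]
    exact pow_le_pow_left₀ (abs_nonneg _) this 2
  have hint : ∀ ω, ∀ u v, a ≤ u → u ≤ v → v ≤ b' →
      IntervalIntegrable (fun r => (fd G1 b c r (W r ω - W a ω)) ^ 2) volume u v := by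
    intro ω u v hu huv hv
    rw [intervalIntegrable_iff_integrableOn_Ioc_of_le huv]
    have hm1 : Measurable (fun r : ℝ => ((r, W r ω - W a ω) : ℝ × ℝ)) :=
      measurable_id.prodMk ((hW.cont ω).measurable.sub measurable_const)
    have hm2 := Measurable.comp hfm hm1
    simp only [Function.comp_def] at hm2
    have hm := hm2.pow_const 2
    refine Measure.integrableOn_of_bounded (M := C ^ 2) (by simp) hm.aestronglyMeasurable ?_
    · rw [ae_restrict_iff' measurableSet_Ioc]
      filter_upwards with r hr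
      rw [Real.norm_of_nonneg (sq_nonneg _)]
      exact hbd r ⟨by linarith [hr.1], by linarith [hr.2]⟩ _
  have hmη : ∀ k < N, Measurable (fun ω => (fd G1 b c (s k) (W (s k) ω - W a ω)) ^ 2) := by
    intro k hk
    have h0 : 0 ≤ s k := ha.trans (hsk k hk.le).1
    have hm1 : Measurable (fun ω => ((s k, W (s k) ω - W a ω) : ℝ × ℝ)) :=
      measurable_const.prodMk (((hW.adap _ h0).mono (hW.le _) le_rfl).sub ham)
    have hm2 := Measurable.comp hfm hm1
    simp only [Function.comp_def] at hm2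
    exact hm2.pow_const 2
  have hI1 : Integrable (fun ω => ∫ r in a..t, (fd G1 b c r (W r ω - W a ω)) ^ 2) P := by
    apply Integrable.of_bound hmI.aestronglyMeasurable (C ^ 2 * |t - a|)
    filter_upwards with ω
    apply intervalIntegral.norm_integral_le_of_norm_le_const
    intro r hr
    rw [uIoc_of_le ht.1] at hr
    rw [Real.norm_of_nonneg (sq_nonneg _)]
    exact hbd r ⟨hr.1.le, hr.2.trans ht.2⟩ _
  have hI2 : Integrable (fun ω => ∑ k ∈ Finset.range N, (fd G1 b c (s k) (W (s k) ω - W a ω)) ^ 2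
          * (min (s (k + 1)) t - min (s k) t)) P := by
    apply integrable_finsetSum
    intro k hk
    rw [Finset.mem_range] at hk
    apply Integrable.mul_const
    apply Integrable.of_bound (hmη k hk).aestronglyMeasurable (C ^ 2)
    filter_upwards with ω
    rw [Real.norm_of_nonneg (sq_nonneg _)]
    exact hbd _ (hsk k hk.le) _
  refine ⟨hI1.sub hI2, ?_⟩
  -- the pointwise identity
  set X : Ω → ℝ := fun ω => (∫ r in a..t, (fd G1 b c r (W r ω - W a ω)) ^ 2)
        - ∑ k ∈ Finset.range N, (fd G1 b c (s k) (W (s k) ω - W a ω)) ^ 2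
          * (min (s (k + 1)) t - min (s k) t) with hX
  have hXi : Integrable X P := hI1.sub hI2
  let Θ : ℝ → ℝ := fun x => (2 * C * L) * (δ + |x|)
  have hΘ : Measurable Θ := by
    show Measurable (fun x : ℝ => (2 * C * L) * (δ + |x|))
    fun_prop
  have hminmem : ∀ k ≤ N, min (s k) t ∈ Icc a b' := fun k hk =>
    ⟨le_min (hsk k hk).1 ht.1, (min_le_right _ _).trans ht.2⟩
  have hminmono : ∀ k, min (s k) t ≤ min (s (k + 1)) t := fun k => min_le_min_right _ (hsm (Nat.le_succ k))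
  have hXsum : ∀ ω, X ω = ∑ k ∈ Finset.range N, ∫ r in (min (s k) t)..(min (s (k + 1)) t),
      ((fd G1 b c r (W r ω - W a ω)) ^ 2 - (fd G1 b c (s k) (W (s k) ω - W a ω)) ^ 2) := by
    intro ω
    have h1 := intervalIntegral.sum_integral_adjacent_intervals
      (f := fun r => (fd G1 b c r (W r ω - W a ω)) ^ 2) (μ := volume) (a := fun k => min (s k) t) (n := N)
      (fun k hk => hint ω _ _ (hminmem k hk.le).1 (hminmono k) (hminmem (k + 1) hk).2)
    have e0 : min (s 0) t = a := by rw [hs0]; exact min_eq_left ht.1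
    have eN : min (s N) t = t := by rw [hsN]; exact min_eq_right ht.2
    simp only [e0, eN] at h1
    rw [hX]
    simp only
    rw [← h1, ← Finset.sum_sub_distrib]
    refine Finset.sum_congr rfl fun k hk => ?_
    rw [Finset.mem_range] at hk
    rw [intervalIntegral.integral_sub (hint ω _ _ (hminmem k hk.le).1 (hminmono k) (hminmem (k + 1) hk).2)
      intervalIntegrable_const, intervalIntegral.integral_const, smul_eq_mul, mul_comm]
  have hXle : ∀ ω, ‖X ω‖ₑ ≤ ∑ k ∈ Finset.range N, ∫⁻ r in Ioc (s k) (s (k + 1)),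
      ENNReal.ofReal (Θ (W r ω - W (s k) ω)) := by
    intro ω
    rw [hXsum]
    refine (enorm_sum_le _ _).trans (Finset.sum_le_sum fun k hk => ?_)
    rw [Finset.mem_range] at hk
    rw [intervalIntegral.integral_of_le (hminmono k)]
    refine (enorm_integral_le_lintegral_enorm _).trans ?_
    have hsub : Ioc (min (s k) t) (min (s (k + 1)) t) ⊆ Ioc (s k) (s (k + 1)) := by
      rintro r ⟨hr1, hr2⟩
      have h3 := le_min_iff.1 hr2
      rcases min_lt_iff.1 hr1 with h | h
      · exact ⟨h, h3.1⟩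
      · exact absurd h3.2 (not_le.2 h)
    refine (lintegral_mono_set hsub).trans ?_
    apply setLIntegral_mono' measurableSet_Ioc
    intro r hr
    rw [Real.enorm_eq_ofReal_abs]
    apply ENNReal.ofReal_le_ofReal
    show _ ≤ (2 * C * L) * (δ + |W r ω - W (s k) ω|)
    have hrm : r ∈ Icc a b' := ⟨(hsk k hk.le).1.trans hr.1.le, hr.2.trans (hsk (k + 1) hk).2⟩
    have h4 := hL (s k) (hsk k hk.le) r hrm (W (s k) ω - W a ω) (W r ω - W a ω)
    have h5 : |r - s k| ≤ δ := by
      rw [abs_of_nonneg (by linarith [hr.1])]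
      have := hr.2
      rw [hss] at this
      linarith
    have h6 : W r ω - W a ω - (W (s k) ω - W a ω) = W r ω - W (s k) ω := by ring
    rw [h6] at h4
    have h7 := (hC r hrm (W r ω - W a ω)).1
    have h8 := (hC (s k) (hsk k hk.le) (W (s k) ω - W a ω)).1
    have h9 : (fd G1 b c r (W r ω - W a ω)) ^ 2 - (fd G1 b c (s k) (W (s k) ω - W a ω)) ^ 2 =
      (fd G1 b c r (W r ω - W a ω) + fd G1 b c (s k) (W (s k) ω - W a ω)) *
      (fd G1 b c r (W r ω - W a ω) - fd G1 b c (s k) (W (s k) ω - W a ω)) := by ring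
    rw [h9, abs_mul]
    have h10 : |fd G1 b c r (W r ω - W a ω) + fd G1 b c (s k) (W (s k) ω - W a ω)| ≤ 2 * C :=
      (abs_add_le _ _).trans (by linarith)
    have h11 : |fd G1 b c r (W r ω - W a ω) - fd G1 b c (s k) (W (s k) ω - W a ω)| ≤
        L * (δ + |W r ω - W (s k) ω|) := h4.trans (mul_le_mul_of_nonneg_left (by linarith) hL0)
    calc _ ≤ (2 * C) * (L * (δ + |W r ω - W (s k) ω|)) :=
          mul_le_mul h10 h11 (abs_nonneg _) (by positivity)
      _ = _ := by ring
  have hMk : ∀ k < N, Measurable (fun ω => ∫⁻ r in Ioc (s k) (s (k + 1)), ENNReal.ofReal (Θ (W r ω - W (s k) ω))) ∧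
      ∫⁻ ω, (∫⁻ r in Ioc (s k) (s (k + 1)), ENNReal.ofReal (Θ (W r ω - W (s k) ω))) ∂P ≤
        ENNReal.ofReal (2 * C * L * (δ + √δ)) * ENNReal.ofReal ((b' - a) / N) := by
    intro k hk
    have h0 : 0 ≤ s k := ha.trans (hsk k hk.le).1
    have h1 := swap_9733 P F T W hW Θ hΘ (s k) (s (k + 1)) h0 (ENNReal.ofReal (2 * C * L * (δ + √δ)))
      (fun r hr => by
        apply mom1_9733 P F T W hW (2 * C * L) δ (by positivity) (s k) r h0 hr.1.le
        · have := (hsk (k + 1) hk).2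
          linarith [hr.2]
        · have := hr.2
          rw [hss] at this
          linarith)
    have h2 : s (k + 1) - s k = (b' - a) / N := by rw [hss, hδ]; ring
    rw [h2] at h1
    exact h1
  have hlin : ∫⁻ ω, ‖X ω‖ₑ ∂P ≤ ENNReal.ofReal ((b' - a) * (2 * C * L * (δ + √δ))) := by
    refine (lintegral_mono hXle).trans ?_
    rw [lintegral_finsetSum' _ (fun k hk => (hMk k (Finset.mem_range.1 hk)).1.aemeasurable)]
    refine (Finset.sum_le_sum fun k hk => (hMk k (Finset.mem_range.1 hk)).2).trans ?_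
    rw [sum_9733 N hN (b' - a) _ (by linarith) (by positivity)]
  have hfin : ∫ ω, |X ω| ∂P ≤ (b' - a) * (2 * C * L * (δ + √δ)) := by
    have h1 : ∫ ω, |X ω| ∂P = (∫⁻ ω, ‖X ω‖ₑ ∂P).toReal := by
      rw [← integral_norm_eq_lintegral_enorm hXi.aestronglyMeasurable]
      rfl
    rw [h1]
    apply ENNReal.toReal_le_of_le_ofReal
    · have : 0 ≤ b' - a := by linarith
      positivity
    · exact hlin
  refine hfin.trans ?_
  have hN1 : (1 : ℝ) ≤ N := by exact_mod_cast hN
  have hsN : 0 < √(N : ℝ) := Real.sqrt_pos.2 (by linarith)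
  have hba : 0 ≤ b' - a := by linarith
  have h1 : δ ≤ (b' - a) / √N := by
    rw [hδ]
    apply div_le_div_of_nonneg_left hba hsN
    rw [Real.sqrt_le_left (by linarith)]
    nlinarith
  have h2 : √δ = √(b' - a) / √N := by
    rw [hδ, Real.sqrt_div hba]
  have h3 : δ + √δ ≤ ((b' - a) + √(b' - a)) / √N := by
    rw [h2, add_div]
    linarith
  calc (b' - a) * (2 * C * L * (δ + √δ)) ≤ (b' - a) * (2 * C * L * (((b' - a) + √(b' - a)) / √N)) := by
        apply mul_le_mul_of_nonneg_left _ hba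
        exact mul_le_mul_of_nonneg_left h3 (by positivity)
    _ = _ := by ring

theorem euler_l2 (hW : FBM P F T W) (g : ℝ) (G G1 : ℝ → ℝ) (hG : ODE g G G1) (a b' b c : ℝ)
    (ha : 0 ≤ a) (hab : a < b') (hb : b' < b) (hbT : b ≤ T) :
    ∃ K : ℝ, 0 ≤ K ∧ ∀ N : ℕ, 0 < N →
      ∫⁻ ω, (∫⁻ r in Icc a b', ENNReal.ofReal
        ((hval N (grid a b' N) (fun k ω => fd G1 b c (grid a b' N k) (W (grid a b' N k) ω - W a ω)) r ω
          - fd G1 b c r (W r ω - W a ω)) ^ 2)) ∂P ≤ ENNReal.ofReal (K / N) := by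
  obtain ⟨L, hL0, hL⟩ := fd_lip g G G1 hG a b' b c hb
  have hba : 0 < b' - a := by linarith
  refine ⟨(b' - a) * (2 * L ^ 2 * ((b' - a) ^ 2 + (b' - a))), by positivity, ?_⟩
  intro N hN
  set s := grid a b' N with hs
  have hsm : Monotone s := grid_mono_9733 a b' hab.le N
  have hs0 : s 0 = a := grid_zero_9733 a b' N
  have hsN : s N = b' := grid_last_9733 a b' N hN
  have hsk : ∀ k ≤ N, s k ∈ Icc a b' := fun k hk => grid_mem_9733 a b' hab.le N hN k hk
  set δ := (b' - a) / N with hδ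
  have hδ0 : 0 ≤ δ := div_nonneg (by linarith) (Nat.cast_nonneg _)
  have hss : ∀ k, s (k + 1) = s k + δ := grid_succ_9733 a b' N
  let Θ : ℝ → ℝ := fun x => (2 * L ^ 2) * (δ ^ 2 + x ^ 2)
  have hΘ : Measurable Θ := by
    show Measurable (fun x : ℝ => (2 * L ^ 2) * (δ ^ 2 + x ^ 2))
    fun_prop
  have hpt : ∀ ω, ∫⁻ r in Icc a b', ENNReal.ofReal
        ((hval N s (fun k ω => fd G1 b c (s k) (W (s k) ω - W a ω)) r ω
          - fd G1 b c r (W r ω - W a ω)) ^ 2) ≤ ∑ k ∈ Finset.range N, ∫⁻ r in Ioc (s k) (s (k + 1)),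
      ENNReal.ofReal (Θ (W r ω - W (s k) ω)) := by
    intro ω
    rw [Measure.restrict_congr_set Ioc_ae_eq_Icc.symm]
    have hcov : Ioc a b' ⊆ ⋃ k : Fin N, Ioc (s k) (s (k + 1)) := by
      intro r hr
      obtain ⟨k, h1, h2, h3⟩ := grid_find_9733 s r (by rw [hs0]; exact hr.1) N (by rw [hsN]; exact hr.2)
      exact mem_iUnion.2 ⟨⟨k, h1⟩, h2, h3⟩
    refine (lintegral_mono_set hcov).trans ?_
    refine (lintegral_iUnion_le _ _).trans ?_
    rw [tsum_fintype, Finset.sum_range]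
    refine Finset.sum_le_sum fun k _ => ?_
    apply setLIntegral_mono' measurableSet_Ioc
    intro r hr
    apply ENNReal.ofReal_le_ofReal
    have hk : (k : ℕ) < N := k.2
    rw [hval_eq_9733 N s hsm _ r ω k hk hr.1 hr.2]
    show _ ≤ (2 * L ^ 2) * (δ ^ 2 + (W r ω - W (s k) ω) ^ 2)
    have hrm : r ∈ Icc a b' := ⟨(hsk k hk.le).1.trans hr.1.le, hr.2.trans (hsk (k + 1) hk).2⟩
    have h4 := hL (s k) (hsk k hk.le) r hrm (W (s k) ω - W a ω) (W r ω - W a ω)
    have h5 : |r - s k| ≤ δ := by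
      rw [abs_of_nonneg (by linarith [hr.1])]
      have := hr.2
      rw [hss] at this
      linarith
    have h6 : W r ω - W a ω - (W (s k) ω - W a ω) = W r ω - W (s k) ω := by ring
    rw [h6] at h4
    have h7 : |fd G1 b c r (W r ω - W a ω) - fd G1 b c (s k) (W (s k) ω - W a ω)| ≤
        L * (δ + |W r ω - W (s k) ω|) := h4.trans (mul_le_mul_of_nonneg_left (by linarith) hL0)
    have h8 : (fd G1 b c (s k) (W (s k) ω - W a ω) - fd G1 b c r (W r ω - W a ω)) ^ 2 ≤
        (L * (δ + |W r ω - W (s k) ω|)) ^ 2 := by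
      rw [← sq_abs, abs_sub_comm]
      exact pow_le_pow_left₀ (abs_nonneg _) h7 2
    refine h8.trans ?_
    have h9 : (δ + |W r ω - W (s k) ω|) ^ 2 ≤ 2 * (δ ^ 2 + (W r ω - W (s k) ω) ^ 2) := by
      have := sq_abs (W r ω - W (s k) ω)
      nlinarith [sq_nonneg (δ - |W r ω - W (s k) ω|)]
    calc (L * (δ + |W r ω - W (s k) ω|)) ^ 2 = L ^ 2 * (δ + |W r ω - W (s k) ω|) ^ 2 := by ring
      _ ≤ L ^ 2 * (2 * (δ ^ 2 + (W r ω - W (s k) ω) ^ 2)) := mul_le_mul_of_nonneg_left h9 (sq_nonneg _)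
      _ = _ := by ring
  have hMk : ∀ k < N, Measurable (fun ω => ∫⁻ r in Ioc (s k) (s (k + 1)), ENNReal.ofReal (Θ (W r ω - W (s k) ω))) ∧
      ∫⁻ ω, (∫⁻ r in Ioc (s k) (s (k + 1)), ENNReal.ofReal (Θ (W r ω - W (s k) ω))) ∂P ≤
        ENNReal.ofReal (2 * L ^ 2 * (δ ^ 2 + δ)) * ENNReal.ofReal ((b' - a) / N) := by
    intro k hk
    have h0 : 0 ≤ s k := ha.trans (hsk k hk.le).1
    have h1 := swap_9733 P F T W hW Θ hΘ (s k) (s (k + 1)) h0 (ENNReal.ofReal (2 * L ^ 2 * (δ ^ 2 + δ)))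
      (fun r hr => by
        apply mom2_9733 P F T W hW (2 * L ^ 2) δ (by positivity) (s k) r h0 hr.1.le
        · have := (hsk (k + 1) hk).2
          linarith [hr.2]
        · have := hr.2
          rw [hss] at this
          linarith)
    have h2 : s (k + 1) - s k = (b' - a) / N := by rw [hss, hδ]; ring
    rw [h2] at h1
    exact h1
  refine (lintegral_mono hpt).trans ?_
  rw [lintegral_finsetSum' _ (fun k hk => (hMk k (Finset.mem_range.1 hk)).1.aemeasurable)]
  refine (Finset.sum_le_sum fun k hk => (hMk k (Finset.mem_range.1 hk)).2).trans ?_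
  rw [sum_9733 N hN (b' - a) _ (by linarith) (by positivity)]
  apply ENNReal.ofReal_le_ofReal
  have hN1 : (1 : ℝ) ≤ N := by exact_mod_cast hN
  have hN0 : (0 : ℝ) < N := by linarith
  have h1 : δ ^ 2 ≤ (b' - a) ^ 2 / N := by
    rw [hδ, div_pow]
    apply div_le_div_of_nonneg_left (sq_nonneg _) hN0
    nlinarith
  have h3 : δ ^ 2 + δ ≤ ((b' - a) ^ 2 + (b' - a)) / N := by
    rw [add_div]
    linarith
  calc (b' - a) * (2 * L ^ 2 * (δ ^ 2 + δ)) ≤ (b' - a) * (2 * L ^ 2 * (((b' - a) ^ 2 + (b' - a)) / N)) := by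
        apply mul_le_mul_of_nonneg_left _ hba.le
        exact mul_le_mul_of_nonneg_left h3 (by positivity)
    _ = _ := by ring

end M

end Pool.Agent.Helper41.BS
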