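import Pool.Agent.Helper41.BS.Defs
import Pool.Agent.Helper41.BS.EulA
import Pool.Agent.Helper41.BS.EulB
import Pool.Agent.Helper41.BS.EndA
import Pool.Agent.Helper41.BS.EndB

set_option autoImplicit false

open scoped ENNReal NNReal Topology
open MeasureTheory ProbabilityTheory Set Filter

namespace Pool.Agent.Helper41.BS


/-! ## TARGETS: prove these (statements must not be changed; helper lemmas are welcome) -/

section M

variable {Ω : Type*} [mΩ : MeasurableSpace Ω] (P : Measure Ω) [IsProbabilityMeasure P] (F : ℝ → MeasurableSpace Ω) (T : ℝ) (W : ℝ → Ω → ℝ)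

theorem aux_grid_zero (a b : ℝ) (N : ℕ) : grid a b N 0 = a := by
  simp [grid]

theorem aux_grid_last (a b : ℝ) (N : ℕ) (hN : 0 < N) : grid a b N N = b := by
  have : (N : ℝ) ≠ 0 := by positivity
  unfold grid
  field_simp
  ring

theorem aux_grid_mono (a b : ℝ) (hab : a ≤ b) (N : ℕ) : Monotone (grid a b N) := by
  intro i j hij
  unfold grid
  have h1 : (i : ℝ) ≤ j := by exact_mod_cast hij
  have h2 : 0 ≤ b - a := by linarith
  gcongr

theorem block_lt (hW : FBM P F T W) (g : ℝ) (G G1 : ℝ → ℝ) (hG : ODE g G G1) (a b' b c : ℝ)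
    (ha : 0 ≤ a) (hab : a < b') (hb : b' < b) (hbT : b ≤ T) (ε : ℝ) (hε : 0 < ε) :
    ∃ (N : ℕ) (s : ℕ → ℝ) (η : ℕ → Ω → ℝ), Monotone s ∧ s 0 = a ∧ s N = b' ∧
      (∀ k, k < N → Measurable[F (s k)] (η k)) ∧ (∃ C : ℝ, ∀ k ω, |η k ω| ≤ C) ∧
      ∫⁻ ω, (∫⁻ r in Icc a b', ENNReal.ofReal ((hval N s η r ω - ZZ W G1 a b c r ω) ^ 2)) ∂P
        ≤ ENNReal.ofReal ε ∧
      ∀ t ∈ Icc a b', ∫⁻ ω, ENNReal.ofReal |hint N s η W t ω - MM W g G G1 a b c t ω| ∂P
        ≤ ENNReal.ofReal ε := by
  obtain ⟨K1, hK1, hI⟩ := euler_ito P F T W hW g G G1 hG a b' b c ha hab.le hb hbT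
  obtain ⟨K2, hK2, hD⟩ := euler_drift P F T W hW g G G1 hG a b' b c ha hab.le hb hbT
  obtain ⟨K3, hK3, hL⟩ := euler_l2 P F T W hW g G G1 hG a b' b c ha hab hb hbT
  obtain ⟨C, hC, hbd⟩ := fd_bd g G G1 hG a b' b c hb
  -- choice of N
  have l1 : Tendsto (fun N : ℕ => (K1 + |g| * K2) / √(N : ℝ)) atTop (𝓝 0) :=
    tendsto_const_nhds.div_atTop (Real.tendsto_sqrt_atTop.comp tendsto_natCast_atTop_atTop)
  have l2 : Tendsto (fun N : ℕ => K3 / (N : ℝ)) atTop (𝓝 0) :=
    tendsto_const_nhds.div_atTop tendsto_natCast_atTop_atTop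
  obtain ⟨N, hN1, hN2, hN⟩ := ((l1.eventually_le_const hε).and
    ((l2.eventually_le_const hε).and (eventually_gt_atTop 0))).exists
  have hmono := aux_grid_mono a b' hab.le N
  have hg0 := aux_grid_zero a b' N
  have hgN := aux_grid_last a b' N hN
  have hmem : ∀ k, k ≤ N → grid a b' N k ∈ Icc a b' := by
    intro k hk
    constructor
    · exact hg0.symm.le.trans (hmono (Nat.zero_le k))
    · exact (hmono hk).trans hgN.le
  have hgen : ∀ u, a ≤ u → Measurable[F u] (fun ω => fd G1 b c u (W u ω - W a ω)) := by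
    intro u hu
    have m1 : Measurable[F u] (W u) := hW.adap _ (ha.trans hu)
    have m2 : Measurable[F u] (W a) := (hW.adap a ha).mono (hW.mono hu) le_rfl
    have m3 : Measurable[F u] (fun ω => W u ω - W a ω) := m1.sub m2
    have m4 : Measurable[F u] (fun ω => ((u, W u ω - W a ω) : ℝ × ℝ)) :=
      Measurable.prodMk measurable_const m3
    have m5 := (fd_meas g G G1 hG b c).comp m4
    exact m5
  have hval_eq : ∀ r ω, hval N (grid a b' N) (fun k ω => if k < N then
      fd G1 b c (grid a b' N k) (W (grid a b' N k) ω - W a ω) else 0) r ω =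
      hval N (grid a b' N) (fun k ω =>
      fd G1 b c (grid a b' N k) (W (grid a b' N k) ω - W a ω)) r ω := by
    intro r ω
    unfold hval
    refine Finset.sum_congr rfl fun k hk => ?_
    simp only [Finset.mem_range.1 hk, if_true]
  have hint_eq : ∀ t ω, hint N (grid a b' N) (fun k ω => if k < N then
      fd G1 b c (grid a b' N k) (W (grid a b' N k) ω - W a ω) else 0) W t ω =
      hint N (grid a b' N) (fun k ω =>
      fd G1 b c (grid a b' N k) (W (grid a b' N k) ω - W a ω)) W t ω := by
    intro t ω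
    unfold hint
    refine Finset.sum_congr rfl fun k hk => ?_
    simp only [Finset.mem_range.1 hk, if_true]
  refine ⟨N, grid a b' N, fun k ω => if k < N then
    fd G1 b c (grid a b' N k) (W (grid a b' N k) ω - W a ω) else 0, hmono, hg0, hgN,
    ?_, ⟨C, ?_⟩, ?_, ?_⟩
  · intro k hk
    simp only [hk, if_true]
    exact hgen _ (hmem k hk.le).1
  · intro k ω
    by_cases hk : k < N
    · simp only [hk, if_true]
      exact (hbd _ (hmem k hk.le) _).1
    · simp only [hk, if_false, abs_zero]
      exact hC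
  · refine le_trans (le_of_eq ?_) ((hL N hN).trans (ENNReal.ofReal_le_ofReal hN2))
    refine lintegral_congr fun ω => ?_
    refine lintegral_congr_ae ?_
    have hne : ∀ᵐ r ∂(volume.restrict (Icc a b')), r ≠ a := by
      refine ae_restrict_of_ae ?_
      exact (measure_eq_zero_iff_ae_notMem.1 (measure_singleton a)).mono (fun r hr h => hr h)
    filter_upwards [ae_restrict_mem measurableSet_Icc, hne] with r hr hra
    rw [hval_eq]
    have : ZZ W G1 a b c r ω = fd G1 b c r (W r ω - W a ω) := by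
      unfold ZZ
      rw [if_pos ⟨lt_of_le_of_ne hr.1 (Ne.symm hra), hr.2.trans_lt hb⟩]
    rw [this]
  · intro t ht
    obtain ⟨iA, bA⟩ := hI N hN t ht
    obtain ⟨iB, bB⟩ := hD N hN t ht
    set A : Ω → ℝ := fun ω => fF G b c t (W t ω - W a ω) - fF G b c a 0
        - hint N (grid a b' N) (fun k ω => fd G1 b c (grid a b' N k) (W (grid a b' N k) ω - W a ω)) W t ω
        + g * ∑ k ∈ Finset.range N, (fd G1 b c (grid a b' N k) (W (grid a b' N k) ω - W a ω)) ^ 2
          * (min (grid a b' N (k + 1)) t - min (grid a b' N k) t) with hA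
    set B : Ω → ℝ := fun ω => (∫ r in a..t, (fd G1 b c r (W r ω - W a ω)) ^ 2)
        - ∑ k ∈ Finset.range N, (fd G1 b c (grid a b' N k) (W (grid a b' N k) ω - W a ω)) ^ 2
          * (min (grid a b' N (k + 1)) t - min (grid a b' N k) t) with hB
    have htb : t < b := ht.2.trans_lt hb
    have key : ∀ ω, hint N (grid a b' N) (fun k ω => if k < N then
        fd G1 b c (grid a b' N k) (W (grid a b' N k) ω - W a ω) else 0) W t ω -
        MM W g G G1 a b c t ω = -(A ω) - g * B ω := by
      intro ω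
      rw [hint_eq]
      have e1 : pp W a b c t ω = Phi (uu b c t (W t ω - W a ω)) := by
        unfold pp
        rw [if_pos htb, max_eq_left ht.1]
      have e2 : ∫ r in (0:ℝ)..t, (ZZ W G1 a b c r ω) ^ 2 =
          ∫ r in a..t, (fd G1 b c r (W r ω - W a ω)) ^ 2 := by
        have z1 : ∀ r ∈ Ioc 0 a, (ZZ W G1 a b c r ω) ^ 2 = 0 := by
          intro r hr
          unfold ZZ
          rw [if_neg (fun h => not_lt.2 hr.2 h.1)]
          norm_num
        have z2 : ∀ r ∈ Ioc a t, (ZZ W G1 a b c r ω) ^ 2 =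
            (fd G1 b c r (W r ω - W a ω)) ^ 2 := by
          intro r hr
          unfold ZZ
          rw [if_pos ⟨hr.1, hr.2.trans_lt htb⟩]
        rw [intervalIntegral.integral_of_le (ha.trans ht.1), intervalIntegral.integral_of_le ht.1]
        rw [← setIntegral_congr_fun measurableSet_Ioc z2]
        apply setIntegral_eq_of_subset_of_forall_sdiff_eq_zero measurableSet_Ioc
          (Ioc_subset_Ioc_left ha)
        intro r hr
        apply z1 r
        refine ⟨hr.1.1, ?_⟩
        by_contra hcon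
        exact hr.2 ⟨not_le.1 hcon, hr.1.2⟩
      unfold MM
      rw [e1, e2, hA, hB]
      simp only [fF]
      ring
    have iA' : Integrable (fun ω => |A ω|) P := iA.abs
    have iB' : Integrable (fun ω => |g| * |B ω|) P := iB.abs.const_mul _
    calc ∫⁻ ω, ENNReal.ofReal |hint N (grid a b' N) (fun k ω => if k < N then
        fd G1 b c (grid a b' N k) (W (grid a b' N k) ω - W a ω) else 0) W t ω -
        MM W g G G1 a b c t ω| ∂P
        ≤ ∫⁻ ω, ENNReal.ofReal (|A ω| + |g| * |B ω|) ∂P := by
          refine lintegral_mono fun ω => ENNReal.ofReal_le_ofReal ?_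
          rw [key ω]
          calc |-(A ω) - g * B ω| ≤ |-(A ω)| + |g * B ω| := abs_sub _ _
            _ = |A ω| + |g| * |B ω| := by rw [abs_neg, abs_mul]
      _ = ENNReal.ofReal (∫ ω, (|A ω| + |g| * |B ω|) ∂P) := by
          have iS : Integrable (fun ω => |A ω| + |g| * |B ω|) P := iA'.add iB'
          exact (ofReal_integral_eq_lintegral_ofReal iS (ae_of_all _ fun ω => by
            show 0 ≤ |A ω| + |g| * |B ω|
            positivity)).symm
      _ ≤ ENNReal.ofReal ε := by
          apply ENNReal.ofReal_le_ofReal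
          rw [integral_add iA' iB', integral_const_mul]
          refine le_trans ?_ hN1
          have h1 : |g| * ∫ ω, |B ω| ∂P ≤ |g| * (K2 / √N) :=
            mul_le_mul_of_nonneg_left bB (abs_nonneg _)
          have h2 : (K1 + |g| * K2) / √(N : ℝ) = K1 / √N + |g| * (K2 / √N) := by ring
          rw [h2]
          exact add_le_add bA h1

end M

end Pool.Agent.Helper41.BS
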