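import Pool.Agent.Helper41.BS.Defs
import Pool.Agent.Helper41.BS.BlkA

set_option autoImplicit false

open scoped ENNReal NNReal Topology
open MeasureTheory ProbabilityTheory Set Filter

namespace Pool.Agent.Helper41.BS


/-! ## TARGETS: prove these (statements must not be changed; helper lemmas are welcome) -/

section M

variable {Ω : Type*} [mΩ : MeasurableSpace Ω] (P : Measure Ω) [IsProbabilityMeasure P] (F : ℝ → MeasurableSpace Ω) (T : ℝ) (W : ℝ → Ω → ℝ)

omit mΩ in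
lemma h399_hval_le {N : ℕ} {s : ℕ → ℝ} (η : ℕ → Ω → ℝ) (hs : Monotone s) {r : ℝ}
    (hr : r ≤ s 0) (ω : Ω) : hval N s η r ω = 0 := by
  unfold hval
  refine Finset.sum_eq_zero fun k _ => if_neg fun h => ?_
  have := hs (Nat.zero_le k)
  linarith [h.1]

omit mΩ in
lemma h399_hval_gt {N : ℕ} {s : ℕ → ℝ} (η : ℕ → Ω → ℝ) (hs : Monotone s) {r : ℝ}
    (hr : s N < r) (ω : Ω) : hval N s η r ω = 0 := by
  unfold hval
  refine Finset.sum_eq_zero fun k hk => if_neg fun h => ?_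
  have := hs (Nat.succ_le_of_lt (Finset.mem_range.1 hk))
  linarith [h.2]

omit mΩ in
lemma h399_ZZ_zero {G1 : ℝ → ℝ} {a b c r : ℝ} (h : r ≤ a ∨ b ≤ r) (ω : Ω) :
    ZZ W G1 a b c r ω = 0 := by
  unfold ZZ
  refine if_neg fun h' => ?_
  rcases h with h | h
  · linarith [h'.1]
  · linarith [h'.2]

omit mΩ in
lemma h399_l2 {N : ℕ} {s : ℕ → ℝ} (η : ℕ → Ω → ℝ) (G1 : ℝ → ℝ) {a b' b : ℝ} (c : ℝ)
    (hs : Monotone s) (hs0 : s 0 = a) (hsN : s N = b') (ω : Ω) :
    ∫⁻ r in Icc 0 T, ENNReal.ofReal ((hval N s η r ω - ZZ W G1 a b c r ω) ^ 2) ≤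
      (∫⁻ r in Icc a b', ENNReal.ofReal ((hval N s η r ω - ZZ W G1 a b c r ω) ^ 2)) +
        ∫⁻ r in Icc b' b, ENNReal.ofReal ((ZZ W G1 a b c r ω) ^ 2) := by
  have h1 : ∫⁻ r, ENNReal.ofReal ((hval N s η r ω - ZZ W G1 a b c r ω) ^ 2) =
      ∫⁻ r in (Icc a b' ∪ Ioo b' b), ENNReal.ofReal ((hval N s η r ω - ZZ W G1 a b c r ω) ^ 2) := by
    rw [← lintegral_indicator (measurableSet_Icc.union measurableSet_Ioo)]
    refine lintegral_congr fun r => ?_
    by_cases hr : r ∈ Icc a b' ∪ Ioo b' b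
    · rw [indicator_of_mem hr]
    · rw [indicator_of_notMem hr]
      have h2 : hval N s η r ω = 0 ∧ ZZ W G1 a b c r ω = 0 := by
        rcases lt_or_ge r a with h | h
        · exact ⟨h399_hval_le η hs (by rw [hs0]; exact h.le) ω, h399_ZZ_zero W (Or.inl h.le) ω⟩
        · rcases le_or_gt r b' with h' | h'
          · exact absurd (Or.inl ⟨h, h'⟩) hr
          · refine ⟨h399_hval_gt η hs (by rw [hsN]; exact h') ω, h399_ZZ_zero W (Or.inr ?_) ω⟩
            by_contra h''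
            push Not at h''
            exact hr (Or.inr ⟨h', h''⟩)
      rw [h2.1, h2.2]
      simp
  calc _ ≤ ∫⁻ r, ENNReal.ofReal ((hval N s η r ω - ZZ W G1 a b c r ω) ^ 2) :=
        setLIntegral_le_lintegral _ _
    _ = _ := h1
    _ ≤ _ := lintegral_union_le _ _ _
    _ ≤ _ := by
      refine add_le_add le_rfl ?_
      have h3 : ∫⁻ r in Ioo b' b, ENNReal.ofReal ((hval N s η r ω - ZZ W G1 a b c r ω) ^ 2) =
          ∫⁻ r in Ioo b' b, ENNReal.ofReal ((ZZ W G1 a b c r ω) ^ 2) := by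
        refine setLIntegral_congr_fun measurableSet_Ioo fun r hr => ?_
        rw [h399_hval_gt η hs (by rw [hsN]; exact hr.1) ω]
        ring_nf
      rw [h3]
      exact lintegral_mono_set Ioo_subset_Icc_self

omit mΩ in
lemma h399_hint_lt {N : ℕ} {s : ℕ → ℝ} (η : ℕ → Ω → ℝ) {t : ℝ}
    (hs : Monotone s) (hs0 : t ≤ s 0) (ω : Ω) : hint N s η W t ω = 0 := by
  unfold hint
  refine Finset.sum_eq_zero fun k _ => ?_
  have h1 := hs (Nat.zero_le k)
  have h2 := hs (Nat.zero_le (k + 1))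
  rw [min_eq_right (hs0.trans h1), min_eq_right (hs0.trans h2), sub_self, mul_zero]

omit mΩ in
lemma h399_hint_ge {N : ℕ} {s : ℕ → ℝ} (η : ℕ → Ω → ℝ) {t b' : ℝ}
    (hs : Monotone s) (hsN : s N = b') (ht : b' ≤ t) (ω : Ω) :
    hint N s η W t ω = hint N s η W b' ω := by
  unfold hint
  refine Finset.sum_congr rfl fun k hk => ?_
  rw [Finset.mem_range] at hk
  have h1 : s k ≤ b' := by rw [← hsN]; exact hs hk.le
  have h2 : s (k + 1) ≤ b' := by rw [← hsN]; exact hs (Nat.succ_le_of_lt hk)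
  rw [min_eq_left (h1.trans ht), min_eq_left (h2.trans ht), min_eq_left h1, min_eq_left h2]

lemma h399_G_meas {g : ℝ} {G G1 : ℝ → ℝ} (hG : ODE g G G1) {f : Ω → ℝ} (hf : Measurable f)
    (hf1 : ∀ ω, f ω ∈ Icc (0:ℝ) 1) : Measurable (fun ω => G (f ω)) := by
  have hGc : ContinuousOn G (Icc 0 1) := fun x hx => (hG.h0 x hx).continuousAt.continuousWithinAt
  have h1 : Continuous (fun x : ℝ => G (max 0 (min 1 x))) := by
    refine hGc.comp_continuous (by fun_prop) fun x => ?_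
    exact ⟨le_max_left _ _, max_le zero_le_one (min_le_left _ _)⟩
  have h2 : (fun ω => G (f ω)) = fun ω => G (max 0 (min 1 (f ω))) := by
    funext ω
    rw [min_eq_right (hf1 ω).2, max_eq_right (hf1 ω).1]
  rw [h2]
  exact h1.measurable.comp hf

omit mΩ in
/-- the pointwise estimate after time `b'` -/
lemma h399_ptw {N : ℕ} {s : ℕ → ℝ} (η : ℕ → Ω → ℝ) (g : ℝ) (G G1 : ℝ → ℝ) {a b' b t : ℝ} (c : ℝ)
    (hs : Monotone s) (hsN : s N = b') (ht : b' ≤ t) (ω : Ω)
    (hm : Measurable (fun r => ZZ W G1 a b c r ω))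
    (hfin : ∫⁻ r, ENNReal.ofReal ((ZZ W G1 a b c r ω) ^ 2) < ⊤) :
    ENNReal.ofReal |hint N s η W t ω - MM W g G G1 a b c t ω| ≤
      ENNReal.ofReal |hint N s η W b' ω - MM W g G G1 a b c b' ω| +
      (ENNReal.ofReal |G (pp W a b c t ω) - G (pp W a b c b' ω)| +
        ENNReal.ofReal |g| * ∫⁻ r in Icc b' b, ENNReal.ofReal ((ZZ W G1 a b c r ω) ^ 2)) := by
  have hint' : Integrable (fun r => (ZZ W G1 a b c r ω) ^ 2) := by
    refine ⟨(hm.pow_const 2).aestronglyMeasurable, ?_⟩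
    rw [hasFiniteIntegral_iff_ofReal (Eventually.of_forall fun r => sq_nonneg _)]
    exact hfin
  have hsub : (∫ r in (0:ℝ)..t, (ZZ W G1 a b c r ω) ^ 2) -
      ∫ r in (0:ℝ)..b', (ZZ W G1 a b c r ω) ^ 2 = ∫ r in b'..t, (ZZ W G1 a b c r ω) ^ 2 :=
    intervalIntegral.integral_interval_sub_left hint'.intervalIntegrable hint'.intervalIntegrable
  have hI0 : 0 ≤ ∫ r in b'..t, (ZZ W G1 a b c r ω) ^ 2 :=
    intervalIntegral.integral_nonneg ht fun r _ => sq_nonneg _
  have hI : ENNReal.ofReal (∫ r in b'..t, (ZZ W G1 a b c r ω) ^ 2) ≤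
      ∫⁻ r in Icc b' b, ENNReal.ofReal ((ZZ W G1 a b c r ω) ^ 2) := by
    rw [intervalIntegral.integral_of_le ht,
      ofReal_integral_eq_lintegral_ofReal hint'.integrableOn
        (Eventually.of_forall fun r => sq_nonneg _)]
    rw [← lintegral_indicator measurableSet_Ioc, ← lintegral_indicator measurableSet_Icc]
    refine lintegral_mono fun r => ?_
    by_cases hr : r ∈ Ioc b' t
    · rw [indicator_of_mem hr]
      by_cases hr' : r ∈ Icc b' b
      · rw [indicator_of_mem hr']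
      · rw [indicator_of_notMem hr']
        have : b ≤ r := by
          by_contra h
          push Not at h
          exact hr' ⟨hr.1.le, h.le⟩
        rw [h399_ZZ_zero W (Or.inr this) ω]
        simp
    · rw [indicator_of_notMem hr]
      exact zero_le
  have e1 : hint N s η W t ω - MM W g G G1 a b c t ω =
      (hint N s η W b' ω - MM W g G G1 a b c b' ω) -
      (G (pp W a b c t ω) - G (pp W a b c b' ω)) -
      g * ∫ r in b'..t, (ZZ W G1 a b c r ω) ^ 2 := by
    rw [h399_hint_ge W η hs hsN ht ω, ← hsub]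
    unfold MM
    ring
  have e2 : |hint N s η W t ω - MM W g G G1 a b c t ω| ≤
      |hint N s η W b' ω - MM W g G G1 a b c b' ω| +
      (|G (pp W a b c t ω) - G (pp W a b c b' ω)| +
      |g| * ∫ r in b'..t, (ZZ W G1 a b c r ω) ^ 2) := by
    rw [e1]
    have h3 := abs_sub (hint N s η W b' ω - MM W g G G1 a b c b' ω -
      (G (pp W a b c t ω) - G (pp W a b c b' ω))) (g * ∫ r in b'..t, (ZZ W G1 a b c r ω) ^ 2)
    have h4 := abs_sub (hint N s η W b' ω - MM W g G G1 a b c b' ω)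
      (G (pp W a b c t ω) - G (pp W a b c b' ω))
    rw [abs_mul, abs_of_nonneg hI0] at h3
    linarith
  refine (ENNReal.ofReal_le_ofReal e2).trans ?_
  rw [ENNReal.ofReal_add (abs_nonneg _) (by positivity),
    ENNReal.ofReal_add (abs_nonneg _) (by positivity), ENNReal.ofReal_mul (abs_nonneg _)]
  exact add_le_add le_rfl (add_le_add le_rfl (mul_le_mul_right hI _))

theorem block (hW : FBM P F T W) (g : ℝ) (G G1 : ℝ → ℝ) (hG : ODE g G G1) (a b c : ℝ)
    (ha : 0 ≤ a) (hab : a < b) (hbT : b ≤ T) (ε : ℝ) (hε : 0 < ε) :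
    ∃ (N : ℕ) (s : ℕ → ℝ) (η : ℕ → Ω → ℝ), Monotone s ∧ s 0 = a ∧ s N < b ∧
      (∀ k, k < N → Measurable[F (s k)] (η k)) ∧ (∃ C : ℝ, ∀ k ω, |η k ω| ≤ C) ∧
      ∫⁻ ω, (∫⁻ r in Icc 0 T, ENNReal.ofReal ((hval N s η r ω - ZZ W G1 a b c r ω) ^ 2)) ∂P
        ≤ ENNReal.ofReal ε ∧
      ∀ t ∈ Icc 0 T, ∫⁻ ω, ENNReal.ofReal |hint N s η W t ω - MM W g G G1 a b c t ω| ∂P
        ≤ ENNReal.ofReal ε := by
  obtain ⟨δ, hδ⟩ : ∃ δ, δ = ε / (4 * (1 + |g|)) := ⟨_, rfl⟩
  have hg0 : 0 ≤ |g| := abs_nonneg g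
  have hδ0 : 0 < δ := by rw [hδ]; positivity
  have hδ1 : (1 + |g|) * δ = ε / 4 := by rw [hδ]; field_simp
  have hδ2 : δ ≤ ε / 4 := by nlinarith
  have hδ3 : |g| * δ ≤ ε / 4 := by nlinarith
  obtain ⟨hfin, htail⟩ := ZZ_l2 P F T W hW g G G1 hG a b c ha hab hbT
  obtain ⟨b₁, hb₁, hb₁'⟩ := htail δ hδ0
  obtain ⟨b₂, hb₂, hb₂'⟩ := pp_l1 P F T W hW g G G1 hG a b c ha hab hbT δ hδ0
  obtain ⟨b', hb'⟩ : ∃ b', b' = max b₁ b₂ := ⟨_, rfl⟩
  have hab' : a < b' := by rw [hb']; exact hb₁.1.trans_le (le_max_left _ _)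
  have hbb' : b' < b := by rw [hb']; exact max_lt hb₁.2 hb₂.2
  have h1' : b' ∈ Ico b₁ b := ⟨by rw [hb']; exact le_max_left _ _, hbb'⟩
  have h2' : b' ∈ Icc b₂ b := ⟨by rw [hb']; exact le_max_right _ _, hbb'.le⟩
  have htl := hb₁' b' h1'
  have hpl := hb₂' b' h2'
  obtain ⟨N, s, η, hs, hs0, hsN, hmeas, hbdd, hl2, hl1⟩ :=
    block_lt P F T W hW g G G1 hG a b' b c ha hab' hbb' hbT δ hδ0
  -- measurability of the tail
  have hZm := ZZ_meas_prod P F T W hW g G G1 hG a b c ha hab hbT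
  have hZm2 : Measurable (fun p : ℝ × Ω => ENNReal.ofReal ((ZZ W G1 a b c p.1 p.2) ^ 2)) :=
    (hZm.pow_const 2).ennreal_ofReal
  have htm : Measurable (fun ω => ∫⁻ r in Icc b' b, ENNReal.ofReal ((ZZ W G1 a b c r ω) ^ 2)) :=
    hZm2.lintegral_prod_left'
  have hfm : Measurable (fun ω => ∫⁻ r, ENNReal.ofReal ((ZZ W G1 a b c r ω) ^ 2)) :=
    hZm2.lintegral_prod_left'
  have hfa : ∀ᵐ ω ∂P, ∫⁻ r, ENNReal.ofReal ((ZZ W G1 a b c r ω) ^ 2) < ⊤ :=
    ae_lt_top hfm hfin.ne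
  refine ⟨N, s, η, hs, hs0, by rw [hsN]; exact hbb', hmeas, hbdd, ?_, fun t ht => ?_⟩
  · calc _ ≤ ∫⁻ ω, ((∫⁻ r in Icc a b', ENNReal.ofReal
            ((hval N s η r ω - ZZ W G1 a b c r ω) ^ 2)) +
          ∫⁻ r in Icc b' b, ENNReal.ofReal ((ZZ W G1 a b c r ω) ^ 2)) ∂P :=
          lintegral_mono fun ω => h399_l2 T W η G1 c hs hs0 hsN ω
      _ = (∫⁻ ω, (∫⁻ r in Icc a b', ENNReal.ofReal
            ((hval N s η r ω - ZZ W G1 a b c r ω) ^ 2)) ∂P) +
          ∫⁻ ω, (∫⁻ r in Icc b' b, ENNReal.ofReal ((ZZ W G1 a b c r ω) ^ 2)) ∂P :=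
          lintegral_add_right _ htm
      _ ≤ ENNReal.ofReal δ + ENNReal.ofReal δ := add_le_add hl2 htl
      _ = ENNReal.ofReal (δ + δ) := (ENNReal.ofReal_add hδ0.le hδ0.le).symm
      _ ≤ ENNReal.ofReal ε := ENNReal.ofReal_le_ofReal (by linarith)
  · rcases le_or_gt t a with hta | hta
    · have h0 : ∀ ω, hint N s η W t ω - MM W g G G1 a b c t ω = 0 := by
        intro ω
        rw [h399_hint_lt W η hs (by rw [hs0]; exact hta) ω]
        unfold MM
        rw [(pp_meas P F T W hW a b c ha hab hbT t).2 hta ω]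
        have hz : ∫ r in (0:ℝ)..t, (ZZ W G1 a b c r ω) ^ 2 = ∫ r in (0:ℝ)..t, (0:ℝ) := by
          refine intervalIntegral.integral_congr fun r hr => ?_
          rw [uIcc_of_le ht.1] at hr
          rw [h399_ZZ_zero W (Or.inl (hr.2.trans hta)) ω]
          ring
        rw [hz, intervalIntegral.integral_zero]
        ring
      have h1 : ∀ ω, ENNReal.ofReal |hint N s η W t ω - MM W g G G1 a b c t ω| = 0 := by
        intro ω
        rw [h0 ω]
        simp
      rw [lintegral_congr h1, lintegral_zero]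
      exact zero_le
    · rcases le_or_gt t b' with htb | htb
      · exact (hl1 t ⟨hta.le, htb⟩).trans (ENNReal.ofReal_le_ofReal (by linarith))
      · have hppm : ∀ r, Measurable (fun ω => G (pp W a b c r ω)) := fun r =>
          h399_G_meas hG ((pp_meas P F T W hW a b c ha hab hbT r).1.mono (hW.le _) le_rfl)
            (fun ω => pp_mem W a b c r ω)
        have hf2 : Measurable (fun ω =>
            ENNReal.ofReal |G (pp W a b c t ω) - G (pp W a b c b' ω)|) :=
          (continuous_abs.measurable.comp ((hppm t).sub (hppm b'))).ennreal_ofReal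
        have hptw : ∀ᵐ ω ∂P, ENNReal.ofReal |hint N s η W t ω - MM W g G G1 a b c t ω| ≤
            ENNReal.ofReal |hint N s η W b' ω - MM W g G G1 a b c b' ω| +
            (ENNReal.ofReal |G (pp W a b c t ω) - G (pp W a b c b' ω)| +
            ENNReal.ofReal |g| * ∫⁻ r in Icc b' b, ENNReal.ofReal ((ZZ W G1 a b c r ω) ^ 2)) := by
          filter_upwards [hfa] with ω hω
          exact h399_ptw W η g G G1 c hs hsN htb.le ω (hZm.comp measurable_prodMk_right) hω
        have hG2 : ∫⁻ ω, ENNReal.ofReal |G (pp W a b c t ω) - G (pp W a b c b' ω)| ∂P ≤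
            ENNReal.ofReal δ := by
          rcases le_or_gt t b with h | h
          · exact hpl t ⟨htb.le, h⟩
          · have h3 := hpl b ⟨hbb'.le, le_rfl⟩
            have h4 : ∀ ω, pp W a b c t ω = pp W a b c b ω := by
              intro ω
              unfold pp
              rw [if_neg (not_lt.2 h.le), if_neg (lt_irrefl b)]
            simp only [h4]
            exact h3
        calc _ ≤ ∫⁻ ω, (ENNReal.ofReal |hint N s η W b' ω - MM W g G G1 a b c b' ω| +
            (ENNReal.ofReal |G (pp W a b c t ω) - G (pp W a b c b' ω)| +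
            ENNReal.ofReal |g| * ∫⁻ r in Icc b' b,
              ENNReal.ofReal ((ZZ W G1 a b c r ω) ^ 2))) ∂P := lintegral_mono_ae hptw
          _ = (∫⁻ ω, ENNReal.ofReal |hint N s η W b' ω - MM W g G G1 a b c b' ω| ∂P) +
            ((∫⁻ ω, ENNReal.ofReal |G (pp W a b c t ω) - G (pp W a b c b' ω)| ∂P) +
            ENNReal.ofReal |g| * ∫⁻ ω, (∫⁻ r in Icc b' b,
              ENNReal.ofReal ((ZZ W G1 a b c r ω) ^ 2)) ∂P) := by
              have hf23 : Measurable (fun ω =>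
                  ENNReal.ofReal |G (pp W a b c t ω) - G (pp W a b c b' ω)| +
                  ENNReal.ofReal |g| * ∫⁻ r in Icc b' b,
                    ENNReal.ofReal ((ZZ W G1 a b c r ω) ^ 2)) := hf2.add (htm.const_mul _)
              rw [lintegral_add_right _ hf23, lintegral_add_left hf2,
                lintegral_const_mul _ htm]
          _ ≤ ENNReal.ofReal δ + (ENNReal.ofReal δ + ENNReal.ofReal |g| * ENNReal.ofReal δ) :=
            add_le_add (hl1 b' ⟨hab'.le, le_rfl⟩) (add_le_add hG2 (mul_le_mul_right htl _))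
          _ = ENNReal.ofReal (δ + (δ + |g| * δ)) := by
            rw [ENNReal.ofReal_add hδ0.le (by positivity), ENNReal.ofReal_add hδ0.le (by positivity),
              ENNReal.ofReal_mul hg0]
          _ ≤ ENNReal.ofReal ε := ENNReal.ofReal_le_ofReal (by linarith)

end M

end Pool.Agent.Helper41.BS
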