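import Mathlib

set_option autoImplicit false

open scoped ENNReal NNReal Topology
open MeasureTheory ProbabilityTheory Set Filter

namespace Pool.Agent.Helper41.BS

/-- the standard normal distribution function -/
noncomputable def Phi (x : ℝ) : ℝ := (gaussianReal 0 1).real (Iic x)

/-- the standard normal density -/
noncomputable def phi (x : ℝ) : ℝ := (√(2 * Real.pi))⁻¹ * Real.exp (-(x ^ 2) / 2)

/-- `F' = F1` and `F1' = -2 g F1²` on `[0,1]` -/
structure ODE (g : ℝ) (F F1 : ℝ → ℝ) : Prop where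
  h0 : ∀ x ∈ Icc (0:ℝ) 1, HasDerivAt F (F1 x) x
  h1 : ∀ x ∈ Icc (0:ℝ) 1, HasDerivAt F1 (-2 * g * (F1 x) ^ 2) x

/-- `D(u) = F1(Phi u) phi u`, the derivative of `F(Phi u)` -/
noncomputable def fD (F1 : ℝ → ℝ) (u : ℝ) : ℝ := F1 (Phi u) * phi u

/-- the standardised variable -/
noncomputable def uu (b c t w : ℝ) : ℝ := (w - c) / √(b - t)

/-- the stage function `F(Phi((w-c)/√(b-t)))` -/
noncomputable def fF (F : ℝ → ℝ) (b c t w : ℝ) : ℝ := F (Phi (uu b c t w))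

/-- its space derivative -/
noncomputable def fd (F1 : ℝ → ℝ) (b c t w : ℝ) : ℝ := fD F1 (uu b c t w) / √(b - t)

/-- its second space derivative -/
noncomputable def f2 (g : ℝ) (F1 : ℝ → ℝ) (b c t w : ℝ) : ℝ :=
  (-(uu b c t w) * fD F1 (uu b c t w) - 2 * g * (fD F1 (uu b c t w)) ^ 2) / (b - t)

/-- its time derivative -/
noncomputable def ft (F1 : ℝ → ℝ) (b c t w : ℝ) : ℝ :=
  uu b c t w * fD F1 (uu b c t w) / (2 * (b - t))

/-- `W` is an everywhere continuous Brownian motion with respect to the filtration `F` on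
`[0,T]` (not necessarily started at `0`) -/
structure FBM {Ω : Type*} [mΩ : MeasurableSpace Ω] (P : Measure Ω) (F : ℝ → MeasurableSpace Ω)
    (T : ℝ) (W : ℝ → Ω → ℝ) : Prop where
  le : ∀ t, F t ≤ mΩ
  mono : Monotone F
  adap : ∀ t, 0 ≤ t → Measurable[F t] (W t)
  cont : ∀ ω, Continuous (fun t => W t ω)
  law : ∀ s t, 0 ≤ s → s ≤ t → t ≤ T →
    P.map (fun ω => W t ω - W s ω) = gaussianReal 0 (t - s).toNNReal
  indep : ∀ s t, 0 ≤ s → s ≤ t → t ≤ T →
    Indep (MeasurableSpace.comap (fun ω => W t ω - W s ω) inferInstance) (F s) P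

/-- value at time `r` of the simple process `∑ ηₖ 1_(sₖ, sₖ₊₁]` -/
noncomputable def hval {Ω : Type*} (N : ℕ) (s : ℕ → ℝ) (η : ℕ → Ω → ℝ) (r : ℝ) (ω : Ω) : ℝ :=
  ∑ k ∈ Finset.range N, if s k < r ∧ r ≤ s (k + 1) then η k ω else 0

/-- stochastic integral up to time `t` of the simple process `∑ ηₖ 1_(sₖ, sₖ₊₁]` -/
noncomputable def hint {Ω : Type*} (N : ℕ) (s : ℕ → ℝ) (η : ℕ → Ω → ℝ) (W : ℝ → Ω → ℝ) (t : ℝ)
    (ω : Ω) : ℝ :=
  ∑ k ∈ Finset.range N, η k ω * (W (min (s (k + 1)) t) ω - W (min (s k) t) ω)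

/-- the uniform grid of `[a,b]` -/
noncomputable def grid (a b : ℝ) (N : ℕ) (k : ℕ) : ℝ := a + (b - a) * k / N

/-- the conditional probability process of the event `c < W b - W a` -/
noncomputable def pp {Ω : Type*} (W : ℝ → Ω → ℝ) (a b c : ℝ) (t : ℝ) (ω : Ω) : ℝ :=
  if t < b then Phi (uu b c (max t a) (W (max t a) ω - W a ω))
  else if c < W b ω - W a ω then 1 else 0

/-- the integrand of the block -/
noncomputable def ZZ {Ω : Type*} (W : ℝ → Ω → ℝ) (F1 : ℝ → ℝ) (a b c : ℝ) (t : ℝ) (ω : Ω) : ℝ :=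
  if a < t ∧ t < b then fd F1 b c t (W t ω - W a ω) else 0

/-- the stochastic integral of the block -/
noncomputable def MM {Ω : Type*} (W : ℝ → Ω → ℝ) (g : ℝ) (F F1 : ℝ → ℝ) (a b c : ℝ) (t : ℝ)
    (ω : Ω) : ℝ :=
  F (pp W a b c t ω) - F (Phi (uu b c a 0)) + g * ∫ r in (0:ℝ)..t, (ZZ W F1 a b c r ω) ^ 2

end Pool.Agent.Helper41.BS
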