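import Pool.Agent.Helper41.Exist
import Pool.Agent.Helper807.BS.Defs

set_option autoImplicit false

open scoped ENNReal NNReal Topology
open MeasureTheory ProbabilityTheory Set Filter
open Pool.Agent.Helper807.BS

namespace Pool.Agent.Helper41.BS

theorem exists_bm2_pre : ∃ (Ω : Type) (_ : MeasurableSpace Ω) (P : Measure Ω)
    (_ : IsProbabilityMeasure P) (B : Fin 2 → ℝ≥0 → Ω → ℝ), IsBM2 B P := by
  obtain ⟨Ω, mΩ, P, hP, X, hX, hc⟩ := Pool.Agent.Helper41.exists_sheet 2
  refine ⟨Ω, mΩ, P, hP, fun i t ω => X (i, t, 1) ω, ?_, fun i t => hX.meas _, ?_⟩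
  · intro i
    have h1 : IsGaussianProcess (fun (t : ℝ≥0) ω => X (i, t, 1) ω) P :=
      hX.gauss.comp_right (fun t : ℝ≥0 => ((i, t, 1) : Fin 2 × ℝ≥0 × ℝ≥0))
    refine ⟨h1.isPreBrownianReal_of_covariance ?_ ?_, ?_⟩
    · intro t
      exact hX.char.mean hX.meas _
    · intro s t hst
      have := hX.cov (i, s, 1) (i, t, 1)
      rw [this]
      simp [sheetK, min_eq_left hst]
    · refine Eventually.of_forall fun ω => ?_
      have h2 : Continuous (fun t : ℝ≥0 => ((t, 1) : ℝ≥0 × ℝ≥0)) := by fun_prop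
      exact (hc ω i).comp h2
  · have h1 : IsGaussianProcess (Sum.elim (fun (t : ℝ≥0) ω => X (0, t, 1) ω)
        (fun (t : ℝ≥0) ω => X (1, t, 1) ω)) P := by
      have := hX.gauss.comp_right (Sum.elim (fun t : ℝ≥0 => ((0, t, 1) : Fin 2 × ℝ≥0 × ℝ≥0))
        (fun t : ℝ≥0 => ((1, t, 1) : Fin 2 × ℝ≥0 × ℝ≥0)))
      have e : (Sum.elim (fun (t : ℝ≥0) ω => X (0, t, 1) ω) (fun (t : ℝ≥0) ω => X (1, t, 1) ω)) =
          X ∘ (Sum.elim (fun t : ℝ≥0 => ((0, t, 1) : Fin 2 × ℝ≥0 × ℝ≥0))
            (fun t : ℝ≥0 => ((1, t, 1) : Fin 2 × ℝ≥0 × ℝ≥0))) := by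
        funext t
        rcases t with t | t <;> rfl
      rw [e]
      exact this
    refine h1.indepFun_of_covariance_eq_zero (fun s => (hX.meas _).aemeasurable)
      (fun s => (hX.meas _).aemeasurable) ?_
    intro s t
    have := hX.cov (0, s, 1) (1, t, 1)
    rw [this]
    simp [sheetK]

theorem completion_map {Ω E : Type*} {mΩ : MeasurableSpace Ω} {mE : MeasurableSpace E}
    (P : Measure Ω) (f : Ω → E) (hf : Measurable f) :
    @Measure.map (NullMeasurableSpace Ω P) E _ mE f P.completion = P.map f := by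
  have hf' : @Measurable (NullMeasurableSpace Ω P) E _ mE f := fun s hs =>
    (hf hs).nullMeasurableSet
  refine Measure.ext fun s hs => ?_
  rw [Measure.map_apply hf' hs, Measure.map_apply hf hs]
  exact Measure.completion_apply _ _

/-- There is a complete probability space which carries a two-dimensional Brownian motion. -/
theorem exists_bm2 : ∃ (Ω : Type) (_ : MeasurableSpace Ω) (P : Measure Ω),
    IsProbabilityMeasure P ∧ P.IsComplete ∧ ∃ B : Fin 2 → ℝ≥0 → Ω → ℝ, IsBM2 B P := by
  obtain ⟨Ω, mΩ, P, hP, B, hB⟩ := exists_bm2_pre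
  have hm : ∀ i t, @Measurable (NullMeasurableSpace Ω P) ℝ _ _ (B i t) := fun i t s hs =>
    (hB.meas i t hs).nullMeasurableSet
  refine ⟨NullMeasurableSpace Ω P, inferInstance, P.completion, ?_, ?_, B, ?_, hm, ?_⟩
  · constructor
    exact (Measure.completion_apply P _).trans hP.measure_univ
  · exact Measure.completion.isComplete P
  · intro i
    refine ⟨⟨fun I => ?_⟩, ?_⟩
    · have h := (hB.bm i).hasLaw I
      have hmm : Measurable (fun ω => I.restrict (fun t => B i t ω)) :=
        measurable_pi_lambda _ fun t => hB.meas i t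
      refine ⟨?_, ?_⟩
      · exact (measurable_pi_lambda _ fun t : I => hm i t).aemeasurable
      · rw [← h.map_eq]
        exact completion_map P _ hmm
    · have := (hB.bm i).cont
      rw [ae_iff] at this ⊢
      exact (Measure.completion_apply P _).trans this
  · have h := hB.indep
    rw [indepFun_iff_measure_inter_preimage_eq_mul] at h ⊢
    intro s t hs ht
    exact h s t hs ht

end Pool.Agent.Helper41.BS
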