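import Pool.Agent.Helper41.BS.Defs
import Pool.Agent.Helper41.BS.BlkB
import Pool.Agent.Helper807.BS.Defs

set_option autoImplicit false

open scoped ENNReal NNReal Topology
open MeasureTheory ProbabilityTheory Set Filter
open Pool.Agent.Helper807.BS

namespace Pool.Agent.Helper41.BS

universe u

variable {Ω : Type u} [mΩ : MeasurableSpace Ω]



theorem fbm_of {P : Measure Ω} {F : ℝ → MeasurableSpace Ω} {W : Fin 2 → ℝ → Ω → ℝ}
    (hW : CBM P F W) (T : ℝ) (j : Fin 2) : FBM P F T (W j) where
  le := hW.le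
  mono := fun s t h => hW.mono s t h
  adap := fun t ht => hW.adapted j t ht
  cont := fun ω => hW.cont j ω
  law := fun s t hs hst _ => (hW.gauss j s t hs hst).map_eq
  indep := fun s t hs hst _ => (hW.indep j s t hs hst).symm

/-- the simple integrand of a block as a list -/
noncomputable def blist (N : ℕ) (s : ℕ → ℝ) (η : ℕ → Ω → ℝ) (j : Fin 2) (A : Set Ω) :
    List (Blk Ω) :=
  (List.range N).map fun k => ⟨s k, s (k + 1), j, A.indicator (η k)⟩

theorem sval_blist (N : ℕ) (s : ℕ → ℝ) (η : ℕ → Ω → ℝ) (j : Fin 2) (A : Set Ω) (i : Fin 2)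
    (t : ℝ) (ω : Ω) : sval (blist N s η j A) i t ω =
      if i = j then A.indicator (hval N s η t) ω else 0 := by
  classical
  induction N with
  | zero => simp [sval, blist, hval, Set.indicator]
  | succ n ih =>
    have e : sval (blist (n + 1) s η j A) i t ω = sval (blist n s η j A) i t ω +
        (if j = i ∧ s n < t ∧ t ≤ s (n + 1) then A.indicator (η n) ω else 0) := by
      simp [sval, blist, List.range_succ]
    rw [e, ih]
    have e2 : hval (n + 1) s η t ω = hval n s η t ω +
        (if s n < t ∧ t ≤ s (n + 1) then η n ω else 0) := by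
      simp [hval, Finset.sum_range_succ]
    by_cases hij : i = j
    · subst hij
      by_cases hA : ω ∈ A
      · simp [Set.indicator_of_mem hA, e2]
      · simp [Set.indicator_of_notMem hA]
    · have hji : ¬ j = i := fun h => hij h.symm
      simp [hij, hji]

theorem sint_blist (W : Fin 2 → ℝ → Ω → ℝ) (N : ℕ) (s : ℕ → ℝ) (η : ℕ → Ω → ℝ) (j : Fin 2)
    (A : Set Ω) (t : ℝ) (ω : Ω) : sint W (blist N s η j A) t ω =
      A.indicator (hint N s η (W j) t) ω := by
  classical
  induction N with
  | zero => simp [sint, blist, hint, Set.indicator]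
  | succ n ih =>
    have e : sint W (blist (n + 1) s η j A) t ω = sint W (blist n s η j A) t ω +
        A.indicator (η n) ω * (W j (min (s (n + 1)) t) ω - W j (min (s n) t) ω) := by
      simp [sint, blist, List.range_succ]
    rw [e, ih]
    have e2 : hint (n + 1) s η (W j) t ω = hint n s η (W j) t ω +
        η n ω * (W j (min (s (n + 1)) t) ω - W j (min (s n) t) ω) := by
      simp [hint, Finset.sum_range_succ]
    by_cases hA : ω ∈ A
    · simp [Set.indicator_of_mem hA, e2]
    · simp [Set.indicator_of_notMem hA]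

/-- **Quantitative block theorem.** -/
theorem block_quant {P : Measure Ω} [IsProbabilityMeasure P] {F : ℝ → MeasurableSpace Ω}
    {W : Fin 2 → ℝ → Ω → ℝ} (hW : CBM P F W) (T : ℝ) (j : Fin 2) (g : ℝ) (G G1 : ℝ → ℝ)
    (hG : ODE g G G1) (a b c : ℝ) (ha : 0 ≤ a) (hab : a < b) (hbT : b ≤ T) (A : Set Ω)
    (hA : MeasurableSet[F a] A) (ε : ℝ) (hε : 0 < ε) :
    ∃ H : List (Blk Ω), IsSimple T F H ∧
      ∫⁻ ω, (∫⁻ s in Icc (0 : ℝ) T, ENNReal.ofReal (∑ i, (sval H i s ω -
        (if i = j then A.indicator (ZZ (W j) G1 a b c s) ω else 0)) ^ 2)) ∂P ≤ ENNReal.ofReal ε ∧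
      ∀ t ∈ Icc (0 : ℝ) T, ∫⁻ ω, ENNReal.ofReal |sint W H t ω -
        A.indicator (MM (W j) g G G1 a b c t) ω| ∂P ≤ ENNReal.ofReal ε := by
  classical
  obtain ⟨N, s, η, hmono, hs0, hsN, hη, ⟨C, hC⟩, h1, h2⟩ :=
    block P F T (W j) (fbm_of hW T j) g G G1 hG a b c ha hab hbT ε hε
  refine ⟨blist N s η j A, ?_, ?_, ?_⟩
  · intro x hx
    simp only [blist, List.mem_map, List.mem_range] at hx
    obtain ⟨k, hk, rfl⟩ := hx
    have hak : a ≤ s k := hs0 ▸ hmono (Nat.zero_le k)
    refine ⟨ha.trans hak, hmono (Nat.le_succ k), (hmono hk).trans (hsN.le.trans hbT), ?_, C, ?_⟩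
    · exact (hη k hk).indicator (hW.mono _ _ hak _ hA)
    · intro ω
      by_cases h : ω ∈ A
      · simpa [Set.indicator_of_mem h] using hC k ω
      · simpa [Set.indicator_of_notMem h] using (abs_nonneg _).trans (hC k ω)
  · refine le_trans (lintegral_mono fun ω => lintegral_mono fun r => ?_) h1
    apply ENNReal.ofReal_le_ofReal
    have : ∑ i, (sval (blist N s η j A) i r ω -
        (if i = j then A.indicator (ZZ (W j) G1 a b c r) ω else 0)) ^ 2 =
        (A.indicator (hval N s η r) ω - A.indicator (ZZ (W j) G1 a b c r) ω) ^ 2 := by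
      rw [Finset.sum_eq_single j]
      · simp [sval_blist]
      · intro i _ hi
        simp [sval_blist, hi]
      · simp
    rw [this]
    by_cases h : ω ∈ A
    · simp [Set.indicator_of_mem h]
    · simp only [Set.indicator_of_notMem h, sub_zero]
      simpa using sq_nonneg (hval N s η r ω - ZZ (W j) G1 a b c r ω)
  · intro t ht
    refine le_trans (lintegral_mono fun ω => ?_) (h2 t ht)
    apply ENNReal.ofReal_le_ofReal
    rw [sint_blist]
    by_cases h : ω ∈ A
    · simp [Set.indicator_of_mem h]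
    · simp [Set.indicator_of_notMem h]

theorem MM_meas {P : Measure Ω} [IsProbabilityMeasure P] {F : ℝ → MeasurableSpace Ω}
    {W : Fin 2 → ℝ → Ω → ℝ} (hW : CBM P F W) (j : Fin 2) (g : ℝ) (G G1 : ℝ → ℝ)
    (hG : ODE g G G1) (a b c : ℝ) (ha : 0 ≤ a) (hab : a < b) (t : ℝ) (ht : 0 ≤ t) :
    Measurable (MM (W j) g G G1 a b c t) := by
  have hF := fbm_of hW b j
  have h1 : Measurable (pp (W j) a b c t) :=
    ((pp_meas P F b (W j) hF a b c ha hab le_rfl t).1).mono (hF.le _) le_rfl
  have hGc : ContinuousOn G (Icc 0 1) := fun x hx => (hG.h0 x hx).continuousAt.continuousWithinAt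
  have h2 : Measurable (fun ω => G (pp (W j) a b c t ω)) := by
    have h3 : Continuous (IccExtend (zero_le_one' ℝ) ((Icc (0:ℝ) 1).domRestrict G)) :=
      (continuousOn_iff_continuous_domRestrict.1 hGc).Icc_extend'
    have h4 : (fun ω => G (pp (W j) a b c t ω)) =
        fun ω => IccExtend (zero_le_one' ℝ) ((Icc (0:ℝ) 1).domRestrict G) (pp (W j) a b c t ω) := by
      funext ω
      rw [IccExtend_of_mem _ _ (pp_mem (W j) a b c t ω)]
      rfl
    rw [h4]
    exact h3.measurable.comp h1
  have h5 : Measurable (fun ω => ∫ r in (0:ℝ)..t, (ZZ (W j) G1 a b c r ω) ^ 2) := by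
    have h6 : Measurable (fun p : Ω × ℝ => (ZZ (W j) G1 a b c p.2 p.1) ^ 2) := by
      have := (ZZ_meas_prod P F b (W j) hF g G G1 hG a b c ha hab le_rfl).comp measurable_swap
      exact this.pow_const 2
    have h7 := h6.stronglyMeasurable.integral_prod_right' (ν := volume.restrict (Ioc 0 t))
    have h8 : (fun ω => ∫ r in (0:ℝ)..t, (ZZ (W j) G1 a b c r ω) ^ 2) =
        fun ω => ∫ r, (ZZ (W j) G1 a b c r ω) ^ 2 ∂(volume.restrict (Ioc 0 t)) := by
      funext ω
      rw [intervalIntegral.integral_of_le ht]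
    rw [h8]
    exact h7.measurable
  unfold MM
  exact (h2.sub_const _).add (h5.const_mul g)

theorem sval_meas {T : ℝ} {F : ℝ → MeasurableSpace Ω} (hF : ∀ t, F t ≤ mΩ) (H : List (Blk Ω))
    (hH : IsSimple T F H) (i : Fin 2) : Measurable (fun p : ℝ × Ω => sval H i p.1 p.2) := by
  induction H with
  | nil => simp [sval]
  | cons b H ih =>
    have h1 : (fun p : ℝ × Ω => sval (b :: H) i p.1 p.2) = fun p : ℝ × Ω =>
        (if b.j = i ∧ b.s < p.1 ∧ p.1 ≤ b.r then b.h p.2 else 0) + sval H i p.1 p.2 := by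
      funext p
      simp [sval]
    rw [h1]
    refine Measurable.add ?_ (ih fun x hx => hH x (List.mem_cons_of_mem _ hx))
    have hb := hH b List.mem_cons_self
    by_cases hj : b.j = i
    · have e : (fun p : ℝ × Ω => if b.j = i ∧ b.s < p.1 ∧ p.1 ≤ b.r then b.h p.2 else 0) =
          fun p : ℝ × Ω => if b.s < p.1 ∧ p.1 ≤ b.r then b.h p.2 else 0 := by
        funext p
        simp [hj]
      rw [e]
      exact Measurable.ite ((measurableSet_lt measurable_const measurable_fst).inter
        (measurableSet_le measurable_fst measurable_const))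
        ((hb.2.2.2.1.mono (hF _) le_rfl).comp measurable_snd) measurable_const
    · have e : (fun p : ℝ × Ω => if b.j = i ∧ b.s < p.1 ∧ p.1 ≤ b.r then b.h p.2 else 0) =
          fun _ => 0 := by
        funext p
        simp [hj]
      rw [e]
      exact measurable_const

theorem sint_meas {P : Measure Ω} {F : ℝ → MeasurableSpace Ω} {W : Fin 2 → ℝ → Ω → ℝ}
    (hW : CBM P F W) {T : ℝ} (H : List (Blk Ω)) (hH : IsSimple T F H) (t : ℝ) (ht : 0 ≤ t) :
    Measurable (sint W H t) := by
  induction H with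
  | nil =>
    have e : sint W ([] : List (Blk Ω)) t = fun _ => 0 := by
      funext ω
      simp [sint]
    rw [e]
    exact measurable_const
  | cons b H ih =>
    have h1 : sint W (b :: H) t = fun ω =>
        b.h ω * (W b.j (min b.r t) ω - W b.j (min b.s t) ω) + sint W H t ω := by
      funext ω
      simp [sint]
    rw [h1]
    refine Measurable.add ?_ (ih fun x hx => hH x (List.mem_cons_of_mem _ hx))
    have hb := hH b List.mem_cons_self
    have m1 : ∀ u : ℝ, 0 ≤ u → Measurable (W b.j u) := fun u hu =>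
      (hW.adapted b.j u hu).mono (hW.le u) le_rfl
    exact (hb.2.2.2.1.mono (hW.le _) le_rfl).mul
      ((m1 _ (le_min (hb.1.trans hb.2.1) ht)).sub (m1 _ (le_min hb.1 ht)))

/-- **Block theorem.** -/
theorem block_ito {P : Measure Ω} [IsProbabilityMeasure P] {F : ℝ → MeasurableSpace Ω}
    {W : Fin 2 → ℝ → Ω → ℝ} (hW : CBM P F W) (T : ℝ) (j : Fin 2) (g : ℝ) (G G1 : ℝ → ℝ)
    (hG : ODE g G G1) (a b c : ℝ) (ha : 0 ≤ a) (hab : a < b) (hbT : b ≤ T) (A : Set Ω)
    (hA : MeasurableSet[F a] A) :
    IsIto T P F W (fun i t ω => if i = j then A.indicator (ZZ (W j) G1 a b c t) ω else 0)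
      (fun t ω => A.indicator (MM (W j) g G G1 a b c t) ω) := by
  have hA' : MeasurableSet A := hW.le _ _ hA
  have hpos : ∀ n : ℕ, (0:ℝ) < 1 / ((n:ℝ) + 1) := fun n => by positivity
  choose H hH h1 h2 using fun n : ℕ =>
    block_quant hW T j g G G1 hG a b c ha hab hbT A hA (1 / ((n:ℝ) + 1)) (hpos n)
  have hlim : Tendsto (fun n : ℕ => ENNReal.ofReal (1 / ((n:ℝ) + 1))) atTop (𝓝 0) := by
    rw [← ENNReal.ofReal_zero]
    exact ENNReal.tendsto_ofReal tendsto_one_div_add_atTop_nhds_zero_nat
  have hlim2 : ∀ ε : ℝ, 0 < ε → Tendsto (fun n : ℕ => ENNReal.ofReal (1 / ((n:ℝ) + 1)) /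
      ENNReal.ofReal ε) atTop (𝓝 0) := by
    intro ε hε
    have := ENNReal.Tendsto.div_const hlim (b := ENNReal.ofReal ε)
      (Or.inr (by simpa using hε))
    simpa using this
  refine ⟨H, hH, ?_, ?_⟩
  · intro ε hε
    refine tendsto_of_tendsto_of_tendsto_of_le_of_le tendsto_const_nhds (hlim2 ε hε)
      (fun n => zero_le) (fun n => ?_)
    refine (meas_ge_le_lintegral_div ?_ (by simpa using hε) ENNReal.ofReal_ne_top).trans
      (ENNReal.div_le_div_right (h1 n) _)
    have hm : Measurable (fun p : Ω × ℝ => ENNReal.ofReal (∑ i, (sval (H n) i p.2 p.1 -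
        (if i = j then A.indicator (ZZ (W j) G1 a b c p.2) p.1 else 0)) ^ 2)) := by
      refine ENNReal.measurable_ofReal.comp (Finset.measurable_sum _ fun i _ => ?_)
      refine Measurable.pow_const (Measurable.sub ?_ ?_) 2
      · exact (sval_meas hW.le (H n) (hH n) i).comp measurable_swap
      · by_cases hi : i = j
        · simp only [hi, if_true]
          have h3 := (ZZ_meas_prod P F T (W j) (fbm_of hW T j) g G G1 hG a b c ha hab hbT).comp
            (measurable_swap (α := Ω) (β := ℝ))
          have h4 : (fun p : Ω × ℝ => A.indicator (ZZ (W j) G1 a b c p.2) p.1) =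
              (Prod.fst ⁻¹' A).indicator (fun p : Ω × ℝ => ZZ (W j) G1 a b c p.2 p.1) := by
            funext p
            by_cases hp : p.1 ∈ A
            · rw [Set.indicator_of_mem hp, Set.indicator_of_mem (by exact hp)]
            · rw [Set.indicator_of_notMem hp, Set.indicator_of_notMem (by exact hp)]
          rw [h4]
          exact h3.indicator (measurable_fst hA')
        · simp only [hi, if_false]
          exact measurable_const
    exact hm.lintegral_prod_right'.aemeasurable
  · intro ε hε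
    refine tendsto_of_tendsto_of_tendsto_of_le_of_le tendsto_const_nhds (hlim2 ε hε)
      (fun n => zero_le) (fun n => ?_)
    refine iSup₂_le fun t ht => ?_
    have hset : {ω | ε ≤ |sint W (H n) t ω - A.indicator (MM (W j) g G G1 a b c t) ω|} =
        {ω | ENNReal.ofReal ε ≤ ENNReal.ofReal
          |sint W (H n) t ω - A.indicator (MM (W j) g G G1 a b c t) ω|} := by
      ext ω
      simp only [Set.mem_ofPred_eq]
      rw [ENNReal.ofReal_le_ofReal_iff (abs_nonneg _)]
    rw [hset]
    refine (meas_ge_le_lintegral_div ?_ (by simpa using hε) ENNReal.ofReal_ne_top).trans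
      (ENNReal.div_le_div_right (h2 n t ht) _)
    have hm : Measurable (fun ω => sint W (H n) t ω - A.indicator (MM (W j) g G G1 a b c t) ω) :=
      (sint_meas hW (H n) (hH n) t ht.1).sub
        ((MM_meas hW j g G G1 hG a b c ha hab t ht.1).indicator hA')
    exact (ENNReal.measurable_ofReal.comp hm.abs).aemeasurable

end Pool.Agent.Helper41.BS
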