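import Pool.Agent.Helper41.BS.Quant
import Pool.Agent.Helper807.BS.DPath
import Pool.Agent.Helper807.BS.LG1
import Pool.Agent.Helper807.BS.LPhi1
import Pool.Agent.Helper807.BS.LPhi2

set_option autoImplicit false

open scoped ENNReal NNReal Topology
open MeasureTheory ProbabilityTheory Set Filter

namespace Pool.Agent.Helper41.BS

theorem phi_same (x : ℝ) : Pool.Agent.Helper41.BS.phi x = Pool.Agent.Helper807.BS.phi x := by
  unfold phi Pool.Agent.Helper807.BS.phi
  rw [div_eq_mul_inv (Real.exp _) (√(2 * Real.pi)), mul_comm]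

theorem Phi_same (x : ℝ) : Pool.Agent.Helper41.BS.Phi x = Pool.Agent.Helper807.BS.Phi x := by
  have hd : ∀ y, HasDerivAt (fun y => Phi y - Pool.Agent.Helper807.BS.Phi y) 0 y := by
    intro y
    have h1 := Phi_deriv y
    have h2 := Pool.Agent.Helper807.BS.hasDerivAt_Phi y
    have := h1.sub h2
    rwa [phi_same, sub_self] at this
  have hc : ∀ y z, Phi y - Pool.Agent.Helper807.BS.Phi y = Phi z - Pool.Agent.Helper807.BS.Phi z :=
    is_const_of_deriv_eq_zero (fun y => (hd y).differentiableAt) (fun y => (hd y).deriv)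
  have hl : Tendsto (fun y => Phi y - Pool.Agent.Helper807.BS.Phi y) atBot (𝓝 (0 - 0)) :=
    Phi_bot.sub Pool.Agent.Helper807.BS.tendsto_Phi_bot
  have hl2 : Tendsto (fun y => Phi y - Pool.Agent.Helper807.BS.Phi y) atBot
      (𝓝 (Phi x - Pool.Agent.Helper807.BS.Phi x)) := by
    refine tendsto_const_nhds.congr fun y => hc x y
  have := tendsto_nhds_unique hl hl2
  linarith

theorem ode_Gf (l y v : ℝ) : ODE (l / 2) (Pool.Agent.Helper807.BS.Gf l y v)
    (Pool.Agent.Helper807.BS.Gd l y v) where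
  h0 := fun x hx => Pool.Agent.Helper807.BS.hasDerivAt_Gf l y v x hx
  h1 := fun x hx => by
    have := Pool.Agent.Helper807.BS.hasDerivAt_Gd l y v x hx
    convert this using 1
    ring

end Pool.Agent.Helper41.BS

namespace Pool.Agent.Helper807.BS

open Pool.Agent.Helper41.BS (pp ZZ MM uu fd fD)

universe u

variable {Ω : Type u} [mΩ : MeasurableSpace Ω]

theorem zst_eq_ZZ (l y v a b : ℝ) (w : ℝ → Ω → ℝ) (t : ℝ) (ω : Ω) :
    zst l y v a b (fun s => w s ω) t = ZZ w (Gd l y v) a b 0 t ω := by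
  unfold zst ZZ
  refine if_congr Iff.rfl ?_ rfl
  unfold stx fd fD uu
  rw [Pool.Agent.Helper41.BS.Phi_same, Pool.Agent.Helper41.BS.phi_same, sub_zero]

theorem ust_eq_pp (l y0 y v a b : ℝ) (hab : a < b) (h0 : y0 = Gf l y v (1 / 2)) (w : ℝ → Ω → ℝ)
    (t : ℝ) (ω : Ω) :
    ust l y0 y v a b (fun s => w s ω) t = Gf l y v (pp w a b 0 t ω) := by
  unfold ust pp
  by_cases h1 : t ≤ a
  · have h2 : t < b := h1.trans_lt hab
    rw [if_pos h1, if_pos h2, max_eq_right h1, sub_self, h0]
    unfold uu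
    rw [Pool.Agent.Helper41.BS.Phi_same, sub_zero, zero_div, Phi_zero]
  · rw [if_neg h1]
    by_cases h2 : t < b
    · rw [if_pos h2, if_pos h2, max_eq_left (le_of_not_ge h1)]
      unfold stu uu
      rw [Pool.Agent.Helper41.BS.Phi_same, sub_zero]
    · rw [if_neg h2, if_neg h2]
      by_cases h3 : 0 < w b ω - w a ω
      · rw [if_pos h3, if_pos h3, Gf_one]
      · rw [if_neg h3, if_neg h3, Gf_zero]

theorem ito_stage (P : Measure Ω) [IsProbabilityMeasure P] (F : ℝ → MeasurableSpace Ω)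
    (W : Fin 2 → ℝ → Ω → ℝ) (hW : CBM P F W) (T a b : ℝ) (ha : 0 ≤ a) (hab : a < b)
    (hbT : b ≤ T) (j : Fin 2) (A : Set Ω) (hA : MeasurableSet[F a] A)
    (l y0 y v : ℝ) (h0 : y0 = Gf l y v (1 / 2))
    (hne : ∀ᵐ ω ∂P, W j b ω - W j a ω ≠ 0) :
    IsIto T P F W
      (fun i t ω => if i = j then
        A.indicator (fun ω => zst l y v a b (fun s => W j s ω) t) ω else 0)
      (fun t ω => A.indicator (fun ω =>
        ust l y0 y v a b (fun s => W j s ω) t - y0 +
          ∫ s in a..clamp a b t, l / 2 * (zst l y v a b (fun s => W j s ω) s) ^ 2) ω) := by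
  have hb := Pool.Agent.Helper41.BS.block_ito hW T j (l / 2) (Gf l y v) (Gd l y v)
    (Pool.Agent.Helper41.BS.ode_Gf l y v) a b 0 ha hab hbT A hA
  have hZ : (fun (i : Fin 2) (t : ℝ) (ω : Ω) => if i = j then
        A.indicator (fun ω => zst l y v a b (fun s => W j s ω) t) ω else 0) =
      fun i t ω => if i = j then A.indicator (ZZ (W j) (Gd l y v) a b 0 t) ω else 0 := by
    funext i t ω
    refine if_congr Iff.rfl ?_ rfl
    congr 1
    funext ω
    exact zst_eq_ZZ l y v a b (W j) t ω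
  rw [hZ]
  obtain ⟨H, hH, h1, h2⟩ := hb
  refine ⟨H, hH, h1, ?_⟩
  intro ε hε
  refine (h2 ε hε).congr fun n => ?_
  refine iSup_congr fun t => iSup_congr fun ht => ?_
  have key : ∀ ω, MM (W j) (l / 2) (Gf l y v) (Gd l y v) a b 0 t ω =
      ust l y0 y v a b (fun s => W j s ω) t - y0 +
          ∫ s in a..clamp a b t, l / 2 * (zst l y v a b (fun s => W j s ω) s) ^ 2 := by
    intro ω
    unfold MM
    have e1 : Gf l y v (Pool.Agent.Helper41.BS.Phi (uu b 0 a 0)) = y0 := by
      unfold uu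
      rw [Pool.Agent.Helper41.BS.Phi_same, sub_zero, zero_div, Phi_zero, h0]
    rw [e1, ust_eq_pp l y0 y v a b hab h0 (W j) t ω]
    congr 1
    rw [intervalIntegral.integral_const_mul]
    congr 1
    have e2 : ∀ s, (zst l y v a b (fun s => W j s ω) s) ^ 2 =
        (ZZ (W j) (Gd l y v) a b 0 s ω) ^ 2 := fun s => by
      rw [zst_eq_ZZ]
    simp_rw [e2]
    have hac : a ≤ clamp a b t := le_max_left _ _
    rw [intervalIntegral.integral_of_le ht.1, intervalIntegral.integral_of_le hac]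
    have hz : ∀ s, ¬ (a < s ∧ s < b) → (ZZ (W j) (Gd l y v) a b 0 s ω) ^ 2 = 0 := by
      intro s hs
      unfold ZZ
      rw [if_neg hs]
      simp
    rw [← integral_indicator measurableSet_Ioc, ← integral_indicator measurableSet_Ioc]
    congr 1
    funext s
    by_cases hs : a < s ∧ s < b
    · have e3 : s ∈ Ioc (0:ℝ) t ↔ s ∈ Ioc a (clamp a b t) := by
        unfold clamp
        constructor
        · rintro ⟨h3, h4⟩
          exact ⟨hs.1, le_max_of_le_right (le_min h4 hs.2.le)⟩
        · rintro ⟨h3, h4⟩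
          refine ⟨ha.trans_lt h3, ?_⟩
          rcases le_max_iff.1 h4 with h5 | h5
          · exact absurd h3 (not_lt.2 h5)
          · exact (le_min_iff.1 h5).1
      by_cases h3 : s ∈ Ioc (0:ℝ) t
      · rw [Set.indicator_of_mem h3, Set.indicator_of_mem (e3.1 h3)]
      · rw [Set.indicator_of_notMem h3, Set.indicator_of_notMem (fun h => h3 (e3.2 h))]
    · have h4 := hz s hs
      by_cases h3 : s ∈ Ioc (0:ℝ) t
      · rw [Set.indicator_of_mem h3, h4]
        by_cases h5 : s ∈ Ioc a (clamp a b t)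
        · rw [Set.indicator_of_mem h5, h4]
        · rw [Set.indicator_of_notMem h5]
      · rw [Set.indicator_of_notMem h3]
        by_cases h5 : s ∈ Ioc a (clamp a b t)
        · rw [Set.indicator_of_mem h5, h4]
        · rw [Set.indicator_of_notMem h5]
  have hfun : (MM (W j) (l / 2) (Gf l y v) (Gd l y v) a b 0 t) =
      (fun ω => ust l y0 y v a b (fun s => W j s ω) t - y0 +
          ∫ s in a..clamp a b t, l / 2 * (zst l y v a b (fun s => W j s ω) s) ^ 2) :=
    funext key
  beta_reduce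
  rw [hfun]

end Pool.Agent.Helper807.BS
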